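import Pool.Agent.Work.MP_2f1fa1_lc.PNP

/-!
# Raw output strings
-/

open Turing

namespace PTime

/-- body of the loop that turns the code of a list of bits into the list -/
def unqB : Prog :=
  .cas 0 .skip (.pop 0) (.seq (.pop 0) (.cas 0 .skip (.seq (.pop 0) (.push 1 false))
    (.seq (.pop 0) (.seq (.pop 0) (.seq (.pop 0) (.push 1 true))))))

theorem run_unqL (l : List Bool) : ∀ acc : List Bool,
    Run (.loop 0 unqB) (mk [enc l, acc]) (mk [[], l.reverse ++ acc]) (13 * l.length + 4) := by
  induction l with
  | nil =>
    intro acc
    have r1 : Run (.pop 0) (mk [enc ([] : List Bool), acc]) (mk [[], acc]) 1 :=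
      pop_mk (by simp) rfl
    have r2 : Run unqB (mk [enc ([] : List Bool), acc]) (mk [[], acc]) 2 :=
      run_cas0 (l := []) rfl r1
    exact (run_loopS (by simp [mk, enc_nil]) r2 (run_loopE rfl)).cast rfl rfl (by simp)
  | cons b l ih =>
    intro acc
    have r0 : Run unqB (mk [enc (b :: l), acc]) (mk [enc l, b :: acc]) 12 := by
      cases b with
      | false =>
        have e : enc (false :: l) = true :: false :: enc l := rfl
        rw [e]
        have r1 : Run (.pop 0) (mk [true :: false :: enc l, acc]) (mk [false :: enc l, acc]) 1 :=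
          pop_mk (by simp) rfl
        have r2 : Run (.pop 0) (mk [false :: enc l, acc]) (mk [enc l, acc]) 1 :=
          pop_mk (by simp) rfl
        have r3 : Run (.push 1 false) (mk [enc l, acc]) (mk [enc l, false :: acc]) 1 :=
          push_mk (by simp) rfl
        have r4 := run_cas0 (pe := .skip)
          (p1 := .seq (.pop 0) (.seq (.pop 0) (.seq (.pop 0) (.push 1 true)))) (i := 0)
          (l := enc l) rfl (r2.seq r3)
        exact (run_cas1 (l := false :: enc l) rfl (r1.seq r4)).mono (by omega)
      | true =>
        have e : enc (true :: l) = true :: true :: false :: false :: enc l := rfl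
        rw [e]
        have r1 : Run (.pop 0) (mk [true :: true :: false :: false :: enc l, acc])
          (mk [true :: false :: false :: enc l, acc]) 1 := pop_mk (by simp) rfl
        have r2 : Run (.pop 0) (mk [true :: false :: false :: enc l, acc])
          (mk [false :: false :: enc l, acc]) 1 := pop_mk (by simp) rfl
        have r3 : Run (.pop 0) (mk [false :: false :: enc l, acc])
          (mk [false :: enc l, acc]) 1 := pop_mk (by simp) rfl
        have r4 : Run (.pop 0) (mk [false :: enc l, acc]) (mk [enc l, acc]) 1 :=
          pop_mk (by simp) rfl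
        have r5 : Run (.push 1 true) (mk [enc l, acc]) (mk [enc l, true :: acc]) 1 :=
          push_mk (by simp) rfl
        have r6 := run_cas1 (pe := .skip) (p0 := .seq (.pop 0) (.push 1 false)) (i := 0)
          (l := false :: false :: enc l) rfl (r2.seq (r3.seq (r4.seq r5)))
        exact (run_cas1 (l := true :: false :: false :: enc l) rfl (r1.seq r6)).mono (by omega)
    refine (run_loopS ?_ r0 (ih (b :: acc))).cast rfl (by simp) ?_
    · show enc (b :: l) ≠ []
      rw [enc_cons]
      simp
    · simp only [List.length_cons]
      omega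

/-- polynomial time functions of raw bit strings with raw output -/
theorem PT.compileOut {ι : Type} {f : List Bool → ι} {eo : ι → List Bool}
    (h : PT (fun x => eo (f x))) :
    Nonempty (TM2ComputableInPolyTime (fun x : List Bool => x) eo f) := by
  obtain ⟨p, q, hp⟩ := h
  refine PTime.compile _ _ f (.seq rawP (.seq p (.seq (.loop 0 unqB) (mv 1 0))))
    (18 * Polynomial.X + 14 + 19 * q.comp (4 * Polynomial.X + 1) +
      18 * (4 * Polynomial.X + 1)) fun x => ?_
  rw [ini_eq, ini_eq]
  have hsz : (eo (f x)).length ≤ q.eval (sz x) + sz x := by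
    have h1 := (hp x).length_le 0
    have h2 := length_le_sz (eo (f x))
    have e1 : (mk [enc (eo (f x))] 0).length = sz (eo (f x)) := rfl
    have e2 : (mk [enc x] 0).length = sz x := rfl
    rw [e1, e2] at h1
    omega
  have r1 := run_unqL (eo (f x)) []
  rw [List.append_nil] at r1
  have r2 : Run (mv 1 0) (mk [[], (eo (f x)).reverse]) (mk [eo (f x), []])
      (5 * (eo (f x)).length + 1) := by
    have := mv_mk (L := [[], (eo (f x)).reverse]) (L' := [eo (f x), []]) (i := 1) (j := 0)
      (x := (eo (f x)).reverse) (t := 5 * (eo (f x)).length + 1) (by decide) (by simp) (by simp)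
      rfl (by simp [mk]) (by simp)
    exact this
  have r3 : Run (.seq (.loop 0 unqB) (mv 1 0)) (mk [enc (eo (f x))]) (mk [eo (f x)])
      (18 * (eo (f x)).length + 6) :=
    (r1.seq r2).cast (mk_nils [enc (eo (f x))] 1) (mk_nils [eo (f x)] 1) (by omega)
  refine ((run_rawP x).seq ((hp x).seq r3)).mono ?_
  have h1 : sz x ≤ 4 * x.length + 1 := by
    have := sz_list_le (l := x) (B := 3) fun b _ => sz_bool b
    omega
  have h2 := eval_mono q h1
  simp only at h2
  simp only [Polynomial.eval_add, Polynomial.eval_mul, Polynomial.eval_X,
    Polynomial.eval_ofNat, Polynomial.eval_comp, Polynomial.eval_one]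
  omega

end PTime
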