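import Mathlib

/-!
# Cook-Levin, part 1: machines with a finite control and stacks, and their tableaux
-/

namespace PTime

/-- actions of a finite control -/
inductive Act (K A Q : Type) where
  | push (k : K) (a : A) (q : Q)
  | pop (k : K) (f : Option A → Q)
  | goto (q : Q)

/-- a machine: every control state has one action; `Ql` and `Al` are the relevant states and
symbols -/
structure FM (K A Q : Type) where
  act : Q → Act K A Q
  Ql : List Q
  Al : List A
  closed : ∀ q ∈ Ql, match act q with
    | .push _ a q' => a ∈ Al ∧ q' ∈ Ql
    | .pop _ f => f none ∈ Ql ∧ ∀ a ∈ Al, f (some a) ∈ Ql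
    | .goto q' => q' ∈ Ql

variable {K A Q : Type} [DecidableEq K]

open Function (update)

/-- one step -/
def FM.step (M : FM K A Q) (c : Q × (K → List A)) : Q × (K → List A) :=
  match M.act c.1 with
  | .push k a q => (q, update c.2 k (a :: c.2 k))
  | .pop k f => (f (c.2 k).head?, update c.2 k (c.2 k).tail)
  | .goto q => (q, c.2)

/-- the configuration uses only relevant states and symbols -/
def FM.Good (M : FM K A Q) (c : Q × (K → List A)) : Prop :=
  c.1 ∈ M.Ql ∧ ∀ k, ∀ a ∈ c.2 k, a ∈ M.Al

theorem FM.Good.step {M : FM K A Q} {c : Q × (K → List A)} (h : M.Good c) :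
    M.Good (M.step c) := by
  obtain ⟨q, S⟩ := c
  obtain ⟨h1, h2⟩ := h
  have h3 := M.closed q h1
  unfold FM.step
  simp only
  cases ha : M.act q with
  | push k a q' =>
    rw [ha] at h3
    refine ⟨h3.2, fun k' b hb => ?_⟩
    by_cases hk : k' = k
    · subst hk
      simp only [Function.update_self, List.mem_cons] at hb
      rcases hb with rfl | hb
      · exact h3.1
      · exact h2 _ _ hb
    · simp only [Function.update_of_ne hk] at hb
      exact h2 _ _ hb
  | pop k f =>
    rw [ha] at h3
    refine ⟨?_, fun k' b hb => ?_⟩
    · show f (S k).head? ∈ M.Ql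
      cases hS : S k with
      | nil => exact h3.1
      | cons a l => exact h3.2 a (h2 k a (by simp [hS]))
    · by_cases hk : k' = k
      · subst hk
        simp only [Function.update_self] at hb
        exact h2 _ _ (List.mem_of_mem_tail hb)
      · simp only [Function.update_of_ne hk] at hb
        exact h2 _ _ hb
  | goto q' =>
    rw [ha] at h3
    exact ⟨h3, h2⟩

theorem FM.Good.iter {M : FM K A Q} {c : Q × (K → List A)} (h : M.Good c) (n : ℕ) :
    M.Good (M.step^[n] c) := by
  induction n with
  | zero => exact h
  | succ n ih => rw [Function.iterate_succ_apply']; exact ih.step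

/-- the cell at height `h` -/
def cell (L : List A) (h : ℕ) : Option A := L.reverse[h]?

theorem cell_eq_none {L : List A} {h : ℕ} : cell L h = none ↔ L.length ≤ h := by
  simp [cell]

theorem cell_mem {L : List A} {h : ℕ} {a : A} (e : cell L h = some a) : a ∈ L := by
  have := List.mem_of_getElem? e
  simpa using this

/-- the new cell of the stack `k` as a function of the action, of the cell below (`none` at the
bottom), of the cell and of the cell above -/
def upd (act : Act K A Q) (k : K) (l : Option (Option A)) (m r : Option A) : Option A :=
  match act with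
  | .push k' a _ => if k = k' then
      (match m, l with
        | some b, _ => some b
        | none, none => some a
        | none, some (some _) => some a
        | none, some none => none) else m
  | .pop k' _ => if k = k' then
      (match m, r with
        | some _, none => none
        | m, _ => m) else m
  | .goto _ => m

/-- the cell below -/
def below (L : List A) (h : ℕ) : Option (Option A) :=
  match h with
  | 0 => none
  | h + 1 => some (cell L h)

theorem cell_cons (a : A) (L : List A) (h : ℕ) :
    cell (a :: L) h = if h = L.length then some a else cell L h := by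
  unfold cell
  rw [List.reverse_cons, List.getElem?_append]
  by_cases h1 : h < L.length
  · simp [h1, Nat.ne_of_lt h1]
  · by_cases h2 : h = L.length
    · subst h2; simp
    · have h3 : h - L.reverse.length ≠ 0 := by rw [List.length_reverse]; omega
      obtain ⟨j, hj⟩ := Nat.exists_eq_succ_of_ne_zero h3
      simp only [List.length_reverse, h1, if_false, h2]
      rw [List.length_reverse] at hj
      rw [hj]
      simp
      omega

theorem cell_step (M : FM K A Q) (c : Q × (K → List A)) (k : K) (h : ℕ) :
    cell ((M.step c).2 k) h =
      upd (M.act c.1) k (below (c.2 k) h) (cell (c.2 k) h) (cell (c.2 k) (h + 1)) := by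
  obtain ⟨q, S⟩ := c
  unfold FM.step
  simp only
  cases ha : M.act q with
  | push k' a q' =>
    simp only [upd]
    by_cases hk : k = k'
    · subst hk
      simp only [Function.update_self, if_true]
      rw [cell_cons]
      by_cases h1 : h = (S k).length
      · subst h1
        rw [if_pos rfl]
        have h2 : cell (S k) (S k).length = none := cell_eq_none.2 le_rfl
        rw [h2]
        cases hl : (S k).length with
        | zero => rfl
        | succ n =>
          have h3 : cell (S k) n ≠ none := by
            rw [Ne, cell_eq_none, hl]; omega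
          obtain ⟨b, hb⟩ := Option.ne_none_iff_exists'.1 h3
          simp [below, hb]
      · rw [if_neg h1]
        cases hc : cell (S k) h with
        | some b => rfl
        | none =>
          have h2 := cell_eq_none.1 hc
          cases h with
          | zero => omega
          | succ n =>
            have h3 : cell (S k) n = none := cell_eq_none.2 (by omega)
            simp [below, h3]
    · simp only [Function.update_of_ne hk, if_neg hk]
  | pop k' f =>
    simp only [upd]
    by_cases hk : k = k'
    · subst hk
      simp only [Function.update_self, if_true]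
      cases hS : S k with
      | nil => simp [cell]
      | cons a L =>
        rw [List.tail_cons, cell_cons, cell_cons]
        by_cases h1 : h = L.length
        · subst h1
          have h2 : cell L L.length = none := cell_eq_none.2 le_rfl
          have h3 : cell L (L.length + 1) = none := cell_eq_none.2 (by omega)
          simp [h2, h3]
        · rw [if_neg h1]
          by_cases h2 : h < L.length
          · have h3 : cell L h ≠ none := by rw [Ne, cell_eq_none]; omega
            obtain ⟨b, hb⟩ := Option.ne_none_iff_exists'.1 h3
            by_cases h4 : h + 1 = L.length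
            · simp [hb, h4]
            · have h5 : cell L (h + 1) ≠ none := by rw [Ne, cell_eq_none]; omega
              obtain ⟨b', hb'⟩ := Option.ne_none_iff_exists'.1 h5
              simp [hb, h4, hb']
          · have h3 : cell L h = none := cell_eq_none.2 (by omega)
            rw [h3]
    · simp only [Function.update_of_ne hk, if_neg hk]
  | goto q' => simp only [upd]

/-! ### the clauses -/

/-- names of the variables: `(0, t, q, 0)` and `(k + 1, t, h, a)` -/
abbrev Nm : Type := ℕ × ℕ × ℕ × ℕ

/-- clauses -/
abbrev Cl (V : Type) : Type := List (Bool × V)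

/-- `v` satisfies the clause `C` -/
def ClSat {V : Type} (v : V → Bool) (C : Cl V) : Prop := ∃ l ∈ C, v l.2 = l.1

open Classical in
/-- name of: the control state at time `t` is `q` -/
noncomputable def sv (M : FM K A Q) (t : ℕ) (q : Q) : Nm := (0, t, M.Ql.idxOf q, 0)

open Classical in
/-- index of a cell content -/
noncomputable def io (M : FM K A Q) : Option A → ℕ
  | none => 0
  | some a => M.Al.idxOf a + 1

open Classical in
/-- name of: the cell at height `h` of the stack `k` at time `t` is `o` -/
noncomputable def cv [Fintype K] (M : FM K A Q) (t : ℕ) (k : K) (h : ℕ) (o : Option A) : Nm :=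
  ((Finset.univ.toList.idxOf k) + 1, t, h, io M o)

/-- the relevant cell contents -/
def FM.Ol (M : FM K A Q) : List (Option A) := none :: M.Al.map some

omit [DecidableEq K] in
theorem cell_mem_Ol {M : FM K A Q} {c : Q × (K → List A)} (h : M.Good c) (k : K) (i : ℕ) :
    cell (c.2 k) i ∈ M.Ol := by
  cases e : cell (c.2 k) i with
  | none => simp [FM.Ol]
  | some a => simpa [FM.Ol] using h.2 k a (cell_mem e)

variable [Fintype K]

/-- the clauses for the control at time `t`, height `h`, state `q` -/
noncomputable def ctlC (M : FM K A Q) (q : Q) (t h : ℕ) : List (Cl Nm) :=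
  match M.act q with
  | .push _ _ q' => [[(false, sv M t q), (true, sv M (t + 1) q')]]
  | .goto q' => [[(false, sv M t q), (true, sv M (t + 1) q')]]
  | .pop k f => [(false, sv M t q), (false, cv M t k 0 none), (true, sv M (t + 1) (f none))] ::
      M.Al.map fun a => [(false, sv M t q), (false, cv M t k h (some a)),
        (false, cv M t k (h + 1) none), (true, sv M (t + 1) (f (some a)))]

/-- the clauses for the cells -/
noncomputable def celC (M : FM K A Q) (q : Q) (t h : ℕ) : List (Cl Nm) :=
  (Finset.univ : Finset K).toList.flatMap fun k => M.Ol.flatMap fun m => M.Ol.flatMap fun r =>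
    [(false, sv M t q), (false, cv M t k 0 m), (false, cv M t k 1 r),
        (true, cv M (t + 1) k 0 (upd (M.act q) k none m r))] ::
      M.Ol.map fun l => [(false, sv M t q), (false, cv M t k h l), (false, cv M t k (h + 1) m),
        (false, cv M t k (h + 2) r),
        (true, cv M (t + 1) k (h + 1) (upd (M.act q) k (some l) m r))]

/-- all transition clauses -/
noncomputable def stpC (M : FM K A Q) (t h : ℕ) : List (Cl Nm) :=
  M.Ql.flatMap fun q => ctlC M q t h ++ celC M q t h

/-- top clauses -/
noncomputable def topC (M : FM K A Q) (H t : ℕ) : List (Cl Nm) :=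
  (Finset.univ : Finset K).toList.map fun k => [(true, cv M t k H none)]

/-- the facts of a configuration at time `t` up to height `H` -/
def Facts (M : FM K A Q) (v : Nm → Bool) (t H : ℕ) (c : Q × (K → List A)) : Prop :=
  v (sv M t c.1) = true ∧ ∀ k, ∀ h ≤ H, v (cv M t k h (cell (c.2 k) h)) = true

theorem facts_step (M : FM K A Q) (v : Nm → Bool) (t H : ℕ) (hH : 1 ≤ H)
    {c : Q × (K → List A)} (hc : M.Good c) (hh : ∀ k, (c.2 k).length ≤ H)
    (hs : ∀ h < H, ∀ C ∈ stpC M t h, ClSat v C) (ht : ∀ C ∈ topC M H (t + 1), ClSat v C)
    (hh' : ∀ k, ((M.step c).2 k).length ≤ H)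
    (h : Facts M v t H c) : Facts M v (t + 1) H (M.step c) := by
  obtain ⟨q, S⟩ := c
  obtain ⟨f1, f2⟩ := h
  simp only at f1 f2
  have hq : q ∈ M.Ql := hc.1
  constructor
  · -- control
    have key : ∀ h < H, ∀ C ∈ ctlC M q t h, ClSat v C := fun h hh C hC =>
      hs h hh C (List.mem_flatMap.2 ⟨q, hq, List.mem_append_left _ hC⟩)
    unfold FM.step
    simp only
    unfold ctlC at key
    cases ha : M.act q with
    | push k a q' =>
      rw [ha] at key
      obtain ⟨l, hl, e⟩ := key 0 (by omega) _ (List.mem_singleton.2 rfl)
      simp only [List.mem_cons, List.not_mem_nil, or_false] at hl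
      rcases hl with rfl | rfl
      · simp [f1] at e
      · exact e
    | goto q' =>
      rw [ha] at key
      obtain ⟨l, hl, e⟩ := key 0 (by omega) _ (List.mem_singleton.2 rfl)
      simp only [List.mem_cons, List.not_mem_nil, or_false] at hl
      rcases hl with rfl | rfl
      · simp [f1] at e
      · exact e
    | pop k f =>
      rw [ha] at key
      show v (sv M (t + 1) (f (S k).head?)) = true
      cases hS : S k with
      | nil =>
        obtain ⟨l, hl, e⟩ := key 0 (by omega) _ List.mem_cons_self
        have f3 := f2 k 0 (by omega)
        have e0 : cell (S k) 0 = none := by rw [hS]; rfl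
        rw [e0] at f3
        simp only [List.mem_cons, List.not_mem_nil, or_false] at hl
        rcases hl with rfl | rfl | rfl
        · simp [f1] at e
        · simp [f3] at e
        · exact e
      | cons a L =>
        have hlen : L.length < H := by
          have := hh k
          simp only [hS, List.length_cons] at this
          omega
        have haA : a ∈ M.Al := hc.2 k a (by simp [hS])
        obtain ⟨l, hl, e⟩ := key L.length hlen _
          (List.mem_cons_of_mem _ (List.mem_map.2 ⟨a, haA, rfl⟩))
        have f3 := f2 k L.length (by omega)
        have f4 := f2 k (L.length + 1) (by omega)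
        have e0 : cell (S k) L.length = some a := by rw [hS, cell_cons, if_pos rfl]
        have e1 : cell (S k) (L.length + 1) = none := by
          rw [hS, cell_eq_none, List.length_cons]
        rw [e0] at f3
        rw [e1] at f4
        simp only [List.mem_cons, List.not_mem_nil, or_false] at hl
        rcases hl with rfl | rfl | rfl | rfl
        · simp [f1] at e
        · simp [f3] at e
        · simp [f4] at e
        · exact e
  · -- cells
    intro k h hhH
    by_cases hhH' : h = H
    · subst hhH'
      have e0 : cell ((M.step (q, S)).2 k) h = none := cell_eq_none.2 (hh' k)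
      rw [e0]
      obtain ⟨l, hl, e⟩ := ht _ (List.mem_map.2 ⟨k, by simp, rfl⟩)
      rw [List.mem_singleton] at hl
      subst hl
      exact e
    · have hlt : h < H := by omega
      rw [cell_step]
      simp only
      have m1 := cell_mem_Ol hc k h
      have m2 := cell_mem_Ol hc k (h + 1)
      simp only at m1 m2
      have g1 := f2 k h hhH
      have g2 := f2 k (h + 1) (by omega)
      cases h with
      | zero =>
        have mem : [(false, sv M t q), (false, cv M t k 0 (cell (S k) 0)),
            (false, cv M t k 1 (cell (S k) 1)),
            (true, cv M (t + 1) k 0 (upd (M.act q) k none (cell (S k) 0) (cell (S k) 1)))] ∈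
            stpC M t 0 := by
          refine List.mem_flatMap.2 ⟨q, hq, List.mem_append_right _ ?_⟩
          refine List.mem_flatMap.2 ⟨k, by simp, List.mem_flatMap.2 ⟨_, m1,
            List.mem_flatMap.2 ⟨_, m2, ?_⟩⟩⟩
          exact List.mem_cons_self
        obtain ⟨l, hl, e⟩ := hs 0 hlt _ mem
        simp only [List.mem_cons, List.not_mem_nil, or_false] at hl
        rcases hl with rfl | rfl | rfl | rfl
        · simp [f1] at e
        · simp [g1] at e
        · simp only [Nat.zero_add] at g2
          simp [g2] at e
        · exact e
      | succ h =>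
        have m0 := cell_mem_Ol hc k h
        simp only at m0
        have g0 := f2 k h (by omega)
        have mem : [(false, sv M t q), (false, cv M t k h (cell (S k) h)),
            (false, cv M t k (h + 1) (cell (S k) (h + 1))),
            (false, cv M t k (h + 2) (cell (S k) (h + 2))),
            (true, cv M (t + 1) k (h + 1) (upd (M.act q) k (some (cell (S k) h))
              (cell (S k) (h + 1)) (cell (S k) (h + 2))))] ∈ stpC M t h := by
          refine List.mem_flatMap.2 ⟨q, hq, List.mem_append_right _ ?_⟩
          refine List.mem_flatMap.2 ⟨k, by simp, List.mem_flatMap.2 ⟨_, m1,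
            List.mem_flatMap.2 ⟨_, m2, ?_⟩⟩⟩
          exact List.mem_cons_of_mem _ (List.mem_map.2 ⟨_, m0, rfl⟩)
        obtain ⟨l, hl, e⟩ := hs h (by omega) _ mem
        simp only [List.mem_cons, List.not_mem_nil, or_false] at hl
        rcases hl with rfl | rfl | rfl | rfl | rfl
        · simp [f1] at e
        · simp [g0] at e
        · simp [g1] at e
        · simp [g2] at e
        · exact e

/-! ### the canonical assignment of a run -/

open Classical in
/-- the assignment given by a sequence of configurations -/
noncomputable def asg (M : FM K A Q) (c : ℕ → Q × (K → List A)) (n : Nm) : Bool :=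
  if n.1 = 0 then decide (M.Ql.idxOf (c n.2.1).1 = n.2.2.1)
  else decide (∃ k : K, Finset.univ.toList.idxOf k + 1 = n.1 ∧
    io M (cell ((c n.2.1).2 k) n.2.2.1) = n.2.2.2)

theorem asg_sv {M : FM K A Q} {c : ℕ → Q × (K → List A)} (hc : ∀ t, M.Good (c t)) (t : ℕ)
    (q : Q) : asg M c (sv M t q) = true ↔ (c t).1 = q := by
  classical
  simp only [asg, sv, if_true, decide_eq_true_eq]
  constructor
  · intro h
    exact (List.idxOf_inj (hc t).1).1 (by convert h)
  · intro h
    rw [h]

omit [DecidableEq K] [Fintype K] in
theorem io_inj {M : FM K A Q} {o o' : Option A} (ho : o ∈ M.Ol) (h : io M o = io M o') :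
    o = o' := by
  classical
  cases o with
  | none =>
    cases o' with
    | none => rfl
    | some b => simp [io] at h
  | some a =>
    cases o' with
    | none => simp [io] at h
    | some b =>
      have ha : a ∈ M.Al := by simpa [FM.Ol] using ho
      simp only [io, Nat.add_right_cancel_iff] at h
      rw [(List.idxOf_inj ha).1 (by convert h)]

theorem asg_cv {M : FM K A Q} {c : ℕ → Q × (K → List A)} (hc : ∀ t, M.Good (c t)) (t : ℕ)
    (k : K) (h : ℕ) (o : Option A) :
    asg M c (cv M t k h o) = true ↔ cell ((c t).2 k) h = o := by
  classical
  simp only [asg, cv, Nat.add_eq_zero_iff, one_ne_zero, and_false, if_false, decide_eq_true_eq,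
    Nat.add_right_cancel_iff]
  constructor
  · rintro ⟨k', h1, h2⟩
    have hm : k' ∈ (Finset.univ : Finset K).toList := by simp
    have h3 : k' = k := (List.idxOf_inj hm).1 (by convert h1)
    subst h3
    exact io_inj (cell_mem_Ol (hc t) k' h) h2
  · intro e
    exact ⟨k, rfl, by rw [e]⟩

theorem asg_stp {M : FM K A Q} {c : ℕ → Q × (K → List A)} (hc : ∀ t, M.Good (c t))
    (hs : ∀ t, c (t + 1) = M.step (c t)) (t h : ℕ) :
    ∀ C ∈ stpC M t h, ClSat (asg M c) C := by
  intro C hC
  obtain ⟨q, hq, hC⟩ := List.mem_flatMap.1 hC
  -- if the state is not `q` the first literal holds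
  by_cases hcq : (c t).1 = q
  swap
  · have hf : asg M c (sv M t q) = false := by
      rw [Bool.eq_false_iff, Ne, asg_sv hc]
      exact hcq
    rcases List.mem_append.1 hC with hC | hC
    · unfold ctlC at hC
      refine ⟨(false, sv M t q), ?_, hf⟩
      cases ha : M.act q with
      | push k a q' => rw [ha] at hC; rw [List.mem_singleton.1 hC]; simp
      | goto q' => rw [ha] at hC; rw [List.mem_singleton.1 hC]; simp
      | pop k f =>
        rw [ha] at hC
        rcases List.mem_cons.1 hC with rfl | hC
        · simp
        · obtain ⟨a, _, rfl⟩ := List.mem_map.1 hC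
          simp
    · refine ⟨(false, sv M t q), ?_, hf⟩
      obtain ⟨k, _, hC⟩ := List.mem_flatMap.1 hC
      obtain ⟨m, _, hC⟩ := List.mem_flatMap.1 hC
      obtain ⟨r, _, hC⟩ := List.mem_flatMap.1 hC
      rcases List.mem_cons.1 hC with rfl | hC
      · simp
      · obtain ⟨a, _, rfl⟩ := List.mem_map.1 hC
        simp
  -- now the state is `q`
  have fl : ∀ n : Nm, asg M c n ≠ true → asg M c n = false := fun n hn => by
    rwa [Bool.eq_false_iff]
  rcases List.mem_append.1 hC with hC | hC
  · have hst := hs t
    have hst' : (c (t + 1)).1 = (M.step (c t)).1 := by rw [hst]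
    unfold FM.step at hst'
    rw [hcq] at hst'
    unfold ctlC at hC
    cases ha : M.act q with
    | push k a q' =>
      rw [ha] at hC hst'
      rw [List.mem_singleton.1 hC]
      exact ⟨(true, sv M (t + 1) q'), by simp, (asg_sv hc _ _).2 hst'⟩
    | goto q' =>
      rw [ha] at hC hst'
      rw [List.mem_singleton.1 hC]
      exact ⟨(true, sv M (t + 1) q'), by simp, (asg_sv hc _ _).2 hst'⟩
    | pop k f =>
      rw [ha] at hC hst'
      simp only at hst'
      rcases List.mem_cons.1 hC with rfl | hC
      · by_cases h0 : cell ((c t).2 k) 0 = none
        · refine ⟨(true, sv M (t + 1) (f none)), by simp, (asg_sv hc _ _).2 ?_⟩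
          rw [hst']
          have : (c t).2 k = [] := by
            have := cell_eq_none.1 h0
            exact List.eq_nil_of_length_eq_zero (by omega)
          rw [this]
          rfl
        · exact ⟨(false, cv M t k 0 none), by simp, fl _ (by rwa [Ne, asg_cv hc])⟩
      · obtain ⟨a, _, rfl⟩ := List.mem_map.1 hC
        by_cases h0 : cell ((c t).2 k) h = some a
        · by_cases h1 : cell ((c t).2 k) (h + 1) = none
          · refine ⟨(true, sv M (t + 1) (f (some a))), by simp, (asg_sv hc _ _).2 ?_⟩
            rw [hst']
            have h2 : (c t).2 k ≠ [] := by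
              intro h2
              rw [h2] at h0
              simp [cell] at h0
            obtain ⟨b, L, hL⟩ := List.exists_cons_of_ne_nil h2
            rw [hL] at h0 h1 ⊢
            rw [cell_eq_none, List.length_cons] at h1
            have h3 : ¬ (b :: L).length ≤ h := by
              intro h4
              rw [cell_eq_none.2 h4] at h0
              simp at h0
            rw [List.length_cons] at h3
            have h5 : h = L.length := by omega
            rw [cell_cons, if_pos h5] at h0
            rw [Option.some.inj h0]
            rfl
          · exact ⟨(false, cv M t k (h + 1) none), by simp, fl _ (by rwa [Ne, asg_cv hc])⟩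
        · exact ⟨(false, cv M t k h (some a)), by simp, fl _ (by rwa [Ne, asg_cv hc])⟩
  · obtain ⟨k, _, hC⟩ := List.mem_flatMap.1 hC
    obtain ⟨m, _, hC⟩ := List.mem_flatMap.1 hC
    obtain ⟨r, _, hC⟩ := List.mem_flatMap.1 hC
    have hcs : ∀ h, cell ((c (t + 1)).2 k) h = upd (M.act q) k (below ((c t).2 k) h)
        (cell ((c t).2 k) h) (cell ((c t).2 k) (h + 1)) := by
      intro h
      rw [hs t, cell_step, hcq]
    rcases List.mem_cons.1 hC with rfl | hC
    · by_cases h0 : cell ((c t).2 k) 0 = m
      · by_cases h1 : cell ((c t).2 k) 1 = r
        · refine ⟨(true, cv M (t + 1) k 0 (upd (M.act q) k none m r)), by simp,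
            (asg_cv hc _ _ _ _).2 ?_⟩
          rw [hcs 0, h0, Nat.zero_add, h1]
          rfl
        · exact ⟨(false, cv M t k 1 r), by simp, fl _ (by rwa [Ne, asg_cv hc])⟩
      · exact ⟨(false, cv M t k 0 m), by simp, fl _ (by rwa [Ne, asg_cv hc])⟩
    · obtain ⟨l, _, rfl⟩ := List.mem_map.1 hC
      by_cases h2 : cell ((c t).2 k) h = l
      · by_cases h0 : cell ((c t).2 k) (h + 1) = m
        · by_cases h1 : cell ((c t).2 k) (h + 2) = r
          · refine ⟨(true, cv M (t + 1) k (h + 1) (upd (M.act q) k (some l) m r)), by simp,
              (asg_cv hc _ _ _ _).2 ?_⟩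
            rw [hcs (h + 1), h0, h1]
            simp only [below, h2]
          · exact ⟨(false, cv M t k (h + 2) r), by simp, fl _ (by rwa [Ne, asg_cv hc])⟩
        · exact ⟨(false, cv M t k (h + 1) m), by simp, fl _ (by rwa [Ne, asg_cv hc])⟩
      · exact ⟨(false, cv M t k h l), by simp, fl _ (by rwa [Ne, asg_cv hc])⟩

end PTime
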