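import Pool.Agent.Work.MP_2f1fa1_lc.PLib

/-!
# Equality tests, quoting, binary numbers
-/

namespace PTime

open Function (update)

variable {α β γ δ σ τ : Type} [Code α] [Code β] [Code γ] [Code δ] [Code σ] [Code τ]

/-! ### equality of codes -/

/-- body of the comparison loop: compares the tops of the stacks 2 and 0; flag in 3 -/
def cmpB : Prog :=
  .cas 2 .skip
    (.seq (.pop 2) (.cas 0 (.push 3 true) (.pop 0) (.seq (.pop 0) (.push 3 true))))
    (.seq (.pop 2) (.cas 0 (.push 3 true) (.seq (.pop 0) (.push 3 true)) (.pop 0)))

/-- `x` and `y` agree on the first `x.length` letters -/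
def agree : List Bool → List Bool → Bool
  | [], _ => true
  | _ :: _, [] => false
  | a :: x, b :: y => (a == b) && agree x y

theorem agree_iff (x y : List Bool) : agree x y = true ↔ x <+: y := by
  induction x generalizing y with
  | nil => simp [agree]
  | cons a x ih =>
    cases y with
    | nil => simp [agree]
    | cons b y => simp [agree, ih, List.cons_prefix_cons]

theorem run_cmpL (x : List Bool) : ∀ (y f : List Bool), ∃ y' f' : List Bool,
    Run (.loop 2 cmpB) (mk [y, [], x, f]) (mk [y', [], [], f']) (8 * x.length + 1) ∧
    y'.length ≤ y.length ∧ f'.length ≤ f.length + x.length ∧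
    (f' = [] ↔ f = [] ∧ agree x y = true) := by
  induction x with
  | nil =>
    intro y f
    exact ⟨y, f, run_loopE rfl, le_rfl, by simp, by simp [agree]⟩
  | cons a x ih =>
    intro y f
    have r1 : Run (.pop 2) (mk [y, [], a :: x, f]) (mk [y, [], x, f]) 1 := pop_mk (by simp) rfl
    -- the state after the body
    have key : ∃ y1 f1 : List Bool, Run cmpB (mk [y, [], a :: x, f]) (mk [y1, [], x, f1]) 7 ∧
        y1.length ≤ y.length ∧ f1.length ≤ f.length + 1 ∧
        ((f1 = [] ∧ agree x y1 = true) ↔ f = [] ∧ agree (a :: x) y = true) := by
      have rp : ∀ b z, Run (.pop 0) (mk [b :: z, [], x, f]) (mk [z, [], x, f]) 1 :=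
        fun b z => pop_mk (by simp) rfl
      have rf : ∀ z, Run (.push 3 true) (mk [z, [], x, f]) (mk [z, [], x, true :: f]) 1 :=
        fun z => push_mk (by simp) rfl
      cases y with
      | nil =>
        refine ⟨[], true :: f, ?_, by simp, by simp, by simp [agree]⟩
        cases a with
        | false =>
          exact (run_cas0 (l := x) rfl (r1.seq (run_casE rfl (rf [])))).mono (by omega)
        | true =>
          exact (run_cas1 (l := x) rfl (r1.seq (run_casE rfl (rf [])))).mono (by omega)
      | cons b z =>
        cases a with
        | false =>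
          cases b with
          | false =>
            refine ⟨z, f, ?_, by simp, by simp, by simp [agree]⟩
            exact (run_cas0 (l := x) rfl (r1.seq (run_cas0 (l := z) rfl (rp _ _)))).mono
              (by omega)
          | true =>
            refine ⟨z, true :: f, ?_, by simp, by simp, by simp [agree]⟩
            exact (run_cas0 (l := x) rfl (r1.seq (run_cas1 (l := z) rfl
              ((rp _ _).seq (rf z))))).mono (by omega)
        | true =>
          cases b with
          | false =>
            refine ⟨z, true :: f, ?_, by simp, by simp, by simp [agree]⟩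
            exact (run_cas1 (l := x) rfl (r1.seq (run_cas0 (l := z) rfl
              ((rp _ _).seq (rf z))))).mono (by omega)
          | true =>
            refine ⟨z, f, ?_, by simp, by simp, by simp [agree]⟩
            exact (run_cas1 (l := x) rfl (r1.seq (run_cas1 (l := z) rfl (rp _ _)))).mono
              (by omega)
    obtain ⟨y1, f1, h1, h2, h3, h4⟩ := key
    obtain ⟨y', f', g1, g2, g3, g4⟩ := ih y1 f1
    refine ⟨y', f', (run_loopS (by simp [mk]) h1 g1).mono (by simp; omega), g2.trans h2, ?_, ?_⟩
    · simp only [List.length_cons]; omega
    · rw [g4, h4]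

theorem enc_prefix_iff (a b : α) : enc a <+: enc b ↔ a = b := by
  constructor
  · rintro ⟨t, ht⟩
    have := T.bits_append_inj (Code.toT a) (Code.toT b) t [] (by simpa [enc] using ht)
    exact Code.inj this.1
  · rintro rfl
    exact List.prefix_refl _

/-- equality of coded objects -/
theorem PT.eq' [DecidableEq β] : PT (fun x : β × β => decide (x.1 = x.2)) := by
  refine ⟨.seq (.pop 0) (.seq (parse 0 1 2) (.seq (mv 1 2) (.seq (.loop 2 cmpB)
    (.seq (clr 0) (.cas 3 (pushAll 0 (enc true)) (.seq (clr 3) (pushAll 0 (enc false)))
      (.seq (clr 3) (pushAll 0 (enc false)))))))),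
    40 * Polynomial.X + 40, fun x => ?_⟩
  obtain ⟨a, b⟩ := x
  have hs := sz_pair a b
  have ha : (enc a).length = sz a := rfl
  have hb : (enc b).length = sz b := rfl
  have r1 : Run (.pop 0) (mk [enc (a, b), [], [], []]) (mk [enc a ++ enc b, [], [], []]) 1 :=
    pop_mk (by simp) rfl
  have r2 : Run (parse 0 1 2) (mk [enc a ++ enc b, [], [], []])
      (mk [enc b, (enc a).reverse, [], []]) (7 * sz a + 3) :=
    parse_mk (a := Code.toT a) (r := enc b) (by decide) (by decide) (by decide) (by simp)
      (by simp) (by simp) rfl rfl (by simp [mk, enc]) le_rfl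
  have r3 : Run (mv 1 2) (mk [enc b, (enc a).reverse, [], []]) (mk [enc b, [], enc a, []])
      (5 * sz a + 1) :=
    mv_mk (x := (enc a).reverse) (by decide) (by simp) (by simp) rfl (by simp [mk])
      (by simp [ha])
  obtain ⟨y', f', r4, h2, h3, h4⟩ := run_cmpL (enc a) (enc b) []
  have r5 : Run (clr 0) (mk [y', [], [], f']) (mk [[], [], [], f']) (2 * sz b + 1) :=
    clr_mk (x := y') (by simp) rfl (by simp) (by omega)
  have h5 : f' = [] ↔ a = b := by
    rw [h4, agree_iff, enc_prefix_iff]
    simp
  have r8 : Run (.seq (clr 3) (pushAll 0 (enc false))) (mk [[], [], [], f'])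
      (mk [enc false, [], [], []]) (2 * f'.length + 1 + (2 * (enc false).length + 1) + 1) := by
    have r6 : Run (clr 3) (mk [[], [], [], f']) (mk [[], [], [], []]) (2 * f'.length + 1) :=
      clr_mk (x := f') (by simp) rfl (by simp) le_rfl
    have r7 := run_pushAll 0 (enc false) (mk [[], [], [], []])
    rw [update_mk _ (by simp)] at r7
    exact r6.seq r7
  have e1 : (enc true).length = 3 := rfl
  have e2 : (enc false).length = 1 := rfl
  by_cases hab : a = b
  · have hf : f' = [] := h5.2 hab
    subst hf
    have r6 := run_pushAll 0 (enc true) (mk [[], [], [], []])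
    rw [update_mk _ (by simp)] at r6
    have r7 := run_casE (i := 3) (p0 := .seq (clr 3) (pushAll 0 (enc false)))
      (p1 := .seq (clr 3) (pushAll 0 (enc false))) (s := mk [[], [], [], []]) rfl r6
    refine (r1.seq (r2.seq (r3.seq (r4.seq (r5.seq r7))))).cast (mk_nils [enc (a, b)] 3) ?_ ?_
    · show mk [enc true ++ [], [], [], []] = mk [enc (decide (a = b))]
      rw [decide_eq_true hab, List.append_nil]
      exact mk_nils [enc true] 3
    · simp only [Polynomial.eval_add, Polynomial.eval_mul, Polynomial.eval_X,
        Polynomial.eval_ofNat, hs]
      omega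
  · have hf : f' ≠ [] := fun h => hab (h5.1 h)
    have r9 : Run (.cas 3 (pushAll 0 (enc true)) (.seq (clr 3) (pushAll 0 (enc false)))
        (.seq (clr 3) (pushAll 0 (enc false)))) (mk [[], [], [], f'])
        (mk [enc false, [], [], []]) (2 * f'.length + 1 + (2 * (enc false).length + 1) + 1 + 1) := by
      cases f' with
      | nil => exact absurd rfl hf
      | cons c f2 =>
        cases c with
        | false => exact run_cas0 (l := f2) rfl r8
        | true => exact run_cas1 (l := f2) rfl r8
    refine (r1.seq (r2.seq (r3.seq (r4.seq (r5.seq r9))))).cast (mk_nils [enc (a, b)] 3) ?_ ?_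
    · show mk [enc false, [], [], []] = mk [enc (decide (a = b))]
      rw [decide_eq_false hab]
      exact mk_nils [enc false] 3
    · simp only [Polynomial.eval_add, Polynomial.eval_mul, Polynomial.eval_X,
        Polynomial.eval_ofNat, hs]
      simp only [List.length_nil] at h3
      omega

theorem PT.eq [DecidableEq β] {f g : α → β} (hf : PT f) (hg : PT g) :
    PT (fun a => decide (f a = g a)) := PT.eq'.comp2 hf hg

/-! ### quoting: the bits of the code as data -/

/-- body of the quoting loop -/
def quoteB : Prog :=
  .cas 1 .skip (.seq (.pop 1) (pushAll 0 (true :: enc false)))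
    (.seq (.pop 1) (pushAll 0 (true :: enc true)))

theorem run_quoteL (x : List Bool) : ∀ l : List Bool,
    Run (.loop 1 quoteB) (mk [enc l, x]) (mk [enc (x.reverse ++ l), []]) (13 * x.length + 1) := by
  induction x with
  | nil => intro l; exact (run_loopE rfl).cast rfl rfl (by omega)
  | cons b x ih =>
    intro l
    have r1 : Run (.pop 1) (mk [enc l, b :: x]) (mk [enc l, x]) 1 := pop_mk (by simp) rfl
    have r2 : Run (pushAll 0 (true :: enc b)) (mk [enc l, x]) (mk [enc (b :: l), x]) 9 := by
      have := run_pushAll 0 (true :: enc b) (mk [enc l, x])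
      rw [update_mk _ (by simp)] at this
      refine this.cast rfl rfl ?_
      have := sz_bool b
      unfold sz at this
      simp only [List.length_cons]
      omega
    have r3 : Run quoteB (mk [enc l, b :: x]) (mk [enc (b :: l), x]) 12 := by
      cases b with
      | false => exact (run_cas0 (l := x) rfl (r1.seq r2)).mono (by omega)
      | true => exact (run_cas1 (l := x) rfl (r1.seq r2)).mono (by omega)
    refine (run_loopS (by simp [mk]) r3 (ih (b :: l))).cast rfl (by simp) ?_
    simp only [List.length_cons]
    omega

/-- the code of `a`, as a list of bits -/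
theorem PT.quote {f : α → β} (hf : PT f) : PT (fun a => enc (f a)) := by
  have h : PT (fun b : β => enc b) := by
    refine ⟨.seq (mv 0 1) (.seq (.push 0 false) (.loop 1 quoteB)), 40 * Polynomial.X + 40,
      fun b => ?_⟩
    have hb : (enc b).length = sz b := rfl
    have r1 : Run (mv 0 1) (mk [enc b, []]) (mk [[], (enc b).reverse]) (5 * sz b + 1) :=
      mv_mk (x := enc b) (by decide) (by simp) (by simp) rfl (by simp [mk]) le_rfl
    have r2 : Run (.push 0 false) (mk [[], (enc b).reverse]) (mk [enc ([] : List Bool),
        (enc b).reverse]) 1 := push_mk (by simp) rfl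
    have r3 := run_quoteL (enc b).reverse []
    rw [List.reverse_reverse, List.append_nil] at r3
    refine (r1.seq (r2.seq r3)).cast (mk_nils [enc b] 1) (mk_nils [enc (enc b)] 1) ?_
    simp only [Polynomial.eval_add, Polynomial.eval_mul, Polynomial.eval_X,
      Polynomial.eval_ofNat, List.length_reverse]
    omega
  exact h.comp hf

/-! ### binary numbers -/

/-- binary successor on little endian bit lists -/
def binc : List Bool → List Bool
  | [] => [true]
  | false :: l => true :: l
  | true :: l => false :: binc l

theorem bits_succ (n : ℕ) : (n + 1).bits = binc n.bits := by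
  induction n using Nat.binaryRec with
  | zero => simp [binc]
  | bit b n ih =>
    cases b with
    | false =>
      by_cases hn : n = 0
      · subst hn; simp [binc]
      · have h1 : Nat.bits (Nat.bit false n) = false :: n.bits :=
          Nat.bits_append_bit n false (fun h => absurd h hn)
        have h2 : Nat.bit false n + 1 = Nat.bit true n := by simp [Nat.bit]
        rw [h1, h2, Nat.bits_append_bit n true (fun h => absurd h hn)]
        rfl
    | true =>
      have h1 : Nat.bits (Nat.bit true n) = true :: n.bits :=
        Nat.bits_append_bit n true (fun _ => rfl)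
      have h2 : Nat.bit true n + 1 = Nat.bit false (n + 1) := by simp [Nat.bit]; ring
      rw [h1, h2, Nat.bits_append_bit (n + 1) false (fun h => by omega), ih]
      rfl

/-- the steps of the binary successor -/
def bincStep (s : Bool × List Bool) (b : Bool) : Bool × List Bool :=
  (s.1 && b, xor s.1 b :: s.2)

theorem binc_fold (l : List Bool) : ∀ acc : List Bool,
    l.foldl bincStep (false, acc) = (false, l.reverse ++ acc) ∧
    ((l.foldl bincStep (true, acc)).2.reverse ++
      bif (l.foldl bincStep (true, acc)).1 then [true] else []) = acc.reverse ++ binc l := by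
  induction l with
  | nil => intro acc; simp [binc]
  | cons b l ih =>
    intro acc
    constructor
    · rw [List.foldl_cons]
      show l.foldl bincStep (false, xor false b :: acc) = _
      rw [(ih _).1]
      simp
    · rw [List.foldl_cons]
      cases b with
      | false =>
        show ((l.foldl bincStep (false, true :: acc)).2.reverse ++
          bif (l.foldl bincStep (false, true :: acc)).1 then [true] else []) = _
        rw [(ih _).1]
        simp [binc]
      | true =>
        show ((l.foldl bincStep (true, false :: acc)).2.reverse ++
          bif (l.foldl bincStep (true, false :: acc)).1 then [true] else []) = _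
        rw [(ih _).2]
        simp [binc]

theorem bincStep_sz (l : List Bool) : ∀ s : Bool × List Bool,
    sz (l.foldl bincStep s) ≤ sz s + 2 + 4 * l.length := by
  induction l with
  | nil => intro s; simp
  | cons b l ih =>
    intro s
    rw [List.foldl_cons]
    refine (ih _).trans ?_
    obtain ⟨c, m⟩ := s
    show sz (c && b, xor c b :: m) + 2 + 4 * l.length ≤ _
    rw [sz_pair, sz_pair, sz_cons, List.length_cons]
    cases c <;> cases b <;> simp [show sz true = 3 from rfl, show sz false = 1 from rfl] <;> omega

theorem PT.xor {f g : α → Bool} (hf : PT f) (hg : PT g) : PT (fun a => xor (f a) (g a)) := by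
  have h := PT.cond hf hg.not hg
  exact h.congr fun a => by cases f a <;> cases g a <;> rfl

theorem PT.binc {l : α → List Bool} (hl : PT l) : PT (fun a => binc (l a)) := by
  have h : PT (fun l : List Bool => PTime.binc l) := by
    have h1 : PT (fun l : List Bool => l.foldl bincStep (true, [])) := by
      refine PT.foldl (α := List Bool) (σ := Bool × List Bool) (β := Bool)
        (g := fun x => (x.2.1.1 && x.2.2, Bool.xor x.2.1.1 x.2.2 :: x.2.1.2)) PT.id
        (PT.const (true, [])) ?_ (4 * Polynomial.X + 10) ?_
      · have a1 : PT (fun x : List Bool × (Bool × List Bool) × Bool => x.2.1.1) :=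
          PT.fst.comp (PT.fst.comp PT.snd)
        have a2 : PT (fun x : List Bool × (Bool × List Bool) × Bool => x.2.1.2) :=
          PT.snd.comp (PT.fst.comp PT.snd)
        have a3 : PT (fun x : List Bool × (Bool × List Bool) × Bool => x.2.2) :=
          PT.snd.comp PT.snd
        exact (a1.and a3).pair ((a1.xor a3).cons a2)
      · intro a l' hl'
        refine (bincStep_sz l' (true, [])).trans ?_
        have h1 := hl'.length_le.trans (length_le_sz a)
        have h2 : sz ((true, []) : Bool × List Bool) = 5 := rfl
        simp only [Polynomial.eval_add, Polynomial.eval_mul, Polynomial.eval_X,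
          Polynomial.eval_ofNat]
        omega
    have h2 := (h1.snd'.reverse).append (PT.cond h1.fst' (PT.const [true]) (PT.const []))
    refine h2.congr fun l => ?_
    have := (binc_fold l []).2
    simpa using this
  exact h.comp hl

theorem bits_length_le (n : ℕ) : n.bits.length ≤ n := by
  induction n using Nat.binaryRec with
  | zero => simp
  | bit b n ih =>
    by_cases hn : n = 0 ∧ b = false
    · obtain ⟨rfl, rfl⟩ := hn; simp
    · have h1 : Nat.bits (Nat.bit b n) = b :: n.bits :=
        Nat.bits_append_bit n b (fun h => by
          cases b with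
          | true => rfl
          | false => exact absurd ⟨h, rfl⟩ hn)
      rw [h1, List.length_cons]
      have h2 : n + 1 ≤ Nat.bit b n := by
        cases b with
        | true => simp [Nat.bit]; omega
        | false =>
          have : n ≠ 0 := fun h => hn ⟨h, rfl⟩
          simp [Nat.bit]; omega
      omega

/-- from unary to binary -/
theorem PT.bits {n : α → ℕ} (hn : PT n) : PT (fun a => (n a).bits) := by
  obtain ⟨q, hq⟩ := hn.size
  have e0 : ∀ k : ℕ, (fun s : List Bool => PTime.binc s)^[k] [] = k.bits := by
    intro k
    induction k with
    | zero => rfl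
    | succ k ih => rw [Function.iterate_succ_apply', ih, bits_succ]
  have h := PT.iterate (g := fun x : α × List Bool => PTime.binc x.2) hn
    (PT.const (α := α) ([] : List Bool)) (PT.snd.binc) (4 * q + 1) (by
      intro a k hk
      show sz ((fun s : List Bool => PTime.binc s)^[k] []) ≤ _
      rw [e0]
      have h1 := hq a
      rw [sz_nat] at h1
      have h2 := sz_list_le (l := k.bits) (B := 3) fun b _ => sz_bool b
      have h3 := bits_length_le k
      simp only [Polynomial.eval_add, Polynomial.eval_mul, Polynomial.eval_ofNat,
        Polynomial.eval_one]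
      omega)
  exact h.congr fun a => e0 _

end PTime
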