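import Pool.Agent.Work.MP_2f1fa1_lc.CLTab
import Pool.Agent.Work.MP_2f1fa1_lc.PEq

/-!
# Cook-Levin, part 3: the tableau formula is computed in polynomial time
-/

namespace PTime

variable {α β γ : Type} [Code α] [Code β] [Code γ]

theorem PT.flatMapC {ι : Type} (L : List ι) {f : ι → α → List β} (h : ∀ i, PT (f i)) :
    PT (fun a => L.flatMap fun i => f i a) := by
  induction L with
  | nil => exact PT.const []
  | cons i L ih => exact (h i).append ih

theorem PT.mapC {ι : Type} (L : List ι) {f : ι → α → β} (h : ∀ i, PT (f i)) :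
    PT (fun a => L.map fun i => f i a) := by
  induction L with
  | nil => exact PT.const []
  | cons i L ih => exact (h i).cons ih

theorem PT.polyEval (q : Polynomial ℕ) {n : α → ℕ} (hn : PT n) : PT (fun a => q.eval (n a)) := by
  induction q using Polynomial.induction_on' with
  | add p q hp hq => exact (hp.add hq).congr fun a => by rw [Polynomial.eval_add]
  | monomial i c =>
    have h : ∀ i : ℕ, PT (fun a => c * n a ^ i) := by
      intro i
      induction i with
      | zero => exact (PT.const (α := α) c).congr fun a => by simp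
      | succ i ih => exact (ih.mul hn).congr fun a => by ring
    exact (h i).congr fun a => by rw [Polynomial.eval_monomial]

variable {K A Q : Type} [DecidableEq K] [Fintype K]

omit [DecidableEq K] [Fintype K] in
theorem pt_sv (M : FM K A Q) {t : α → ℕ} (ht : PT t) (q : Q) : PT (fun a => sv M (t a) q) :=
  (PT.const 0).pair (ht.pair ((PT.const _).pair (PT.const 0)))

theorem pt_cv (M : FM K A Q) {t h : α → ℕ} (ht : PT t) (hh : PT h) (k : K) (o : Option A) :
    PT (fun a => cv M (t a) k (h a) o) :=
  (PT.const _).pair (ht.pair (hh.pair (PT.const _)))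

/-- a literal -/
theorem PT.lit (b : Bool) {n : α → Nm} (hn : PT n) : PT (fun a => (b, n a)) :=
  (PT.const b).pair hn

theorem PT.single {f : α → β} (hf : PT f) : PT (fun a => [f a]) := hf.cons (PT.const [])

theorem pt_ctlC (M : FM K A Q) (q : Q) {t h : α → ℕ} (ht : PT t) (hh : PT h) :
    PT (fun a => ctlC M q (t a) (h a)) := by
  unfold ctlC
  cases M.act q with
  | push k b q' =>
    exact PT.single (((pt_sv M ht q).lit false).cons
      (PT.single ((pt_sv M ht.succ q').lit true)))
  | goto q' =>
    exact PT.single (((pt_sv M ht q).lit false).cons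
      (PT.single ((pt_sv M ht.succ q').lit true)))
  | pop k f =>
    refine PT.cons ?_ (PT.mapC _ fun b => ?_)
    · exact ((pt_sv M ht q).lit false).cons (((pt_cv M ht (PT.const 0) k none).lit false).cons
        (PT.single ((pt_sv M ht.succ (f none)).lit true)))
    · exact ((pt_sv M ht q).lit false).cons (((pt_cv M ht hh k (some b)).lit false).cons
        (((pt_cv M ht hh.succ k none).lit false).cons
        (PT.single ((pt_sv M ht.succ (f (some b))).lit true))))

theorem pt_celC (M : FM K A Q) (q : Q) {t h : α → ℕ} (ht : PT t) (hh : PT h) :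
    PT (fun a => celC M q (t a) (h a)) := by
  unfold celC
  refine PT.flatMapC _ fun k => PT.flatMapC _ fun m => PT.flatMapC _ fun r => ?_
  refine PT.cons ?_ (PT.mapC _ fun l => ?_)
  · exact ((pt_sv M ht q).lit false).cons (((pt_cv M ht (PT.const 0) k m).lit false).cons
      (((pt_cv M ht (PT.const 1) k r).lit false).cons
        (PT.single ((pt_cv M ht.succ (PT.const 0) k _).lit true))))
  · exact ((pt_sv M ht q).lit false).cons (((pt_cv M ht hh k l).lit false).cons
      (((pt_cv M ht hh.succ k m).lit false).cons
        (((pt_cv M ht hh.succ.succ k r).lit false).cons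
          (PT.single ((pt_cv M ht.succ hh.succ k _).lit true)))))

theorem pt_stpC (M : FM K A Q) {t h : α → ℕ} (ht : PT t) (hh : PT h) :
    PT (fun a => stpC M (t a) (h a)) :=
  PT.flatMapC _ fun q => (pt_ctlC M q ht hh).append (pt_celC M q ht hh)

theorem pt_topC (M : FM K A Q) {t h : α → ℕ} (ht : PT t) (hh : PT h) :
    PT (fun a => topC M (h a) (t a)) :=
  PT.mapC _ fun k => PT.single ((pt_cv M ht hh k none).lit true)

theorem pt_finC (M : VM K A Q) {t : α → ℕ} (ht : PT t) : PT (fun a => M.finC (t a)) := by
  classical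
  unfold VM.finC
  refine PT.append (PT.flatMapC _ fun q => ?_) (PT.flatMapC _ fun o => ?_)
  · by_cases h : q = M.qh
    · simp only [h, if_true]
      exact PT.const []
    · simp only [h, if_false]
      exact PT.single (PT.single ((pt_sv M.toFM ht q).lit false))
  · by_cases h : o = some M.outA
    · simp only [h, if_true]
      exact PT.const []
    · simp only [h, if_false]
      exact PT.single (PT.single ((pt_cv M.toFM ht (PT.const 0) M.k1 o).lit false))

/-- `some (inA (some b))` as a name -/
theorem pt_cvb (M : VM K A Q) {h : α → ℕ} {b : α → Bool} (hh : PT h) (hb : PT b) :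
    PT (fun a => cv M.toFM 0 M.k0 (h a) (some (M.inA (some (b a))))) := by
  have h1 := PT.cond hb (pt_cv M.toFM (PT.const 0) hh M.k0 (some (M.inA (some true))))
    (pt_cv M.toFM (PT.const 0) hh M.k0 (some (M.inA (some false))))
  exact h1.congr fun a => by cases b a <;> rfl

theorem pt_initC (M : VM K A Q) {x : α → List Bool} {p H : α → ℕ} (hx : PT x) (hp : PT p)
    (hH : PT H) : PT (fun a => M.initC (x a) (p a) (H a)) := by
  classical
  unfold VM.initC
  have e0 : PT (fun _ : α => [(true, sv M.toFM 0 M.q0)]) := PT.const _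
  have e1 : PT (fun a => (Finset.univ : Finset K).toList.flatMap fun k =>
      if k = M.k0 then [] else
        (List.range (H a + 1)).map fun h => [(true, cv M.toFM 0 k h none)]) := by
    refine PT.flatMapC _ fun k => ?_
    by_cases h : k = M.k0
    · simp only [h, if_true]
      exact PT.const []
    · simp only [h, if_false]
      exact PT.map (g := fun y : α × ℕ => [(true, cv M.toFM 0 k y.2 none)]) hH.succ.range
        (PT.single ((pt_cv M.toFM (PT.const 0) PT.snd k none).lit true))
  have e2 : PT (fun a => (List.range (x a).length).map fun h =>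
      [(true, cv M.toFM 0 M.k0 h (some (M.inA (some ((x a).reverse.getD h false)))))]) :=
    PT.map (g := fun y : α × ℕ => [(true, cv M.toFM 0 M.k0 y.2
        (some (M.inA (some ((x y.1).reverse.getD y.2 false)))))]) hx.length.range
      (PT.single ((pt_cvb M PT.snd
        ((hx.comp PT.fst).reverse.getD PT.snd (PT.const false))).lit true))
  have e3 : PT (fun a => [[(true, cv M.toFM 0 M.k0 (x a).length (some (M.inA none)))]]) :=
    PT.single (PT.single ((pt_cv M.toFM (PT.const 0) hx.length M.k0 _).lit true))
  have l1 : PT (fun y : α × ℕ => (x y.1).length + 1 + y.2) :=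
    (hx.comp PT.fst).length.succ.add PT.snd
  have l2 : PT (fun y : α × ℕ => (x y.1).length + 2 + y.2) :=
    (hx.comp PT.fst).length.succ.succ.add PT.snd
  have e4 : PT (fun a => (List.range (p a)).map fun j =>
      [(true, cv M.toFM 0 M.k0 ((x a).length + 1 + j) (some (M.inA (some true)))),
      (true, cv M.toFM 0 M.k0 ((x a).length + 1 + j) (some (M.inA (some false)))),
      (true, cv M.toFM 0 M.k0 ((x a).length + 1 + j) none)]) :=
    PT.map (g := fun y : α × ℕ =>
      [(true, cv M.toFM 0 M.k0 ((x y.1).length + 1 + y.2) (some (M.inA (some true)))),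
      (true, cv M.toFM 0 M.k0 ((x y.1).length + 1 + y.2) (some (M.inA (some false)))),
      (true, cv M.toFM 0 M.k0 ((x y.1).length + 1 + y.2) none)]) hp.range
      (((pt_cv M.toFM (PT.const 0) l1 M.k0 _).lit true).cons
        (((pt_cv M.toFM (PT.const 0) l1 M.k0 _).lit true).cons
          (PT.single ((pt_cv M.toFM (PT.const 0) l1 M.k0 _).lit true))))
  have e5 : PT (fun a => (List.range (H a)).map fun h =>
      [(false, cv M.toFM 0 M.k0 ((x a).length + 1 + h) none),
      (true, cv M.toFM 0 M.k0 ((x a).length + 2 + h) none)]) :=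
    PT.map (g := fun y : α × ℕ =>
      [(false, cv M.toFM 0 M.k0 ((x y.1).length + 1 + y.2) none),
      (true, cv M.toFM 0 M.k0 ((x y.1).length + 2 + y.2) none)]) hH.range
      (((pt_cv M.toFM (PT.const 0) l1 M.k0 _).lit false).cons
        (PT.single ((pt_cv M.toFM (PT.const 0) l2 M.k0 _).lit true)))
  have e6 : PT (fun a => [[(true, cv M.toFM 0 M.k0 ((x a).length + 1 + p a) none)]]) :=
    PT.single (PT.single ((pt_cv M.toFM (PT.const 0) (hx.length.succ.add hp) M.k0 _).lit true))
  exact (((((e0.cons e1).append e2).append e3).append e4).append e5).append e6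

theorem pt_tab (M : VM K A Q) {x : α → List Bool} {p T H : α → ℕ} (hx : PT x) (hp : PT p)
    (hT : PT T) (hH : PT H) : PT (fun a => M.tab (x a) (p a) (T a) (H a)) := by
  unfold VM.tab
  have e1 : PT (fun a => (List.range (T a + 1)).flatMap fun t => topC M.toFM (H a) t) :=
    PT.flatMap (g := fun y : α × ℕ => topC M.toFM (H y.1) y.2) hT.succ.range
      (pt_topC M.toFM PT.snd (hH.comp PT.fst))
  have e2 : PT (fun a => (List.range (T a)).flatMap fun t =>
      (List.range (H a)).flatMap fun h => stpC M.toFM t h) :=
    PT.flatMap (g := fun y : α × ℕ => (List.range (H y.1)).flatMap fun h =>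
        stpC M.toFM y.2 h) hT.range
      (PT.flatMap (g := fun y : (α × ℕ) × ℕ => stpC M.toFM y.1.2 y.2)
        (hH.comp PT.fst).range (pt_stpC M.toFM (PT.snd.comp PT.fst) PT.snd))
  exact (((pt_initC M hx hp hH).append e1).append e2).append (pt_finC M hT)

/-! ### formulas with bit strings as variable names -/

/-- CNF formulas; the names of the variables are bit strings, `(b, n)` is the literal which is
true if `n` has the value `b` -/
abbrev CNF : Type := List (List (Bool × List Bool))

/-- satisfiability -/
def Sat (φ : CNF) : Prop := ∃ v : List Bool → Bool, ∀ C ∈ φ, ∃ l ∈ C, v l.2 = l.1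

/-- renaming -/
def ren (φ : List (Cl Nm)) : CNF := φ.map fun C => C.map fun l => (l.1, enc l.2)

theorem pt_ren : PT ren := by
  have h1 : PT (fun y : (List (Cl Nm) × Cl Nm) × (Bool × Nm) => (y.2.1, enc y.2.2)) :=
    (PT.fst.comp PT.snd).pair (PT.quote (PT.snd.comp PT.snd))
  have h2 : PT (fun y : List (Cl Nm) × Cl Nm => y.2.map fun l => (l.1, enc l.2)) :=
    PT.map PT.snd h1
  exact PT.map (PT.id (α := List (Cl Nm))) h2

theorem enc_inj {a b : α} (h : enc a = enc b) : a = b := Code.inj (T.bits_injective h)

theorem sat_ren (φ : List (Cl Nm)) :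
    Sat (ren φ) ↔ ∃ v : Nm → Bool, ∀ C ∈ φ, ClSat v C := by
  classical
  constructor
  · rintro ⟨v, hv⟩
    refine ⟨fun n => v (enc n), fun C hC => ?_⟩
    obtain ⟨l, hl, e⟩ := hv _ (List.mem_map.2 ⟨C, hC, rfl⟩)
    obtain ⟨l', hl', rfl⟩ := List.mem_map.1 hl
    exact ⟨l', hl', e⟩
  · rintro ⟨v, hv⟩
    refine ⟨fun s => decide (∃ n : Nm, enc n = s ∧ v n = true), fun C hC => ?_⟩
    obtain ⟨C', hC', rfl⟩ := List.mem_map.1 hC
    obtain ⟨l, hl, e⟩ := hv C' hC'
    refine ⟨(l.1, enc l.2), List.mem_map.2 ⟨l, hl, rfl⟩, ?_⟩
    simp only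
    cases hb : l.1 with
    | true =>
      rw [hb] at e
      exact decide_eq_true ⟨l.2, rfl, e⟩
    | false =>
      rw [hb] at e
      refine decide_eq_false ?_
      rintro ⟨n, hn, hv'⟩
      rw [enc_inj hn, e] at hv'
      exact Bool.false_ne_true hv'

end PTime
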