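import Pool.Agent.Work.MP_2f1fa1_lc.CLPT

/-!
# Cook-Levin, part 4: Mathlib's machines as machines with a finite control
-/

open Turing StateTransition

namespace PTime

open Function (update)

section sim

variable {K : Type} [DecidableEq K] {Γ : K → Type} {Λ σ : Type}

/-- control states -/
inductive Ctl (K : Type) (Γ : K → Type) (Λ σ : Type) where
  | run (s : TM2.Stmt Γ Λ σ) (v : σ)
  | ret (k : K) (a : Γ k) (s : TM2.Stmt Γ Λ σ) (v : σ)
  | halt

/-- read a symbol of the stack `k` -/
def dec (k : K) (a : Σ k, Γ k) : Option (Γ k) := if h : a.1 = k then some (h ▸ a.2) else none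

theorem dec_mk (k : K) (b : Γ k) : dec k ⟨k, b⟩ = some b := by simp [dec]

theorem dec_some {k : K} {a : Σ k, Γ k} {b : Γ k} (h : dec k a = some b) : a = ⟨k, b⟩ := by
  obtain ⟨k', c⟩ := a
  unfold dec at h
  split_ifs at h with h1
  simp only at h1
  subst h1
  simpa using h

/-- the action of a control state -/
def cact (m : Λ → TM2.Stmt Γ Λ σ) : Ctl K Γ Λ σ → Act K (Σ k, Γ k) (Ctl K Γ Λ σ)
  | .run (.push k f s) v => .push k ⟨k, f v⟩ (.run s v)
  | .run (.peek k f s) v => .pop k fun o => match o.bind (dec k) with
      | none => .run s (f v none)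
      | some a => .ret k a s (f v (some a))
  | .run (.pop k f s) v => .pop k fun o => .run s (f v (o.bind (dec k)))
  | .run (.load f s) v => .goto (.run s (f v))
  | .run (.branch p s1 s2) v => .goto (bif p v then .run s1 v else .run s2 v)
  | .run (.goto l) v => .goto (.run (m (l v)) v)
  | .run .halt _ => .goto .halt
  | .ret k a s v => .push k ⟨k, a⟩ (.run s v)
  | .halt => .goto .halt

/-- all substatements -/
def subs : TM2.Stmt Γ Λ σ → List (TM2.Stmt Γ Λ σ)
  | .push k f s => .push k f s :: subs s
  | .peek k f s => .peek k f s :: subs s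
  | .pop k f s => .pop k f s :: subs s
  | .load f s => .load f s :: subs s
  | .branch p s1 s2 => .branch p s1 s2 :: (subs s1 ++ subs s2)
  | .goto l => [.goto l]
  | .halt => [.halt]

omit [DecidableEq K] in
theorem self_mem_subs (s : TM2.Stmt Γ Λ σ) : s ∈ subs s := by cases s <;> simp [subs]

omit [DecidableEq K] in
theorem subs_trans {s s' : TM2.Stmt Γ Λ σ} (h : s' ∈ subs s) : subs s' ⊆ subs s := by
  induction s with
  | push k f s ih =>
    simp only [subs, List.mem_cons] at h
    rcases h with rfl | h
    · exact List.Subset.refl _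
    · exact List.Subset.trans (ih h) (List.subset_cons_self _ _)
  | peek k f s ih =>
    simp only [subs, List.mem_cons] at h
    rcases h with rfl | h
    · exact List.Subset.refl _
    · exact List.Subset.trans (ih h) (List.subset_cons_self _ _)
  | pop k f s ih =>
    simp only [subs, List.mem_cons] at h
    rcases h with rfl | h
    · exact List.Subset.refl _
    · exact List.Subset.trans (ih h) (List.subset_cons_self _ _)
  | load f s ih =>
    simp only [subs, List.mem_cons] at h
    rcases h with rfl | h
    · exact List.Subset.refl _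
    · exact List.Subset.trans (ih h) (List.subset_cons_self _ _)
  | branch p s1 s2 ih1 ih2 =>
    simp only [subs, List.mem_cons, List.mem_append] at h
    rcases h with rfl | h | h
    · exact List.Subset.refl _
    · exact List.Subset.trans (ih1 h) (List.subset_cons_of_subset _ (List.subset_append_left _ _))
    · exact List.Subset.trans (ih2 h) (List.subset_cons_of_subset _ (List.subset_append_right _ _))
  | goto l =>
    simp only [subs, List.mem_singleton] at h
    subst h
    exact List.Subset.refl _
  | halt =>
    simp only [subs, List.mem_singleton] at h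
    subst h
    exact List.Subset.refl _

/-- the machine -/
noncomputable def toFM (m : Λ → TM2.Stmt Γ Λ σ) (k0 : K) [Fintype Λ] [Fintype σ]
    [Fintype (Γ k0)] : FM K (Σ k, Γ k) (Ctl K Γ Λ σ) :=
  let S : List (TM2.Stmt Γ Λ σ) := (Finset.univ : Finset Λ).toList.flatMap fun l => subs (m l)
  let V : List σ := (Finset.univ : Finset σ).toList
  let A : List (Σ k, Γ k) := (Finset.univ : Finset (Γ k0)).toList.map (fun b => ⟨k0, b⟩) ++
    S.flatMap fun s => match s with
      | .push k f _ => V.map fun v => ⟨k, f v⟩
      | _ => []
  have hS : ∀ s ∈ S, ∀ s' ∈ subs s, s' ∈ S := by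
    intro s hs s' hs'
    obtain ⟨l, hl, h⟩ := List.mem_flatMap.1 hs
    exact List.mem_flatMap.2 ⟨l, hl, subs_trans h hs'⟩
  have hm : ∀ l, m l ∈ S := fun l => List.mem_flatMap.2 ⟨l, by simp, self_mem_subs _⟩
  have hV : ∀ v, v ∈ V := fun v => by simp [V]
  { act := cact m
    Ql := (S.flatMap fun s => V.map fun v => .run s v) ++
      ((A.flatMap fun a => S.flatMap fun s => V.map fun v => .ret a.1 a.2 s v) ++ [.halt])
    Al := A
    closed := by
      intro q hq
      have hrun : ∀ s ∈ S, ∀ v, Ctl.run s v ∈ (S.flatMap fun s => V.map fun v => .run s v) ++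
          ((A.flatMap fun a => S.flatMap fun s => V.map fun v => .ret a.1 a.2 s v) ++
            [.halt]) := fun s hs v => List.mem_append_left _
        (List.mem_flatMap.2 ⟨s, hs, List.mem_map.2 ⟨v, hV v, rfl⟩⟩)
      have hret : ∀ a ∈ A, ∀ s ∈ S, ∀ v, Ctl.ret a.1 a.2 s v ∈
          (S.flatMap fun s => V.map fun v => .run s v) ++
          ((A.flatMap fun a => S.flatMap fun s => V.map fun v => .ret a.1 a.2 s v) ++
            [.halt]) := fun a ha s hs v => List.mem_append_right _ (List.mem_append_left _
        (List.mem_flatMap.2 ⟨a, ha, List.mem_flatMap.2 ⟨s, hs,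
          List.mem_map.2 ⟨v, hV v, rfl⟩⟩⟩))
      have hhalt : Ctl.halt ∈ (S.flatMap fun s => V.map fun v => .run s v) ++
          ((A.flatMap fun a => S.flatMap fun s => V.map fun v => .ret a.1 a.2 s v) ++
            [.halt]) := List.mem_append_right _ (List.mem_append_right _ (by simp))
      rcases List.mem_append.1 hq with hq | hq
      · obtain ⟨s, hs, hq⟩ := List.mem_flatMap.1 hq
        obtain ⟨v, _, rfl⟩ := List.mem_map.1 hq
        cases s with
        | push k f s =>
          refine ⟨?_, hrun _ (hS _ hs _ (by simp [subs, self_mem_subs])) _⟩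
          exact List.mem_append_right _ (List.mem_flatMap.2 ⟨_, hs,
            List.mem_map.2 ⟨v, hV v, rfl⟩⟩)
        | peek k f s =>
          have hs' : s ∈ S := hS _ hs _ (by simp [subs, self_mem_subs])
          refine ⟨hrun _ hs' _, fun a ha => ?_⟩
          show (match (some a).bind (dec k) with
            | none => Ctl.run s (f v none)
            | some a => Ctl.ret k a s (f v (some a))) ∈ _
          rw [Option.bind_some]
          cases hd : dec k a with
          | none => exact hrun _ hs' _
          | some b =>
            have := dec_some hd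
            subst this
            exact hret _ ha _ hs' _
        | pop k f s =>
          have hs' : s ∈ S := hS _ hs _ (by simp [subs, self_mem_subs])
          exact ⟨hrun _ hs' _, fun a _ => hrun _ hs' _⟩
        | load f s => exact hrun _ (hS _ hs _ (by simp [subs, self_mem_subs])) _
        | branch p s1 s2 =>
          show (bif p v then Ctl.run s1 v else Ctl.run s2 v) ∈ _
          cases p v with
          | true => exact hrun _ (hS _ hs _ (by simp [subs, self_mem_subs])) _
          | false => exact hrun _ (hS _ hs _ (by simp [subs, self_mem_subs])) _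
        | goto l => exact hrun _ (hm _) _
        | halt => exact hhalt
      · rcases List.mem_append.1 hq with hq | hq
        · obtain ⟨a, ha, hq⟩ := List.mem_flatMap.1 hq
          obtain ⟨s, hs, hq⟩ := List.mem_flatMap.1 hq
          obtain ⟨v, _, rfl⟩ := List.mem_map.1 hq
          exact ⟨ha, hrun _ hs _⟩
        · rw [List.mem_singleton] at hq
          subst hq
          exact hhalt }

/-- the stacks -/
def conv (S : ∀ k, List (Γ k)) : K → List (Σ k, Γ k) := fun k => (S k).map (Sigma.mk k)

theorem conv_update (S : ∀ k, List (Γ k)) (k : K) (l : List (Γ k)) :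
    conv (update S k l) = update (conv S) k (l.map (Sigma.mk k)) := by
  funext k'
  by_cases h : k' = k
  · subst h; simp [conv]
  · simp [conv, Function.update_of_ne h]

/-- the control state of a configuration -/
def ctlOf (m : Λ → TM2.Stmt Γ Λ σ) (c : TM2.Cfg Γ Λ σ) : Ctl K Γ Λ σ × (K → List (Σ k, Γ k)) :=
  ((match c.l with
    | none => .halt
    | some l => .run (m l) c.var), conv c.stk)

/-- number of micro steps -/
def dep : TM2.Stmt Γ Λ σ → ℕ
  | .push _ _ s => dep s + 1
  | .peek _ _ s => dep s + 2
  | .pop _ _ s => dep s + 1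
  | .load _ s => dep s + 1
  | .branch _ s1 s2 => dep s1 + dep s2 + 1
  | .goto _ => 1
  | .halt => 1

theorem micro (m : Λ → TM2.Stmt Γ Λ σ) (M : FM K (Σ k, Γ k) (Ctl K Γ Λ σ))
    (hM : M.act = cact m) (s : TM2.Stmt Γ Λ σ) : ∀ (v : σ) (S : ∀ k, List (Γ k)),
    ∃ j ≤ dep s, M.step^[j] (.run s v, conv S) = ctlOf m (TM2.stepAux s v S) := by
  induction s with
  | push k f s ih =>
    intro v S
    obtain ⟨j, hj, e⟩ := ih v (update S k (f v :: S k))
    refine ⟨j + 1, by simp only [dep]; omega, ?_⟩
    rw [Function.iterate_succ_apply]
    have h1 : M.step (.run (.push k f s) v, conv S) =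
        (.run s v, conv (update S k (f v :: S k))) := by
      simp only [FM.step, hM, cact, conv_update]
      rfl
    rw [h1, e]
    rfl
  | peek k f s ih =>
    intro v S
    obtain ⟨j, hj, e⟩ := ih (f v (S k).head?) S
    cases hS : S k with
    | nil =>
      refine ⟨j + 1, by simp only [dep]; omega, ?_⟩
      rw [Function.iterate_succ_apply]
      have h1 : M.step (.run (.peek k f s) v, conv S) = (.run s (f v (S k).head?), conv S) := by
        simp only [FM.step, hM, cact]
        have : conv S k = [] := by simp [conv, hS]
        rw [this, hS]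
        simp only [List.head?_nil, Option.bind_none, List.tail_nil]
        rw [← this, Function.update_eq_self]
      rw [h1, e]
      rfl
    | cons b L =>
      refine ⟨j + 2, by simp only [dep]; omega, ?_⟩
      rw [Function.iterate_add_apply]
      have h1 : M.step^[2] (.run (.peek k f s) v, conv S) =
          (.run s (f v (S k).head?), conv S) := by
        rw [Function.iterate_succ_apply, Function.iterate_one]
        have h2 : conv S k = ⟨k, b⟩ :: L.map (Sigma.mk k) := by simp [conv, hS]
        have h3 : M.step (.run (.peek k f s) v, conv S) =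
            (.ret k b s (f v (some b)), update (conv S) k (L.map (Sigma.mk k))) := by
          simp only [FM.step, hM, cact]
          rw [h2]
          simp only [List.head?_cons, Option.bind_some, dec_mk, List.tail_cons]
        rw [h3, hS]
        simp only [FM.step, hM, cact, List.head?_cons, Function.update_self,
          Function.update_idem]
        rw [← h2, Function.update_eq_self]
      rw [h1, e]
      rfl
  | pop k f s ih =>
    intro v S
    obtain ⟨j, hj, e⟩ := ih (f v (S k).head?) (update S k (S k).tail)
    refine ⟨j + 1, by simp only [dep]; omega, ?_⟩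
    rw [Function.iterate_succ_apply]
    have h1 : M.step (.run (.pop k f s) v, conv S) =
        (.run s (f v (S k).head?), conv (update S k (S k).tail)) := by
      simp only [FM.step, hM, cact, conv_update]
      cases hS : S k with
      | nil => simp [conv, hS]
      | cons b L => simp [conv, hS, dec_mk]
    rw [h1, e]
    rfl
  | load f s ih =>
    intro v S
    obtain ⟨j, hj, e⟩ := ih (f v) S
    refine ⟨j + 1, by simp only [dep]; omega, ?_⟩
    rw [Function.iterate_succ_apply]
    have h1 : M.step (.run (.load f s) v, conv S) = (.run s (f v), conv S) := by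
      simp only [FM.step, hM, cact]
    rw [h1, e]
    rfl
  | branch p s1 s2 ih1 ih2 =>
    intro v S
    have h1 : M.step (.run (.branch p s1 s2) v, conv S) =
        (bif p v then .run s1 v else .run s2 v, conv S) := by
      simp only [FM.step, hM, cact]
    cases hp : p v with
    | true =>
      obtain ⟨j, hj, e⟩ := ih1 v S
      refine ⟨j + 1, by simp only [dep]; omega, ?_⟩
      rw [Function.iterate_succ_apply, h1, hp, cond_true, e]
      simp only [TM2.stepAux, hp, cond_true]
    | false =>
      obtain ⟨j, hj, e⟩ := ih2 v S
      refine ⟨j + 1, by simp only [dep]; omega, ?_⟩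
      rw [Function.iterate_succ_apply, h1, hp, cond_false, e]
      simp only [TM2.stepAux, hp, cond_false]
  | goto l =>
    intro v S
    refine ⟨1, le_rfl, ?_⟩
    rw [Function.iterate_one]
    simp only [FM.step, hM, cact, TM2.stepAux, ctlOf]
  | halt =>
    intro v S
    refine ⟨1, le_rfl, ?_⟩
    rw [Function.iterate_one]
    simp only [FM.step, hM, cact, TM2.stepAux, ctlOf]

theorem macro_steps (m : Λ → TM2.Stmt Γ Λ σ) (M : FM K (Σ k, Γ k) (Ctl K Γ Λ σ))
    (hM : M.act = cact m) (D : ℕ) (hD : ∀ l, dep (m l) ≤ D) (n : ℕ) :
    ∀ c c' : TM2.Cfg Γ Λ σ, (flip bind (TM2.step m))^[n] (some c) = some c' →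
      ∃ j ≤ D * n, M.step^[j] (ctlOf m c) = ctlOf m c' := by
  induction n with
  | zero =>
    intro c c' h
    simp only [Function.iterate_zero, id_eq, Option.some.injEq] at h
    subst h
    exact ⟨0, by omega, rfl⟩
  | succ n ih =>
    intro c c' h
    rw [Function.iterate_succ_apply] at h
    obtain ⟨l, v, S⟩ := c
    cases l with
    | none =>
      exfalso
      have h0 : ∀ n, (flip bind (TM2.step m))^[n] (none : Option (TM2.Cfg Γ Λ σ)) = none := by
        intro n
        induction n with
        | zero => rfl
        | succ n ih => rw [Function.iterate_succ_apply']; rw [ih]; rfl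
      have h1 : (flip bind (TM2.step m)) (some (⟨none, v, S⟩ : TM2.Cfg Γ Λ σ)) = none := rfl
      rw [h1, h0] at h
      simp at h
    | some l =>
      have h1 : (flip bind (TM2.step m)) (some (⟨some l, v, S⟩ : TM2.Cfg Γ Λ σ)) =
          some (TM2.stepAux (m l) v S) := rfl
      rw [h1] at h
      obtain ⟨j, hj, e⟩ := ih _ _ h
      obtain ⟨i, hi, e'⟩ := micro m M hM (m l) v S
      refine ⟨j + i, ?_, ?_⟩
      · have := hD l
        rw [Nat.mul_succ]
        omega
      · rw [Function.iterate_add_apply]
        have h2 : ctlOf m (⟨some l, v, S⟩ : TM2.Cfg Γ Λ σ) = (.run (m l) v, conv S) := rfl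
        rw [h2, e', e]

theorem halt_iter (m : Λ → TM2.Stmt Γ Λ σ) (M : FM K (Σ k, Γ k) (Ctl K Γ Λ σ))
    (hM : M.act = cact m) (S : K → List (Σ k, Γ k)) (n : ℕ) :
    M.step^[n] (.halt, S) = (.halt, S) := by
  induction n with
  | zero => rfl
  | succ n ih =>
    rw [Function.iterate_succ_apply', ih]
    simp only [FM.step, hM, cact]

end sim

/-! ### the class NP -/

/-- the string `y#x` over the alphabet `{0, 1, #}` -/
def pairEnc (z : List Bool × List Bool) : List (Option Bool) :=
  z.2.map some ++ none :: z.1.map some

/-- languages in NP: there are a verifier `V`, computed by a polynomial time machine of Mathlib,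
and a polynomial `p` bounding the length of the certificates -/
def InNP (L : Set (List Bool)) : Prop :=
  ∃ (V : List Bool × List Bool → Bool) (p : Polynomial ℕ),
    Nonempty (TM2ComputableInPolyTime pairEnc (fun b : Bool => [b]) V) ∧
    ∀ x : List Bool, x ∈ L ↔ ∃ y : List Bool, y.length ≤ p.eval x.length ∧ V (x, y) = true

theorem initList_stk (tm : FinTM2) (l : List (tm.Γ tm.k₀)) (k : tm.K) :
    (initList tm l).stk k = @dite (List (tm.Γ k)) (k = tm.k₀) (tm.kDecidableEq k tm.k₀)
      (fun h => h ▸ l) fun _ => [] := by
  unfold initList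
  simp only
  split_ifs with h
  · subst h; rfl
  · rfl

theorem haltList_stk (tm : FinTM2) (l : List (tm.Γ tm.k₁)) :
    (haltList tm l).stk tm.k₁ = l := by
  unfold haltList
  exact dif_pos rfl

/-- every language in NP reduces to SAT by a polynomial time function -/
theorem cookLevin {L : Set (List Bool)} (hL : InNP L) :
    ∃ f : List Bool → CNF, PT f ∧ ∀ x, x ∈ L ↔ Sat (f x) := by
  classical
  obtain ⟨V, p, ⟨hV⟩, hL⟩ := hL
  let tm := hV.tm
  have := tm.kFin
  have := tm.ΛFin
  have := tm.σFin
  have := tm.Γk₀Fin
  let M0 : FM tm.K (Σ k, tm.Γ k) (Ctl tm.K tm.Γ tm.Λ tm.σ) := toFM tm.m tm.k₀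
  have hM0 : M0.act = cact tm.m := rfl
  let M : VM tm.K (Σ k, tm.Γ k) (Ctl tm.K tm.Γ tm.Λ tm.σ) :=
    { M0 with
      q0 := .run (tm.m tm.main) tm.initialState
      qh := .halt
      k0 := tm.k₀
      k1 := tm.k₁
      inA := fun o => ⟨tm.k₀, hV.inputAlphabet.invFun o⟩
      outA := ⟨tm.k₁, hV.outputAlphabet.invFun true⟩
      q0_mem := by
        refine List.mem_append_left _ (List.mem_flatMap.2 ⟨_, List.mem_flatMap.2
          ⟨tm.main, by simp, self_mem_subs _⟩, List.mem_map.2 ⟨_, by simp, rfl⟩⟩)
      inA_mem := by
        intro o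
        exact List.mem_append_left _ (List.mem_map.2 ⟨_, by simp, rfl⟩) }
  let D : ℕ := ∑ l : tm.Λ, dep (tm.m l)
  have hD : ∀ l, dep (tm.m l) ≤ D := fun l =>
    Finset.single_le_sum (f := fun l => dep (tm.m l)) (fun _ _ => Nat.zero_le _)
      (Finset.mem_univ l)
  -- the main claim
  have key : ∀ (x y : List Bool) (T : ℕ),
      D * hV.time.eval (x.length + 1 + y.length) ≤ T → (M.Acc T x y ↔ V (x, y) = true) := by
    intro x y T hT
    have E := hV.outputsFun (x, y)
    have hlen : (pairEnc (x, y)).length = x.length + 1 + y.length := by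
      simp [pairEnc]; ring
    have hle : E.steps ≤ hV.time.eval (x.length + 1 + y.length) := by
      rw [← hlen]; exact E.steps_le_m
    obtain ⟨j, hj, e⟩ := macro_steps tm.m M0 hM0 D hD E.steps _ _ E.evals_in_steps
    have hini : ctlOf tm.m (initList tm (List.map hV.inputAlphabet.invFun (pairEnc (x, y)))) =
        M.ini x y := by
      unfold ctlOf VM.ini
      refine Prod.ext rfl ?_
      funext k
      show ((initList tm (List.map hV.inputAlphabet.invFun (pairEnc (x, y)))).stk k).map
        (Sigma.mk k) = if k = tm.k₀ then M.inp x y else []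
      rw [initList_stk]
      by_cases hk : k = tm.k₀
      · subst hk
        rw [dif_pos rfl, if_pos rfl]
        simp [VM.inp, pairEnc, M, Function.comp_def]
      · rw [dif_neg hk, if_neg hk]
        rfl
    have hT' : M.step^[T] (M.ini x y) =
        (.halt, conv (haltList tm (List.map hV.outputAlphabet.invFun [V (x, y)])).stk) := by
      have h1 : T = (T - j) + j := by
        have : D * E.steps ≤ D * hV.time.eval (x.length + 1 + y.length) :=
          Nat.mul_le_mul_left _ hle
        omega
      rw [h1, Function.iterate_add_apply, ← hini]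
      have e' : M.step^[j] (ctlOf tm.m (initList tm
          (List.map hV.inputAlphabet.invFun (pairEnc (x, y))))) =
          (.halt, conv (haltList tm (List.map hV.outputAlphabet.invFun [V (x, y)])).stk) := e
      rw [e']
      exact halt_iter tm.m M0 hM0 _ _
    unfold VM.Acc
    rw [hT']
    have hcell : cell (conv (haltList tm (List.map hV.outputAlphabet.invFun [V (x, y)])).stk
        tm.k₁) 0 = some ⟨tm.k₁, hV.outputAlphabet.invFun (V (x, y))⟩ := by
      unfold conv
      rw [haltList_stk]
      rfl
    constructor
    · rintro ⟨_, h2⟩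
      have h3 := hcell.symm.trans h2
      rw [Option.some.injEq] at h3
      have h4 : hV.outputAlphabet.invFun (V (x, y)) = hV.outputAlphabet.invFun true :=
        eq_of_heq (Sigma.mk.inj h3).2
      exact hV.outputAlphabet.symm.injective h4
    · intro h
      refine ⟨rfl, hcell.trans ?_⟩
      rw [h]
  -- the formula
  let P : ℕ → ℕ := fun n => p.eval n
  let T : ℕ → ℕ := fun n => D * hV.time.eval (n + 1 + P n)
  let H : ℕ → ℕ := fun n => n + 1 + P n + T n + 1
  refine ⟨fun x => ren (M.tab x (P x.length) (T x.length) (H x.length)), ?_, fun x => ?_⟩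
  · have hl : PT (fun x : List Bool => x.length) := PT.length PT.id
    have hP : PT (fun x : List Bool => P x.length) := PT.polyEval p hl
    have hT : PT (fun x : List Bool => T x.length) :=
      (PT.const D).mul (PT.polyEval hV.time (hl.succ.add hP))
    have hH : PT (fun x : List Bool => H x.length) := ((hl.succ.add hP).add hT).succ
    exact pt_ren.comp (pt_tab M PT.id hP hT hH)
  · rw [sat_ren, tab_iff M (le_refl _), hL]
    constructor
    · rintro ⟨y, hy, hv⟩
      refine ⟨y, hy, (key x y _ ?_).2 hv⟩
      exact Nat.mul_le_mul_left _ (eval_mono _ (by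
        have : y.length ≤ P x.length := hy
        show x.length + 1 + y.length ≤ x.length + 1 + P x.length
        omega))
    · rintro ⟨y, hy, ha⟩
      refine ⟨y, hy, (key x y _ ?_).1 ha⟩
      exact Nat.mul_le_mul_left _ (eval_mono _ (by
        have : y.length ≤ P x.length := hy
        show x.length + 1 + y.length ≤ x.length + 1 + P x.length
        omega))

end PTime
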