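import Pool.Agent.Work.MP_2f1fa1_lc.CLMach

/-!
# Cook-Levin, part 2: the tableau formula and its correctness
-/

namespace PTime

open Function (update)

variable {K A Q : Type} [DecidableEq K] [Fintype K]

/-- data of a verifier machine -/
structure VM (K A Q : Type) extends FM K A Q where
  q0 : Q
  qh : Q
  k0 : K
  k1 : K
  inA : Option Bool → A
  outA : A
  q0_mem : q0 ∈ Ql
  inA_mem : ∀ o, inA o ∈ Al

/-- the input string: certificate on top, separator, instance at the bottom -/
def VM.inp (M : VM K A Q) (x y : List Bool) : List A :=
  y.map (fun b => M.inA (some b)) ++ M.inA none :: x.map fun b => M.inA (some b)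

/-- initial configuration -/
def VM.ini (M : VM K A Q) (x y : List Bool) : Q × (K → List A) :=
  (M.q0, fun k => if k = M.k0 then M.inp x y else [])

omit [DecidableEq K] [Fintype K] in
theorem inp_mem (M : VM K A Q) (x y : List Bool) : ∀ a ∈ M.inp x y, a ∈ M.Al := by
  intro a ha
  simp only [VM.inp, List.mem_append, List.mem_map, List.mem_cons] at ha
  rcases ha with ⟨b, _, rfl⟩ | rfl | ⟨b, _, rfl⟩ <;> exact M.inA_mem _

omit [Fintype K] in
theorem ini_good (M : VM K A Q) (x y : List Bool) : M.Good (M.ini x y) := by
  refine ⟨M.q0_mem, fun k a ha => ?_⟩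
  simp only [VM.ini] at ha
  split_ifs at ha with h
  · exact inp_mem M x y a ha
  · simp at ha

omit [DecidableEq K] [Fintype K] in
theorem cell_inp (M : VM K A Q) (x z : List Bool) (h : ℕ) :
    cell (M.inp x z.reverse) h =
      if h < x.length then some (M.inA (some (x.reverse.getD h false)))
      else if h = x.length then some (M.inA none)
      else (z[h - x.length - 1]?).map fun b => M.inA (some b) := by
  have e : (M.inp x z.reverse).reverse =
      (x.reverse.map fun b => M.inA (some b)) ++
        (M.inA none :: (z.map fun b => M.inA (some b))) := by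
    simp [VM.inp, List.map_reverse]
  unfold cell
  rw [e]
  by_cases h1 : h < x.length
  · rw [if_pos h1, List.getElem?_append_left (by simpa using h1), List.getElem?_map,
      List.getD_eq_getElem?_getD, List.getElem?_eq_getElem (by simpa using h1)]
    rfl
  · rw [if_neg h1, List.getElem?_append_right (by simpa using h1), List.length_map,
      List.length_reverse]
    by_cases h2 : h = x.length
    · rw [if_pos h2, h2]
      simp
    · rw [if_neg h2]
      obtain ⟨j, hj⟩ : ∃ j, h - x.length = j + 1 := ⟨h - x.length - 1, by omega⟩
      rw [hj, List.getElem?_cons_succ, List.getElem?_map]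
      rfl

omit [Fintype K] in
theorem step_length (M : FM K A Q) (c : Q × (K → List A)) (k : K) :
    ((M.step c).2 k).length ≤ (c.2 k).length + 1 := by
  unfold FM.step
  cases M.act c.1 with
  | push k' a q' =>
    by_cases hk : k = k'
    · subst hk; simp
    · simp [Function.update_of_ne hk]
  | pop k' f =>
    by_cases hk : k = k'
    · subst hk; simp; omega
    · simp [Function.update_of_ne hk]
  | goto q' => simp

omit [Fintype K] in
theorem iter_length (M : FM K A Q) (c : Q × (K → List A)) (k : K) (n : ℕ) :
    ((M.step^[n] c).2 k).length ≤ (c.2 k).length + n := by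
  induction n with
  | zero => simp
  | succ n ih =>
    rw [Function.iterate_succ_apply']
    have := step_length M (M.step^[n] c) k
    omega

open Classical in
/-- the initial clauses -/
noncomputable def VM.initC (M : VM K A Q) (x : List Bool) (p H : ℕ) : List (Cl Nm) :=
  [(true, sv M.toFM 0 M.q0)] ::
  ((Finset.univ : Finset K).toList.flatMap fun k => if k = M.k0 then [] else
    (List.range (H + 1)).map fun h => [(true, cv M.toFM 0 k h none)]) ++
  ((List.range x.length).map fun h =>
    [(true, cv M.toFM 0 M.k0 h (some (M.inA (some (x.reverse.getD h false)))))]) ++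
  [[(true, cv M.toFM 0 M.k0 x.length (some (M.inA none)))]] ++
  ((List.range p).map fun j => [(true, cv M.toFM 0 M.k0 (x.length + 1 + j)
      (some (M.inA (some true)))),
    (true, cv M.toFM 0 M.k0 (x.length + 1 + j) (some (M.inA (some false)))),
    (true, cv M.toFM 0 M.k0 (x.length + 1 + j) none)]) ++
  ((List.range H).map fun h => [(false, cv M.toFM 0 M.k0 (x.length + 1 + h) none),
    (true, cv M.toFM 0 M.k0 (x.length + 2 + h) none)]) ++
  [[(true, cv M.toFM 0 M.k0 (x.length + 1 + p) none)]]

open Classical in
/-- the final clauses -/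
noncomputable def VM.finC (M : VM K A Q) (T : ℕ) : List (Cl Nm) :=
  (M.Ql.flatMap fun q => if q = M.qh then [] else [[(false, sv M.toFM T q)]]) ++
  (M.Ol.flatMap fun o => if o = some M.outA then [] else [[(false, cv M.toFM T M.k1 0 o)]])

/-- the formula -/
noncomputable def VM.tab (M : VM K A Q) (x : List Bool) (p T H : ℕ) : List (Cl Nm) :=
  M.initC x p H ++
  ((List.range (T + 1)).flatMap fun t => topC M.toFM H t) ++
  ((List.range T).flatMap fun t => (List.range H).flatMap fun h => stpC M.toFM t h) ++
  M.finC T

/-- the machine accepts -/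
def VM.Acc (M : VM K A Q) (T : ℕ) (x y : List Bool) : Prop :=
  (M.step^[T] (M.ini x y)).1 = M.qh ∧ cell ((M.step^[T] (M.ini x y)).2 M.k1) 0 = some M.outA

theorem tab_of_acc (M : VM K A Q) {x y : List Bool} {p T H : ℕ} (hy : y.length ≤ p)
    (hH : x.length + 1 + p + T ≤ H) (h : M.Acc T x y) :
    ∃ v : Nm → Bool, ∀ C ∈ M.tab x p T H, ClSat v C := by
  classical
  set c : ℕ → Q × (K → List A) := fun t => M.step^[t] (M.ini x y) with hc
  have hg : ∀ t, M.Good (c t) := fun t => (ini_good M x y).iter t
  have hs : ∀ t, c (t + 1) = M.step (c t) := fun t => Function.iterate_succ_apply' _ _ _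
  obtain ⟨z, rfl⟩ : ∃ z : List Bool, y = z.reverse := ⟨y.reverse, by simp⟩
  have hzl : z.length ≤ p := by simpa using hy
  refine ⟨asg M.toFM c, fun C hC => ?_⟩
  have c0 : c 0 = M.ini x z.reverse := rfl
  have cell0 : ∀ h, cell ((c 0).2 M.k0) h = if h < x.length then
      some (M.inA (some (x.reverse.getD h false)))
      else if h = x.length then some (M.inA none)
      else (z[h - x.length - 1]?).map fun b => M.inA (some b) := by
    intro h
    rw [c0]
    simp only [VM.ini, if_true]
    exact cell_inp M x z h
  simp only [VM.tab, List.mem_append] at hC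
  rcases hC with ((hC | hC) | hC) | hC
  · -- initial clauses
    simp only [VM.initC, List.mem_append, List.mem_cons, List.not_mem_nil, or_false] at hC
    rcases hC with (((((hC | hC) | hC) | hC) | hC) | hC) | hC
    · subst hC
      exact ⟨_, List.mem_singleton.2 rfl, (asg_sv hg 0 _).2 rfl⟩
    · obtain ⟨k, _, hC⟩ := List.mem_flatMap.1 hC
      by_cases hk : k = M.k0
      · simp [hk] at hC
      · rw [if_neg hk] at hC
        obtain ⟨h, _, rfl⟩ := List.mem_map.1 hC
        refine ⟨_, List.mem_singleton.2 rfl, (asg_cv hg 0 _ _ _).2 ?_⟩
        rw [c0]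
        simp [VM.ini, hk, cell]
    · obtain ⟨h, hh, rfl⟩ := List.mem_map.1 hC
      rw [List.mem_range] at hh
      refine ⟨_, List.mem_singleton.2 rfl, (asg_cv hg 0 _ _ _).2 ?_⟩
      rw [cell0, if_pos hh]
    · subst hC
      refine ⟨_, List.mem_singleton.2 rfl, (asg_cv hg 0 _ _ _).2 ?_⟩
      rw [cell0, if_neg (lt_irrefl _), if_pos rfl]
    · obtain ⟨j, hj, rfl⟩ := List.mem_map.1 hC
      have e := cell0 (x.length + 1 + j)
      rw [if_neg (by omega), if_neg (by omega),
        show x.length + 1 + j - x.length - 1 = j by omega] at e
      cases hz : z[j]? with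
      | none =>
        rw [hz] at e
        exact ⟨(true, cv M.toFM 0 M.k0 (x.length + 1 + j) none), by simp,
          (asg_cv hg 0 _ _ _).2 e⟩
      | some b =>
        rw [hz] at e
        cases b with
        | true =>
          exact ⟨(true, cv M.toFM 0 M.k0 (x.length + 1 + j) (some (M.inA (some true)))),
            by simp, (asg_cv hg 0 _ _ _).2 e⟩
        | false =>
          exact ⟨(true, cv M.toFM 0 M.k0 (x.length + 1 + j) (some (M.inA (some false)))),
            by simp, (asg_cv hg 0 _ _ _).2 e⟩
    · obtain ⟨h, _, rfl⟩ := List.mem_map.1 hC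
      have e := cell0 (x.length + 1 + h)
      rw [if_neg (by omega), if_neg (by omega),
        show x.length + 1 + h - x.length - 1 = h by omega] at e
      have e' := cell0 (x.length + 2 + h)
      rw [if_neg (by omega), if_neg (by omega),
        show x.length + 2 + h - x.length - 1 = h + 1 by omega] at e'
      by_cases hz : z.length ≤ h
      · refine ⟨(true, cv M.toFM 0 M.k0 (x.length + 2 + h) none), by simp,
          (asg_cv hg 0 _ _ _).2 ?_⟩
        rw [e', List.getElem?_eq_none (by omega)]
        rfl
      · refine ⟨(false, cv M.toFM 0 M.k0 (x.length + 1 + h) none), by simp, ?_⟩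
        rw [Bool.eq_false_iff, Ne, asg_cv hg, e, List.getElem?_eq_getElem (by omega)]
        simp
    · subst hC
      refine ⟨_, List.mem_singleton.2 rfl, (asg_cv hg 0 _ _ _).2 ?_⟩
      have e := cell0 (x.length + 1 + p)
      rw [if_neg (by omega), if_neg (by omega),
        show x.length + 1 + p - x.length - 1 = p by omega,
        List.getElem?_eq_none hzl] at e
      exact e
  · -- top clauses
    obtain ⟨t, ht, hC⟩ := List.mem_flatMap.1 hC
    rw [List.mem_range] at ht
    obtain ⟨k, _, rfl⟩ := List.mem_map.1 hC
    refine ⟨_, List.mem_singleton.2 rfl, (asg_cv hg t _ _ _).2 ?_⟩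
    rw [cell_eq_none]
    have h1 := iter_length M.toFM (M.ini x z.reverse) k t
    have h2 : ((M.ini x z.reverse).2 k).length ≤ x.length + 1 + p := by
      simp only [VM.ini]
      split_ifs with hk
      · simp [VM.inp]; omega
      · simp
    show ((M.step^[t] (M.ini x z.reverse)).2 k).length ≤ H
    omega
  · obtain ⟨t, _, hC⟩ := List.mem_flatMap.1 hC
    obtain ⟨h, _, hC⟩ := List.mem_flatMap.1 hC
    exact asg_stp hg hs t h C hC
  · obtain ⟨h1, h2⟩ := h
    simp only [VM.finC, List.mem_append] at hC
    rcases hC with hC | hC
    · obtain ⟨q, _, hC⟩ := List.mem_flatMap.1 hC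
      by_cases hq : q = M.qh
      · simp [hq] at hC
      · rw [if_neg hq, List.mem_singleton] at hC
        subst hC
        refine ⟨_, List.mem_singleton.2 rfl, ?_⟩
        show asg M.toFM c (sv M.toFM T q) = false
        rw [Bool.eq_false_iff, Ne, asg_sv hg]
        intro e
        exact hq (e.symm.trans h1)
    · obtain ⟨o, _, hC⟩ := List.mem_flatMap.1 hC
      by_cases hq : o = some M.outA
      · simp [hq] at hC
      · rw [if_neg hq, List.mem_singleton] at hC
        subst hC
        refine ⟨_, List.mem_singleton.2 rfl, ?_⟩
        show asg M.toFM c (cv M.toFM T M.k1 0 o) = false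
        rw [Bool.eq_false_iff, Ne, asg_cv hg]
        intro e
        exact hq (e.symm.trans h2)

theorem acc_of_tab (M : VM K A Q) {x : List Bool} {p T H : ℕ}
    (hH : x.length + 1 + p + T + 1 ≤ H) {v : Nm → Bool}
    (hv : ∀ C ∈ M.tab x p T H, ClSat v C) : ∃ y : List Bool, y.length ≤ p ∧ M.Acc T x y := by
  classical
  have hinit : ∀ C ∈ M.initC x p H, ClSat v C := fun C hC => hv C (by
    simp only [VM.tab, List.mem_append]; exact Or.inl (Or.inl (Or.inl hC)))
  have htop : ∀ t ≤ T, ∀ C ∈ topC M.toFM H t, ClSat v C := fun t ht C hC => hv C (by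
    simp only [VM.tab, List.mem_append]
    exact Or.inl (Or.inl (Or.inr (List.mem_flatMap.2 ⟨t, List.mem_range.2 (by omega), hC⟩))))
  have hstp : ∀ t < T, ∀ h < H, ∀ C ∈ stpC M.toFM t h, ClSat v C := fun t ht h hh C hC =>
    hv C (by
      simp only [VM.tab, List.mem_append]
      exact Or.inl (Or.inr (List.mem_flatMap.2 ⟨t, List.mem_range.2 ht,
        List.mem_flatMap.2 ⟨h, List.mem_range.2 hh, hC⟩⟩)))
  have hfin : ∀ C ∈ M.finC T, ClSat v C := fun C hC => hv C (by
    simp only [VM.tab, List.mem_append]; exact Or.inr hC)
  -- unit clauses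
  have unit : ∀ n : Nm, ClSat v [(true, n)] → v n = true := by
    rintro n ⟨l, hl, e⟩
    rw [List.mem_singleton] at hl
    subst hl
    exact e
  -- the certificate
  have hp : v (cv M.toFM 0 M.k0 (x.length + 1 + p) none) = true := by
    apply unit
    apply hinit
    simp only [VM.initC, List.mem_append, List.mem_cons, List.not_mem_nil, or_false]
    exact Or.inr trivial
  have hex : ∃ j, v (cv M.toFM 0 M.k0 (x.length + 1 + j) none) = true := ⟨p, hp⟩
  set m := Nat.find hex with hm
  have hmp : m ≤ p := Nat.find_min' hex hp
  have hm1 : v (cv M.toFM 0 M.k0 (x.length + 1 + m) none) = true := Nat.find_spec hex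
  have hm2 : ∀ j < m, v (cv M.toFM 0 M.k0 (x.length + 1 + j) none) = false := fun j hj => by
    have := Nat.find_min hex hj
    simpa using this
  have hmono : ∀ i, x.length + 1 + m + i ≤ H →
      v (cv M.toFM 0 M.k0 (x.length + 1 + (m + i)) none) = true := by
    intro i
    induction i with
    | zero => intro _; simpa using hm1
    | succ i ih =>
      intro hi
      have h1 := ih (by omega)
      have h2 : ClSat v [(false, cv M.toFM 0 M.k0 (x.length + 1 + (m + i)) none),
          (true, cv M.toFM 0 M.k0 (x.length + 2 + (m + i)) none)] := by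
        apply hinit
        simp only [VM.initC, List.mem_append, List.mem_cons, List.not_mem_nil, or_false]
        exact Or.inl (Or.inr (List.mem_map.2 ⟨m + i, List.mem_range.2 (by omega), rfl⟩))
      obtain ⟨l, hl, e⟩ := h2
      simp only [List.mem_cons, List.not_mem_nil, or_false] at hl
      rcases hl with rfl | rfl
      · simp [h1] at e
      · have e3 : x.length + 1 + (m + (i + 1)) = x.length + 2 + (m + i) := by omega
        rw [e3]
        exact e
  set z : List Bool := (List.range m).map fun j =>
    v (cv M.toFM 0 M.k0 (x.length + 1 + j) (some (M.inA (some true)))) with hz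
  have hzl : z.length = m := by simp [hz]
  refine ⟨z.reverse, by rw [List.length_reverse, hzl]; exact hmp, ?_⟩
  set c : ℕ → Q × (K → List A) := fun t => M.step^[t] (M.ini x z.reverse) with hc
  have hg : ∀ t, M.Good (c t) := fun t => (ini_good M x _).iter t
  have hs : ∀ t, c (t + 1) = M.step (c t) := fun t => Function.iterate_succ_apply' _ _ _
  have c0 : c 0 = M.ini x z.reverse := rfl
  have hlen : ∀ t k, ((c t).2 k).length ≤ x.length + 1 + p + t := by
    intro t k
    have h1 := iter_length M.toFM (M.ini x z.reverse) k t
    have h2 : ((M.ini x z.reverse).2 k).length ≤ x.length + 1 + p := by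
      simp only [VM.ini]
      split_ifs with hk
      · simp [VM.inp]; omega
      · simp
    show ((M.step^[t] (M.ini x z.reverse)).2 k).length ≤ _
    omega
  have f0 : Facts M.toFM v 0 H (c 0) := by
    constructor
    · apply unit
      apply hinit
      simp only [VM.initC, List.mem_append, List.mem_cons]
      exact Or.inl (Or.inl (Or.inl (Or.inl (Or.inl (Or.inl rfl)))))
    · intro k h hh
      rw [c0]
      by_cases hk : k = M.k0
      · subst hk
        simp only [VM.ini, if_true]
        rw [cell_inp]
        split_ifs with h1 h2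
        · apply unit
          apply hinit
          simp only [VM.initC, List.mem_append, List.mem_cons]
          exact Or.inl (Or.inl (Or.inl (Or.inl (Or.inr
            (List.mem_map.2 ⟨h, List.mem_range.2 h1, rfl⟩)))))
        · rw [h2]
          apply unit
          apply hinit
          simp only [VM.initC, List.mem_append, List.mem_cons, List.not_mem_nil, or_false]
          exact Or.inl (Or.inl (Or.inl (Or.inr trivial)))
        · obtain ⟨j, rfl⟩ : ∃ j, h = x.length + 1 + j := ⟨h - x.length - 1, by omega⟩
          rw [show x.length + 1 + j - x.length - 1 = j by omega]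
          by_cases hj : j < m
          · have e1 : z[j]? = some (v (cv M.toFM 0 M.k0 (x.length + 1 + j)
                (some (M.inA (some true))))) := by
              simp [hz, hj]
            rw [e1]
            have h3 : ClSat v [(true, cv M.toFM 0 M.k0 (x.length + 1 + j)
                  (some (M.inA (some true)))),
                (true, cv M.toFM 0 M.k0 (x.length + 1 + j) (some (M.inA (some false)))),
                (true, cv M.toFM 0 M.k0 (x.length + 1 + j) none)] := by
              apply hinit
              simp only [VM.initC, List.mem_append, List.mem_cons, List.not_mem_nil, or_false]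
              exact Or.inl (Or.inl (Or.inr
                (List.mem_map.2 ⟨j, List.mem_range.2 (by omega), rfl⟩)))
            by_cases h4 : v (cv M.toFM 0 M.k0 (x.length + 1 + j)
                (some (M.inA (some true)))) = true
            · rw [h4]
              exact h4
            · rw [Bool.not_eq_true] at h4
              rw [h4]
              obtain ⟨l, hl, e⟩ := h3
              simp only [List.mem_cons, List.not_mem_nil, or_false] at hl
              rcases hl with rfl | rfl | rfl
              · simp [h4] at e
              · exact e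
              · simp [hm2 j hj] at e
          · rw [List.getElem?_eq_none (by omega)]
            obtain ⟨i, rfl⟩ : ∃ i, j = m + i := ⟨j - m, by omega⟩
            exact hmono i (by omega)
      · simp only [VM.ini, hk, if_false]
        have e1 : cell ([] : List A) h = none := by simp [cell]
        rw [e1]
        apply unit
        apply hinit
        simp only [VM.initC, List.mem_append, List.mem_cons]
        refine Or.inl (Or.inl (Or.inl (Or.inl (Or.inl (Or.inr
          (List.mem_flatMap.2 ⟨k, by simp, ?_⟩))))))
        rw [if_neg hk]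
        exact List.mem_map.2 ⟨h, List.mem_range.2 (by omega), rfl⟩
  have ft : ∀ t ≤ T, Facts M.toFM v t H (c t) := by
    intro t
    induction t with
    | zero => intro _; exact f0
    | succ t ih =>
      intro ht
      rw [hs]
      refine facts_step M.toFM v t H (by omega) (hg t) (fun k => ?_)
        (fun h hh => hstp t (by omega) h hh) (htop (t + 1) ht) (fun k => ?_) (ih (by omega))
      · have := hlen t k; omega
      · rw [← hs]; have := hlen (t + 1) k; omega
  obtain ⟨g1, g2⟩ := ft T le_rfl
  constructor
  · by_contra hne
    have h1 : ClSat v [(false, sv M.toFM T (c T).1)] := by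
      apply hfin
      simp only [VM.finC, List.mem_append]
      refine Or.inl (List.mem_flatMap.2 ⟨(c T).1, (hg T).1, ?_⟩)
      rw [if_neg hne]
      exact List.mem_singleton.2 rfl
    obtain ⟨l, hl, e⟩ := h1
    rw [List.mem_singleton] at hl
    subst hl
    simp [g1] at e
  · by_contra hne
    have h1 : ClSat v [(false, cv M.toFM T M.k1 0 (cell ((c T).2 M.k1) 0))] := by
      apply hfin
      simp only [VM.finC, List.mem_append]
      refine Or.inr (List.mem_flatMap.2 ⟨_, cell_mem_Ol (hg T) M.k1 0, ?_⟩)
      rw [if_neg hne]
      exact List.mem_singleton.2 rfl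
    obtain ⟨l, hl, e⟩ := h1
    rw [List.mem_singleton] at hl
    subst hl
    have := g2 M.k1 0 (by omega)
    simp [this] at e

/-- the tableau theorem -/
theorem tab_iff (M : VM K A Q) {x : List Bool} {p T H : ℕ}
    (hH : x.length + 1 + p + T + 1 ≤ H) :
    (∃ v : Nm → Bool, ∀ C ∈ M.tab x p T H, ClSat v C) ↔
      ∃ y : List Bool, y.length ≤ p ∧ M.Acc T x y :=
  ⟨fun ⟨_, hv⟩ => acc_of_tab M hH hv, fun ⟨_, hy, h⟩ => tab_of_acc M hy (by omega) h⟩

end PTime
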