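import Pool.Agent.Work.MP_2f1fa1_lc.PNub

/-!
# Division with remainder, take, zipIdx
-/

namespace PTime

variable {α β γ δ σ τ : Type} [Code α] [Code β] [Code γ] [Code δ] [Code σ] [Code τ]

theorem divStep (k i : ℕ) :
    (fun s : ℕ × ℕ => if s.2 + 1 = k then (s.1 + 1, 0) else (s.1, s.2 + 1))^[i] (0, 0) =
      (i / k, i % k) := by
  induction i with
  | zero => simp
  | succ i ih =>
    rw [Function.iterate_succ_apply', ih]
    rcases Nat.eq_zero_or_pos k with rfl | hk
    · simp
    · simp only
      split_ifs with h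
      · have h1 : (i + 1) % k = 0 := by
          rw [← Nat.mod_add_mod, h, Nat.mod_self]
        have h2 : (i + 1) / k = i / k + 1 := by
          have e1 := Nat.div_add_mod i k
          have e2 := Nat.div_add_mod (i + 1) k
          rw [h1] at e2
          have e3 : k * ((i + 1) / k) = k * (i / k + 1) := by
            rw [Nat.mul_add]; omega
          exact Nat.eq_of_mul_eq_mul_left hk e3
        rw [h1, h2]
      · have hlt : i % k + 1 < k := by
          have := Nat.mod_lt i hk
          omega
        have h1 : (i + 1) % k = i % k + 1 := by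
          rw [← Nat.mod_add_mod, Nat.mod_eq_of_lt hlt]
        have h2 : (i + 1) / k = i / k := by
          have e1 := Nat.div_add_mod i k
          have e2 := Nat.div_add_mod (i + 1) k
          rw [h1] at e2
          have e3 : k * ((i + 1) / k) = k * (i / k) := by omega
          exact Nat.eq_of_mul_eq_mul_left hk e3
        rw [h1, h2]

theorem PT.divMod {n k : α → ℕ} (hn : PT n) (hk : PT k) :
    PT (fun a => (n a / k a, n a % k a)) := by
  obtain ⟨q, hq⟩ := hn.size
  have h := PT.iterate (s := fun _ : α => ((0, 0) : ℕ × ℕ))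
    (g := fun x : α × ℕ × ℕ => if x.2.2 + 1 = k x.1 then (x.2.1 + 1, 0) else (x.2.1, x.2.2 + 1))
    hn (PT.const _)
    (PT.ite (PT.natEq ((PT.snd.comp PT.snd).succ) (hk.comp PT.fst))
      (((PT.fst.comp PT.snd).succ).pair (PT.const 0))
      ((PT.fst.comp PT.snd).pair ((PT.snd.comp PT.snd).succ)))
    (2 * q + 3) (by
      intro a i hi
      show sz ((fun s : ℕ × ℕ => if s.2 + 1 = k a then (s.1 + 1, 0) else (s.1, s.2 + 1))^[i]
        (0, 0)) ≤ _
      rw [divStep, sz_pair, sz_nat, sz_nat]
      have h1 := hq a
      rw [sz_nat] at h1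
      have h2 := Nat.div_le_self i (k a)
      have h3 := Nat.mod_le i (k a)
      simp only [Polynomial.eval_add, Polynomial.eval_mul, Polynomial.eval_ofNat]
      omega)
  refine h.congr fun a => ?_
  show (fun s : ℕ × ℕ => if s.2 + 1 = k a then (s.1 + 1, 0) else (s.1, s.2 + 1))^[n a]
    (0, 0) = _
  exact divStep _ _

theorem PT.div {n k : α → ℕ} (hn : PT n) (hk : PT k) : PT (fun a => n a / k a) :=
  PT.fst.comp (hn.divMod hk)

theorem PT.mod {n k : α → ℕ} (hn : PT n) (hk : PT k) : PT (fun a => n a % k a) :=
  PT.snd.comp (hn.divMod hk)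

theorem PT.take {l : α → List β} {n : α → ℕ} (hl : PT l) (hn : PT n) :
    PT (fun a => (l a).take (n a)) := by
  have h := (hl.reverse.drop (hl.length.sub hn)).reverse
  refine h.congr fun a => ?_
  rw [← List.reverse_take, List.reverse_reverse]

theorem PT.getDrange {l : α → List β} {d : α → β} (hl : PT l) (hd : PT d) :
    PT (fun a => (List.range (l a).length).map fun i => (i, (l a).getD i (d a))) :=
  PT.map (g := fun x : α × ℕ => (x.2, (l x.1).getD x.2 (d x.1))) hl.length.range
    (PT.snd.pair (PT.getD (hl.comp PT.fst) PT.snd (hd.comp PT.fst)))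

end PTime
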