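import Pool.Agent.Work.MP_2f1fa1_lc.PPT

/-!
# Bounded folds
-/

namespace PTime

variable {α β γ δ σ : Type} [Code α] [Code β] [Code γ] [Code δ] [Code σ]

/-- set the flag (register 3) if register 2 has top 1 -/
def setFlag : Prog := .cas 2 .skip .skip (.push 3 true)

/-- the flag of a list -/
def flag (l : List β) : List Bool := match l with
  | [] => []
  | _ :: _ => [true]

/-- body of the loop -/
def foldB (p : Prog) : Prog :=
  .seq (.pop 3) (.seq (.pop 2) (.seq (parse 2 4 5) (.seq (mv 4 6) (.seq (mv 1 5)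
    (.seq (mv 5 6) (.seq (.push 6 true) (.seq (mv 0 5) (.seq (dup 5 0 6) (.seq (.push 6 true)
      (.seq (p.shift 6) (.seq (mv 6 5) (.seq (mv 5 1) setFlag))))))))))))

theorem run_setFlag (x y : List Bool) (l : List β) :
    Run setFlag (mk [x, y, enc l, [], [], [], []]) (mk [x, y, enc l, flag l, [], [], []]) 2 := by
  cases l with
  | nil => exact run_cas0 (l := []) rfl (run_skip _)
  | cons b l =>
    refine run_cas1 (l := enc b ++ enc l) rfl ?_
    exact push_mk (by simp) rfl

theorem run_foldB {p : Prog} {q : Polynomial ℕ} {g : α × σ × β → σ}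
    (hp : ∀ a, Run p (mk [enc a]) (mk [enc (g a)]) (q.eval (sz a))) (a : α) (s : σ) (b : β)
    (l : List β) :
    Run (foldB p) (mk [enc a, enc s, enc (b :: l), flag (b :: l), [], [], []])
      (mk [enc a, enc (g (a, s, b)), enc l, flag l, [], [], []])
      (12 * sz a + 10 * sz s + 12 * sz b + 10 * sz (g (a, s, b)) + q.eval (sz a + sz s + sz b + 2)
        + 50) := by
  have ha : (enc a).length = sz a := rfl
  have hss : (enc s).length = sz s := rfl
  have hb : (enc b).length = sz b := rfl
  have hg : (enc (g (a, s, b))).length = sz (g (a, s, b)) := rfl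
  have r1 : Run (.pop 3) (mk [enc a, enc s, enc (b :: l), flag (b :: l), [], [], []])
      (mk [enc a, enc s, enc (b :: l), [], [], [], []]) 1 := pop_mk (by simp) rfl
  have r2 : Run (.pop 2) (mk [enc a, enc s, enc (b :: l), [], [], [], []])
      (mk [enc a, enc s, enc b ++ enc l, [], [], [], []]) 1 := pop_mk (by simp) rfl
  have r3 : Run (parse 2 4 5) (mk [enc a, enc s, enc b ++ enc l, [], [], [], []])
      (mk [enc a, enc s, enc l, [], (enc b).reverse, [], []]) (7 * sz b + 3) :=
    parse_mk (a := Code.toT b) (r := enc l) (by decide) (by decide) (by decide) (by simp)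
      (by simp) (by simp) rfl rfl (by simp [mk, enc]) le_rfl
  have r4 : Run (mv 4 6) (mk [enc a, enc s, enc l, [], (enc b).reverse, [], []])
      (mk [enc a, enc s, enc l, [], [], [], enc b]) (5 * sz b + 1) :=
    mv_mk (x := (enc b).reverse) (by decide) (by simp) (by simp) rfl (by simp [mk])
      (by simp [hb])
  have r5 : Run (mv 1 5) (mk [enc a, enc s, enc l, [], [], [], enc b])
      (mk [enc a, [], enc l, [], [], (enc s).reverse, enc b]) (5 * sz s + 1) :=
    mv_mk (x := enc s) (by decide) (by simp) (by simp) rfl (by simp [mk]) le_rfl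
  have r6 : Run (mv 5 6) (mk [enc a, [], enc l, [], [], (enc s).reverse, enc b])
      (mk [enc a, [], enc l, [], [], [], enc s ++ enc b]) (5 * sz s + 1) :=
    mv_mk (x := (enc s).reverse) (by decide) (by simp) (by simp) rfl (by simp [mk])
      (by simp [hss])
  have r7 : Run (.push 6 true) (mk [enc a, [], enc l, [], [], [], enc s ++ enc b])
      (mk [enc a, [], enc l, [], [], [], enc (s, b)]) 1 := push_mk (by simp) rfl
  have r8 : Run (mv 0 5) (mk [enc a, [], enc l, [], [], [], enc (s, b)])
      (mk [[], [], enc l, [], [], (enc a).reverse, enc (s, b)]) (5 * sz a + 1) :=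
    mv_mk (x := enc a) (by decide) (by simp) (by simp) rfl (by simp [mk]) le_rfl
  have r9 : Run (dup 5 0 6) (mk [[], [], enc l, [], [], (enc a).reverse, enc (s, b)])
      (mk [enc a, [], enc l, [], [], [], enc a ++ enc (s, b)]) (7 * sz a + 1) :=
    dup_mk (x := (enc a).reverse) (by decide) (by decide) (by decide) (by simp) (by simp)
      (by simp) rfl (by simp [mk]) (by simp [ha])
  have r10 : Run (.push 6 true) (mk [enc a, [], enc l, [], [], [], enc a ++ enc (s, b)])
      (mk [enc a, [], enc l, [], [], [], enc (a, s, b)]) 1 := push_mk (by simp) rfl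
  have e1 : sz (a, s, b) = sz a + sz s + sz b + 2 := by rw [sz_pair, sz_pair]; ring
  have r11 : Run (p.shift 6) (mk [enc a, [], enc l, [], [], [], enc (a, s, b)])
      (mk [enc a, [], enc l, [], [], [], enc (g (a, s, b))])
      (q.eval (sz a + sz s + sz b + 2)) := by
    rw [← e1]
    exact (hp (a, s, b)).sub [enc a, [], enc l, [], [], []] 0
  have r12 : Run (mv 6 5) (mk [enc a, [], enc l, [], [], [], enc (g (a, s, b))])
      (mk [enc a, [], enc l, [], [], (enc (g (a, s, b))).reverse, []])
      (5 * sz (g (a, s, b)) + 1) :=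
    mv_mk (x := enc (g (a, s, b))) (by decide) (by simp) (by simp) rfl (by simp [mk]) le_rfl
  have r13 : Run (mv 5 1) (mk [enc a, [], enc l, [], [], (enc (g (a, s, b))).reverse, []])
      (mk [enc a, enc (g (a, s, b)), enc l, [], [], [], []])
      (5 * sz (g (a, s, b)) + 1) :=
    mv_mk (x := (enc (g (a, s, b))).reverse) (by decide) (by simp) (by simp) rfl
      (by simp [mk]) (by simp [hg])
  have r14 := run_setFlag (enc a) (enc (g (a, s, b))) l
  refine (r1.seq (r2.seq (r3.seq (r4.seq (r5.seq (r6.seq (r7.seq (r8.seq (r9.seq (r10.seq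
    (r11.seq (r12.seq (r13.seq r14))))))))))))).mono ?_
  omega

theorem run_foldL {p : Prog} {q : Polynomial ℕ} {g : α × σ × β → σ}
    (hp : ∀ a, Run p (mk [enc a]) (mk [enc (g a)]) (q.eval (sz a))) (a : α) (M : ℕ)
    (l : List β) : ∀ s : σ,
    (∀ l' : List β, l' <+: l → sz (l'.foldl (fun s b => g (a, s, b)) s) ≤ M) →
    Run (.loop 3 (foldB p)) (mk [enc a, enc s, enc l, flag l, [], [], []])
      (mk [enc a, enc (l.foldl (fun s b => g (a, s, b)) s), [false], [], [], [], []])
      (l.length * (12 * sz a + 20 * M + 12 * sz l + q.eval (sz a + M + sz l + 2) + 51) + 1) := by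
  induction l with
  | nil =>
    intro s _
    refine (run_loopE rfl).cast rfl rfl (by omega)
  | cons b l ih =>
    intro s hs
    have h0 : sz s ≤ M := hs [] (by simp)
    have h1 : sz (g (a, s, b)) ≤ M := hs [b] (by simp)
    have h2 := ih (g (a, s, b)) (fun l' hl' => by
      have := hs (b :: l') (by simpa using hl')
      simpa using this)
    have h3 := run_foldB hp a s b l
    have h4 := run_loopS (by simp [mk, flag]) h3 h2
    refine h4.mono ?_
    have e1 := sz_cons b l
    have e2 : q.eval (sz a + sz s + sz b + 2) ≤ q.eval (sz a + M + sz (b :: l) + 2) :=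
      eval_mono q (by omega)
    have e3 : q.eval (sz a + M + sz l + 2) ≤ q.eval (sz a + M + sz (b :: l) + 2) :=
      eval_mono q (by omega)
    have e4 : l.length * (12 * sz a + 20 * M + 12 * sz l + q.eval (sz a + M + sz l + 2) + 51) ≤
        l.length * (12 * sz a + 20 * M + 12 * sz (b :: l) + q.eval (sz a + M + sz (b :: l) + 2)
          + 51) := Nat.mul_le_mul_left _ (by omega)
    rw [List.length_cons, Nat.add_mul l.length 1, one_mul]
    omega

theorem length_le_sz (l : List β) : l.length ≤ sz l := by
  induction l with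
  | nil => simp
  | cons b l ih => rw [sz_cons, List.length_cons]; omega

/-- bounded folds -/
theorem PT.foldl {l : α → List β} {s : α → σ} {g : α × σ × β → σ} (hl : PT l) (hs : PT s)
    (hg : PT g) (M : Polynomial ℕ)
    (hM : ∀ a, ∀ l' : List β, l' <+: l a →
      sz (l'.foldl (fun s b => g (a, s, b)) (s a)) ≤ M.eval (sz a)) :
    PT (fun a => (l a).foldl (fun s b => g (a, s, b)) (s a)) := by
  obtain ⟨pl, ql, hpl⟩ := hl
  obtain ⟨ps, qs, hps⟩ := hs
  obtain ⟨p, q, hp⟩ := hg
  refine ⟨.seq cp01 (.seq (ps.shift 1) (.seq (mv 0 3) (.seq (dup 3 0 2) (.seq (pl.shift 2)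
    (.seq setFlag (.seq (.loop 3 (foldB p)) (.seq (clr 0) (.seq (.pop 2) (.seq (mv 1 2)
      (mv 2 0)))))))))),
    60 * Polynomial.X + qs + ql + 10 * M + 100 + (Polynomial.X + ql) *
      (12 * Polynomial.X + 20 * M + 12 * (Polynomial.X + ql) +
        q.comp (Polynomial.X + M + (Polynomial.X + ql) + 2) + 51), fun a => ?_⟩
  have ha : (enc a).length = sz a := rfl
  set r : σ := (l a).foldl (fun s b => g (a, s, b)) (s a) with hr
  have hrl : (enc r).length = sz r := rfl
  have hrM : sz r ≤ M.eval (sz a) := hM a (l a) (List.prefix_refl _)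
  have hla : sz (l a) ≤ sz a + ql.eval (sz a) := by
    have := (hpl a).length_le 0
    simpa [mk, sz] using this
  have r1 : Run cp01 (mk [enc a, [], [], [], [], [], []])
      (mk [enc a, enc a, [], [], [], [], []]) (12 * sz a + 3) :=
    (run_cp01 (enc a)).cast (mk_nils [enc a, [], [], []] 3).symm
      (mk_nils [enc a, enc a, [], []] 3).symm le_rfl
  have r2 : Run (ps.shift 1) (mk [enc a, enc a, [], [], [], [], []])
      (mk [enc a, enc (s a), [], [], [], [], []]) (qs.eval (sz a)) := (hps a).sub [enc a] 5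
  have r3 : Run (mv 0 3) (mk [enc a, enc (s a), [], [], [], [], []])
      (mk [[], enc (s a), [], (enc a).reverse, [], [], []]) (5 * sz a + 1) :=
    mv_mk (x := enc a) (by decide) (by simp) (by simp) rfl (by simp [mk]) le_rfl
  have r4 : Run (dup 3 0 2) (mk [[], enc (s a), [], (enc a).reverse, [], [], []])
      (mk [enc a, enc (s a), enc a, [], [], [], []]) (7 * sz a + 1) :=
    dup_mk (x := (enc a).reverse) (by decide) (by decide) (by decide) (by simp) (by simp)
      (by simp) rfl (by simp [mk]) (by simp [ha])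
  have r5 : Run (pl.shift 2) (mk [enc a, enc (s a), enc a, [], [], [], []])
      (mk [enc a, enc (s a), enc (l a), [], [], [], []]) (ql.eval (sz a)) :=
    (hpl a).sub [enc a, enc (s a)] 4
  have r6 := run_setFlag (enc a) (enc (s a)) (l a)
  have r7 := run_foldL hp a (M.eval (sz a)) (l a) (s a) (hM a)
  rw [← hr] at r7
  have r8 : Run (clr 0) (mk [enc a, enc r, [false], [], [], [], []])
      (mk [[], enc r, [false], [], [], [], []]) (2 * sz a + 1) :=
    clr_mk (x := enc a) (by simp) rfl (by simp) le_rfl
  have r9 : Run (.pop 2) (mk [[], enc r, [false], [], [], [], []])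
      (mk [[], enc r, [], [], [], [], []]) 1 := pop_mk (by simp) rfl
  have r10 : Run (mv 1 2) (mk [[], enc r, [], [], [], [], []])
      (mk [[], [], (enc r).reverse, [], [], [], []]) (5 * sz r + 1) :=
    mv_mk (x := enc r) (by decide) (by simp) (by simp) rfl (by simp [mk]) le_rfl
  have r11 : Run (mv 2 0) (mk [[], [], (enc r).reverse, [], [], [], []])
      (mk [enc r, [], [], [], [], [], []]) (5 * sz r + 1) :=
    mv_mk (x := (enc r).reverse) (by decide) (by simp) (by simp) rfl (by simp [mk])
      (by simp [hrl])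
  have hlen : (l a).length ≤ sz a + ql.eval (sz a) := (length_le_sz _).trans hla
  have e1 : q.eval (sz a + M.eval (sz a) + sz (l a) + 2) ≤
      q.eval (sz a + M.eval (sz a) + (sz a + ql.eval (sz a)) + 2) := eval_mono q (by omega)
  have e2 : (l a).length * (12 * sz a + 20 * M.eval (sz a) + 12 * sz (l a) +
      q.eval (sz a + M.eval (sz a) + sz (l a) + 2) + 51) ≤
      (sz a + ql.eval (sz a)) * (12 * sz a + 20 * M.eval (sz a) + 12 * (sz a + ql.eval (sz a)) +
      q.eval (sz a + M.eval (sz a) + (sz a + ql.eval (sz a)) + 2) + 51) :=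
    Nat.mul_le_mul hlen (by omega)
  refine (r1.seq (r2.seq (r3.seq (r4.seq (r5.seq (r6.seq (r7.seq (r8.seq (r9.seq (r10.seq
    r11)))))))))).cast (mk_nils [enc a] 6) (mk_nils [enc r] 6) ?_
  simp only [Polynomial.eval_add, Polynomial.eval_mul, Polynomial.eval_X,
    Polynomial.eval_ofNat, Polynomial.eval_comp]
  omega

end PTime
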