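import Pool.Agent.Work.MP_2f1fa1_lc.PFold

/-!
# A library of polynomial time functions
-/

namespace PTime

variable {α β γ δ σ τ : Type} [Code α] [Code β] [Code γ] [Code δ] [Code σ] [Code τ]

/-! ### sizes -/

theorem sz_prefix {l' l : List β} (h : l' <+: l) : sz l' ≤ sz l := by
  obtain ⟨t, rfl⟩ := h
  induction l' with
  | nil => simpa [sz_nil] using sz_pos t
  | cons b l' ih => rw [List.cons_append, sz_cons, sz_cons]; omega

theorem sz_mem {l : List β} {b : β} (h : b ∈ l) : sz b ≤ sz l := by
  induction l with
  | nil => simp at h
  | cons c l ih =>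
    rw [sz_cons]
    rcases List.mem_cons.1 h with rfl | h
    · omega
    · have := ih h; omega

theorem sz_append (l l' : List β) : sz (l ++ l') + 1 = sz l + sz l' := by
  induction l with
  | nil => rw [List.nil_append, sz_nil]; omega
  | cons b l ih => rw [List.cons_append, sz_cons, sz_cons]; omega

theorem sz_reverse (l : List β) : sz l.reverse = sz l := by
  induction l with
  | nil => rfl
  | cons b l ih =>
    have := sz_append l.reverse [b]
    rw [List.reverse_cons, sz_cons]
    rw [sz_cons, sz_nil] at this
    omega

theorem sz_list_le {l : List β} {B : ℕ} (h : ∀ b ∈ l, sz b ≤ B) :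
    sz l ≤ l.length * (B + 1) + 1 := by
  induction l with
  | nil => simp [sz_nil]
  | cons b l ih =>
    have h1 := ih fun c hc => h c (List.mem_cons_of_mem _ hc)
    have h2 := h b List.mem_cons_self
    rw [sz_cons, List.length_cons, Nat.add_mul l.length 1, one_mul]
    omega

theorem sz_nat (n : ℕ) : sz n = 2 * n + 1 := by
  induction n with
  | zero => rfl
  | succ n ih =>
    have : sz (n + 1) = sz n + 2 := rfl
    rw [this, ih]
    ring

theorem sz_bool (b : Bool) : sz b ≤ 3 := by cases b <;> decide

/-! ### basic combinators -/

theorem PT.congr {f g : α → β} (h : PT f) (e : ∀ a, f a = g a) : PT g := by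
  have : f = g := funext e
  exact this ▸ h

theorem PT.comp2 {f : α → β} {g : α → γ} {h : β × γ → δ} (hh : PT h) (hf : PT f) (hg : PT g) :
    PT (fun a => h (f a, g a)) := hh.comp (hf.pair hg)

theorem PT.fst' {f : α → β × γ} (hf : PT f) : PT (fun a => (f a).1) := PT.fst.comp hf

theorem PT.snd' {f : α → β × γ} (hf : PT f) : PT (fun a => (f a).2) := PT.snd.comp hf

theorem PT.cons {f : α → β} {g : α → List β} (hf : PT f) (hg : PT g) :
    PT (fun a => f a :: g a) := by
  have h : PT (fun x : β × List β => x.1 :: x.2) := PT.recode fun _ => rfl
  exact h.comp2 hf hg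

theorem PT.ite {P : α → Prop} [DecidablePred P] {f g : α → β} (hc : PT (fun a => decide (P a)))
    (hf : PT f) (hg : PT g) : PT (fun a => if P a then f a else g a) := by
  have h := PT.cond hc hf hg
  have e : (fun a => bif decide (P a) then f a else g a) =
      fun a => if P a then f a else g a := by
    funext a
    by_cases h : P a <;> simp [h]
  rwa [e] at h

theorem PT.and {f g : α → Bool} (hf : PT f) (hg : PT g) : PT (fun a => f a && g a) := by
  have h := PT.cond hf hg (PT.const (α := α) false)
  have e : (fun a => bif f a then g a else false) = fun a => f a && g a := by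
    funext a; cases f a <;> simp
  rwa [e] at h

theorem PT.or {f g : α → Bool} (hf : PT f) (hg : PT g) : PT (fun a => f a || g a) := by
  have h := PT.cond hf (PT.const (α := α) true) hg
  have e : (fun a => bif f a then true else g a) = fun a => f a || g a := by
    funext a; cases f a <;> simp
  rwa [e] at h

theorem PT.not {f : α → Bool} (hf : PT f) : PT (fun a => !f a) := by
  have h := PT.cond hf (PT.const (α := α) false) (PT.const (α := α) true)
  have e : (fun a => bif f a then false else true) = fun a => !f a := by
    funext a; cases f a <;> simp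
  rwa [e] at h

/-! ### lists -/

theorem PT.headD {l : α → List β} {d : α → β} (hl : PT l) (hd : PT d) :
    PT (fun a => (l a).headD (d a)) := by
  have h := PT.listCases (g := fun x : α × β × List β => x.2.1) hl hd
    (PT.fst.comp PT.snd)
  exact h.congr fun a => by cases l a <;> rfl

theorem PT.tail {l : α → List β} (hl : PT l) : PT (fun a => (l a).tail) := by
  have h := PT.listCases (g := fun x : α × β × List β => x.2.2) hl
    (PT.const (α := α) ([] : List β)) (PT.snd.comp PT.snd)
  exact h.congr fun a => by cases l a <;> rfl

theorem PT.isEmpty {l : α → List β} (hl : PT l) : PT (fun a => (l a).isEmpty) := by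
  have h := PT.listCases (g := fun _ : α × β × List β => false) hl
    (PT.const (α := α) true) (PT.const false)
  exact h.congr fun a => by cases l a <;> rfl

theorem PT.reverseAppend {l l' : α → List β} (hl : PT l) (hl' : PT l') :
    PT (fun a => (l a).reverse ++ l' a) := by
  obtain ⟨q, hq⟩ := hl.size
  obtain ⟨q', hq'⟩ := hl'.size
  have h := PT.foldl (g := fun x : α × List β × β => x.2.2 :: x.2.1) hl hl'
    ((PT.snd.comp PT.snd).cons (PT.fst.comp PT.snd)) (q + q') (by
      intro a m hm
      have e : m.foldl (fun s b => b :: s) (l' a) = m.reverse ++ l' a := by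
        induction m generalizing l' with
        | nil => rfl
        | cons b m ih => simp
      show sz (m.foldl (fun s b => b :: s) (l' a)) ≤ _
      rw [e]
      have h1 := sz_append m.reverse (l' a)
      rw [sz_reverse] at h1
      have h2 := sz_prefix hm
      have h3 := hq a
      have h4 := hq' a
      simp only [Polynomial.eval_add]
      omega)
  have e : (fun a => (l a).foldl (fun s b => b :: s) (l' a)) =
      fun a => (l a).reverse ++ l' a := by
    funext a
    simp
  exact e ▸ h

theorem PT.reverse {l : α → List β} (hl : PT l) : PT (fun a => (l a).reverse) := by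
  have h := PT.reverseAppend hl (PT.const (α := α) ([] : List β))
  simpa using h

theorem PT.append {l l' : α → List β} (hl : PT l) (hl' : PT l') :
    PT (fun a => l a ++ l' a) := by
  have h := PT.reverseAppend hl.reverse hl'
  simpa using h

theorem PT.map {l : α → List β} {g : α × β → γ} (hl : PT l) (hg : PT g) :
    PT (fun a => (l a).map fun b => g (a, b)) := by
  obtain ⟨q, hq⟩ := hl.size
  obtain ⟨q', hq'⟩ := hg.size
  have e0 : ∀ (a : α) (m : List β) (s : List γ),
      m.foldl (fun s b => g (a, b) :: s) s = (m.map fun b => g (a, b)).reverse ++ s := by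
    intro a m
    induction m with
    | nil => intro s; rfl
    | cons b m ih => intro s; simp [ih]
  have hg' : PT (fun x : α × List γ × β => g (x.1, x.2.2) :: x.2.1) :=
    (hg.comp (PT.fst.pair (PT.snd.comp PT.snd))).cons (PT.fst.comp PT.snd)
  have h := PT.foldl (g := fun x : α × List γ × β => g (x.1, x.2.2) :: x.2.1) hl
    (PT.const (α := α) ([] : List γ)) hg'
    (q * (q'.comp (Polynomial.X + q + 1) + 1) + 1) (by
      intro a m hm
      show sz (m.foldl (fun s b => g (a, b) :: s) []) ≤ _
      rw [e0, List.append_nil, sz_reverse]
      have h1 : ∀ c ∈ m.map (fun b => g (a, b)),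
          sz c ≤ q'.eval (sz a + q.eval (sz a) + 1) := by
        intro c hc
        obtain ⟨b, hb, rfl⟩ := List.mem_map.1 hc
        refine (hq' _).trans (eval_mono q' ?_)
        rw [sz_pair]
        have := sz_mem (hm.subset hb)
        have := hq a
        omega
      have h2 := sz_list_le h1
      rw [List.length_map] at h2
      have h3 : m.length ≤ q.eval (sz a) :=
        hm.length_le.trans ((length_le_sz _).trans (hq a))
      simp only [Polynomial.eval_add, Polynomial.eval_mul, Polynomial.eval_comp,
        Polynomial.eval_X, Polynomial.eval_one]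
      exact h2.trans (Nat.add_le_add_right (Nat.mul_le_mul_right _ h3) 1))
  have h' := h.reverse
  have e : (fun a => ((l a).foldl (fun s b => g (a, b) :: s) []).reverse) =
      fun a => (l a).map fun b => g (a, b) := by
    funext a
    rw [e0]
    simp
  exact e ▸ h'

theorem PT.flatten {l : α → List (List β)} (hl : PT l) : PT (fun a => (l a).flatten) := by
  obtain ⟨q, hq⟩ := hl.size
  have e0 : ∀ (m : List (List β)) (s : List β),
      m.foldl (fun s b => s ++ b) s = s ++ m.flatten := by
    intro m
    induction m with
    | nil => intro s; simp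
    | cons b m ih => intro s; simp [ih]
  have e1 : ∀ m : List (List β), sz m.flatten ≤ sz m := by
    intro m
    induction m with
    | nil => simp [sz_nil]
    | cons b m ih =>
      have := sz_append b m.flatten
      rw [List.flatten_cons, sz_cons]
      omega
  have hg' : PT (fun x : α × List β × List β => x.2.1 ++ x.2.2) :=
    (PT.fst.comp PT.snd).append (PT.snd.comp PT.snd)
  have h := PT.foldl (g := fun x : α × List β × List β => x.2.1 ++ x.2.2) hl
    (PT.const (α := α) ([] : List β)) hg' q (by
      intro a m hm
      show sz (m.foldl (fun s b => s ++ b) []) ≤ _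
      rw [e0, List.nil_append]
      exact (e1 m).trans ((sz_prefix hm).trans (hq a)))
  have e : (fun a => (l a).foldl (fun s b => s ++ b) []) = fun a => (l a).flatten := by
    funext a
    rw [e0]
    simp
  exact e ▸ h

theorem PT.flatMap {l : α → List β} {g : α × β → List γ} (hl : PT l) (hg : PT g) :
    PT (fun a => (l a).flatMap fun b => g (a, b)) := by
  have := (PT.map hl hg).flatten
  exact this

theorem PT.filter {l : α → List β} {p : α × β → Bool} (hl : PT l) (hp : PT p) :
    PT (fun a => (l a).filter fun b => p (a, b)) := by
  have h := PT.flatMap (g := fun x : α × β => bif p x then [x.2] else []) hl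
    (PT.cond hp (PT.snd.cons (PT.const [])) (PT.const []))
  have e : (fun a => (l a).flatMap fun b => bif p (a, b) then [b] else []) =
      fun a => (l a).filter fun b => p (a, b) := by
    funext a
    induction l a with
    | nil => rfl
    | cons b m ih =>
      rw [List.flatMap_cons, ih, List.filter_cons]
      cases p (a, b) <;> simp
  exact e ▸ h

/-! ### natural numbers in unary -/

theorem PT.replicate {n : α → ℕ} (hn : PT n) : PT (fun a => List.replicate (n a) ()) := by
  have h : PT (fun n : ℕ => List.replicate n ()) := by
    refine PT.recode fun n => ?_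
    induction n with
    | zero => rfl
    | succ n ih =>
      show listT _ (() :: List.replicate n ()) = natT (n + 1)
      show T.node _ (listT _ (List.replicate n ())) = T.node _ (natT n)
      rw [show listT Code.toT (List.replicate n ()) = natT n from ih]
      rfl
  exact h.comp hn

theorem PT.succ {n : α → ℕ} (hn : PT n) : PT (fun a => n a + 1) := by
  have h : PT (fun x : Unit × ℕ => x.2 + 1) := PT.recode fun _ => rfl
  exact h.comp ((PT.const ()).pair hn)

/-- iteration -/
theorem PT.iterate {n : α → ℕ} {s : α → σ} {g : α × σ → σ} (hn : PT n) (hs : PT s) (hg : PT g)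
    (M : Polynomial ℕ) (hM : ∀ a, ∀ k ≤ n a, sz ((fun s => g (a, s))^[k] (s a)) ≤ M.eval (sz a)) :
    PT (fun a => (fun s => g (a, s))^[n a] (s a)) := by
  have e0 : ∀ (a : α) (l : List Unit) (s : σ),
      l.foldl (fun s _ => g (a, s)) s = (fun s => g (a, s))^[l.length] s := by
    intro a l
    induction l with
    | nil => intro s; rfl
    | cons b l ih => intro s; simp [ih]
  have h := PT.foldl (g := fun x : α × σ × Unit => g (x.1, x.2.1)) hn.replicate hs
    (hg.comp (PT.fst.pair (PT.fst.comp PT.snd))) M (by
      intro a l' hl'
      show sz (l'.foldl (fun s _ => g (a, s)) (s a)) ≤ _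
      rw [e0]
      refine hM a _ ?_
      simpa using hl'.length_le)
  have e : (fun a => (List.replicate (n a) ()).foldl (fun s _ => g (a, s)) (s a)) =
      fun a => (fun s => g (a, s))^[n a] (s a) := by
    funext a
    rw [e0, List.length_replicate]
  exact e ▸ h

theorem PT.add {m n : α → ℕ} (hm : PT m) (hn : PT n) : PT (fun a => m a + n a) := by
  obtain ⟨q, hq⟩ := hm.size
  obtain ⟨q', hq'⟩ := hn.size
  have h := PT.iterate (g := fun x : α × ℕ => x.2 + 1) hn hm (PT.snd.succ) (2 * q + 2 * q') (by
    intro a k hk
    show sz (Nat.succ^[k] (m a)) ≤ _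
    rw [Nat.succ_iterate, sz_nat]
    have h1 := hq a
    have h2 := hq' a
    rw [sz_nat] at h1 h2
    simp only [Polynomial.eval_add, Polynomial.eval_mul, Polynomial.eval_ofNat]
    omega)
  have e : (fun a => Nat.succ^[n a] (m a)) = fun a => m a + n a := by
    funext a
    rw [Nat.succ_iterate]
  exact e ▸ h

theorem PT.mul {m n : α → ℕ} (hm : PT m) (hn : PT n) : PT (fun a => m a * n a) := by
  obtain ⟨q, hq⟩ := hm.size
  obtain ⟨q', hq'⟩ := hn.size
  have e0 : ∀ (c k : ℕ), (fun s => s + c)^[k] 0 = c * k := by
    intro c k
    induction k with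
    | zero => simp
    | succ k ih => rw [Function.iterate_succ_apply', ih]; ring
  have h := PT.iterate (g := fun x : α × ℕ => x.2 + m x.1) hn (PT.const (α := α) 0)
    (PT.snd.add (hm.comp PT.fst)) (2 * (q * q') + 1) (by
    intro a k hk
    show sz ((fun s => s + m a)^[k] 0) ≤ _
    rw [e0, sz_nat]
    have h1 := hq a
    have h2 := hq' a
    rw [sz_nat] at h1 h2
    have h3 : m a * k ≤ q.eval (sz a) * q'.eval (sz a) :=
      Nat.mul_le_mul (by omega) (by omega)
    simp only [Polynomial.eval_add, Polynomial.eval_mul, Polynomial.eval_ofNat,
      Polynomial.eval_one]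
    omega)
  have e : (fun a => (fun s => s + m a)^[n a] 0) = fun a => m a * n a := by
    funext a
    rw [e0]
  exact e ▸ h

theorem PT.pred {n : α → ℕ} (hn : PT n) : PT (fun a => n a - 1) := by
  have h1 : PT (fun n : ℕ => (List.replicate n ()).tail) := (PT.id.replicate).tail
  have h2 : PT (fun n : ℕ => n - 1) := by
    obtain ⟨p, q, hp⟩ := h1
    refine ⟨p, q, fun n => ?_⟩
    refine (hp n).cast rfl ?_ le_rfl
    have e : ∀ k : ℕ, enc (List.replicate k ()) = enc k := by
      intro k
      unfold enc
      congr 1
      induction k with
      | zero => rfl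
      | succ k ih =>
        show T.node _ (listT _ (List.replicate k ())) = T.node _ (natT k)
        rw [show listT Code.toT (List.replicate k ()) = natT k from ih]
        rfl
    show mk [enc (List.replicate n ()).tail] = mk [enc (n - 1)]
    rw [List.tail_replicate, e]
  exact h2.comp hn

theorem PT.sub {m n : α → ℕ} (hm : PT m) (hn : PT n) : PT (fun a => m a - n a) := by
  obtain ⟨q, hq⟩ := hm.size
  have e0 : ∀ (c k : ℕ), (fun s => s - 1)^[k] c = c - k := by
    intro c k
    induction k with
    | zero => simp
    | succ k ih => rw [Function.iterate_succ_apply', ih]; omega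
  have h := PT.iterate (g := fun x : α × ℕ => x.2 - 1) hn hm (PT.snd.pred) q (by
    intro a k hk
    show sz ((fun s => s - 1)^[k] (m a)) ≤ _
    rw [e0, sz_nat]
    have h1 := hq a
    rw [sz_nat] at h1
    omega)
  have e : (fun a => (fun s => s - 1)^[n a] (m a)) = fun a => m a - n a := by
    funext a
    rw [e0]
  exact e ▸ h

theorem PT.isZero {n : α → ℕ} (hn : PT n) : PT (fun a => decide (n a = 0)) := by
  have h := hn.replicate.isEmpty
  have e : (fun a => (List.replicate (n a) ()).isEmpty) = fun a => decide (n a = 0) := by
    funext a
    cases n a <;> simp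
  exact e ▸ h

theorem PT.le {m n : α → ℕ} (hm : PT m) (hn : PT n) : PT (fun a => decide (m a ≤ n a)) := by
  have h := (hm.sub hn).isZero
  have e : (fun a => decide (m a - n a = 0)) = fun a => decide (m a ≤ n a) := by
    funext a
    simp only [Nat.sub_eq_zero_iff_le]
  exact e ▸ h

theorem PT.lt {m n : α → ℕ} (hm : PT m) (hn : PT n) : PT (fun a => decide (m a < n a)) :=
  PT.le hm.succ hn

theorem PT.natEq {m n : α → ℕ} (hm : PT m) (hn : PT n) : PT (fun a => decide (m a = n a)) := by
  have h := (hm.le hn).and (hn.le hm)
  have e : (fun a => decide (m a ≤ n a) && decide (n a ≤ m a)) =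
      fun a => decide (m a = n a) := by
    funext a
    rw [← Bool.decide_and]
    congr 1
    exact propext ⟨fun h => le_antisymm h.1 h.2, fun h => ⟨h.le, h.ge⟩⟩
  exact e ▸ h

theorem PT.length {l : α → List β} (hl : PT l) : PT (fun a => (l a).length) := by
  obtain ⟨q, hq⟩ := hl.size
  have e0 : ∀ (m : List β) (s : ℕ), m.foldl (fun s _ => s + 1) s = s + m.length := by
    intro m
    induction m with
    | nil => intro s; rfl
    | cons b m ih => intro s; rw [List.foldl_cons, ih, List.length_cons]; ring
  have h := PT.foldl (g := fun x : α × ℕ × β => x.2.1 + 1) hl (PT.const (α := α) 0)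
    ((PT.fst.comp PT.snd).succ) (2 * q + 1) (by
      intro a m hm
      show sz (m.foldl (fun s _ => s + 1) 0) ≤ _
      rw [e0, sz_nat]
      have h3 : m.length ≤ q.eval (sz a) :=
        hm.length_le.trans ((length_le_sz _).trans (hq a))
      simp only [Polynomial.eval_add, Polynomial.eval_mul, Polynomial.eval_ofNat,
        Polynomial.eval_one]
      omega)
  have e : (fun a => (l a).foldl (fun s _ => s + 1) 0) = fun a => (l a).length := by
    funext a
    rw [e0, Nat.zero_add]
  exact e ▸ h

theorem PT.range {n : α → ℕ} (hn : PT n) : PT (fun a => List.range (n a)) := by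
  obtain ⟨q, hq⟩ := hn.size
  have e0 : ∀ k : ℕ, (fun s : List ℕ => s ++ [s.length])^[k] [] = List.range k := by
    intro k
    induction k with
    | zero => rfl
    | succ k ih => rw [Function.iterate_succ_apply', ih, List.range_succ, List.length_range]
  have h := PT.iterate (g := fun x : α × List ℕ => x.2 ++ [x.2.length]) hn
    (PT.const (α := α) ([] : List ℕ)) (PT.snd.append (PT.snd.length.cons (PT.const [])))
    (q * (2 * q + 2) + 1) (by
      intro a k hk
      show sz ((fun s : List ℕ => s ++ [s.length])^[k] []) ≤ _
      rw [e0]
      have h1 := hq a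
      rw [sz_nat] at h1
      have h2 : ∀ c ∈ List.range k, sz c ≤ 2 * q.eval (sz a) + 1 := by
        intro c hc
        rw [List.mem_range] at hc
        rw [sz_nat]
        omega
      have h3 := sz_list_le h2
      rw [List.length_range] at h3
      simp only [Polynomial.eval_add, Polynomial.eval_mul, Polynomial.eval_ofNat,
        Polynomial.eval_one]
      refine h3.trans (Nat.add_le_add_right (Nat.mul_le_mul (by omega) (by omega)) 1))
  have e : (fun a => (fun s : List ℕ => s ++ [s.length])^[n a] []) =
      fun a => List.range (n a) := by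
    funext a
    rw [e0]
  exact e ▸ h

theorem PT.drop {l : α → List β} {n : α → ℕ} (hl : PT l) (hn : PT n) :
    PT (fun a => (l a).drop (n a)) := by
  obtain ⟨q, hq⟩ := hl.size
  have e0 : ∀ (k : ℕ) (m : List β), (fun s : List β => s.tail)^[k] m = m.drop k := by
    intro k
    induction k with
    | zero => intro m; rfl
    | succ k ih => intro m; rw [Function.iterate_succ_apply, ih]; cases m <;> simp
  have e1 : ∀ (k : ℕ) (m : List β), sz (m.drop k) ≤ sz m := by
    intro k
    induction k with
    | zero => intro m; simp
    | succ k ih =>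
      intro m
      cases m with
      | nil => simp
      | cons b m =>
        rw [List.drop_succ_cons, sz_cons]
        have := ih m
        omega
  have h := PT.iterate (g := fun x : α × List β => x.2.tail) hn hl (PT.snd.tail) q (by
    intro a k hk
    show sz ((fun s : List β => s.tail)^[k] (l a)) ≤ _
    rw [e0]
    exact (e1 _ _).trans (hq a))
  have e : (fun a => (fun s : List β => s.tail)^[n a] (l a)) = fun a => (l a).drop (n a) := by
    funext a
    rw [e0]
  exact e ▸ h

theorem PT.getD {l : α → List β} {n : α → ℕ} {d : α → β} (hl : PT l) (hn : PT n) (hd : PT d) :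
    PT (fun a => (l a).getD (n a) (d a)) := by
  have h := (hl.drop hn).headD hd
  have e : (fun a => ((l a).drop (n a)).headD (d a)) = fun a => (l a).getD (n a) (d a) := by
    funext a
    rw [List.headD_eq_head?_getD, List.head?_drop, List.getD_eq_getElem?_getD]
  exact e ▸ h

theorem PT.any {l : α → List β} {p : α × β → Bool} (hl : PT l) (hp : PT p) :
    PT (fun a => (l a).any fun b => p (a, b)) := by
  have h := (PT.filter hl hp).isEmpty.not
  have e : (fun a => !((l a).filter fun b => p (a, b)).isEmpty) =
      fun a => (l a).any fun b => p (a, b) := by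
    funext a
    induction l a with
    | nil => rfl
    | cons b m ih =>
      rw [List.filter_cons, List.any_cons, ← ih]
      cases p (a, b) <;> simp
  exact e ▸ h

theorem PT.all {l : α → List β} {p : α × β → Bool} (hl : PT l) (hp : PT p) :
    PT (fun a => (l a).all fun b => p (a, b)) := by
  have h := (PT.any hl hp.not).not
  have e : (fun a => !((l a).any fun b => !p (a, b))) =
      fun a => (l a).all fun b => p (a, b) := by
    funext a
    rw [List.all_eq_not_any_not]
  exact e ▸ h

end PTime
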