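import Pool.Agent.Work.MP_2f1fa1_lc.PProg

/-!
# Basic routines for stack programs
-/

namespace PTime

open Function (update)

/-! ### `Run` -/

theorem Run.mono {p : Prog} {s s' : St} {t t' : ℕ} (h : Run p s s' t) (ht : t ≤ t') :
    Run p s s' t' := by
  obtain ⟨n, hn, he⟩ := h
  exact ⟨n, hn.trans ht, he⟩

theorem Run.cast {p : Prog} {s s' u u' : St} {t t' : ℕ} (h : Run p s s' t) (hs : s = u)
    (hs' : s' = u') (ht : t ≤ t') : Run p u u' t' := by
  subst hs hs'
  exact h.mono ht

theorem run_skip (s : St) : Run .skip s s 1 := ⟨1, le_rfl, .skip s⟩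

theorem run_push (i : ℕ) (b : Bool) (s : St) : Run (.push i b) s (update s i (b :: s i)) 1 :=
  ⟨1, le_rfl, .push i b s⟩

theorem run_pop (i : ℕ) (s : St) : Run (.pop i) s (update s i (s i).tail) 1 :=
  ⟨1, le_rfl, .pop i s⟩

theorem Run.seq {p q : Prog} {s s' s'' : St} {t t' : ℕ} (h : Run p s s' t)
    (h' : Run q s' s'' t') : Run (.seq p q) s s'' (t + t' + 1) := by
  obtain ⟨n, hn, he⟩ := h
  obtain ⟨n', hn', he'⟩ := h'
  exact ⟨n + n' + 1, by omega, he.seq he'⟩

theorem run_casE {i : ℕ} {pe p0 p1 : Prog} {s s' : St} {t : ℕ} (hs : s i = [])
    (h : Run pe s s' t) : Run (.cas i pe p0 p1) s s' (t + 1) := by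
  obtain ⟨n, hn, he⟩ := h
  exact ⟨n + 1, by omega, .casE hs he⟩

theorem run_cas0 {i : ℕ} {pe p0 p1 : Prog} {s s' : St} {t : ℕ} {l : List Bool}
    (hs : s i = false :: l) (h : Run p0 s s' t) : Run (.cas i pe p0 p1) s s' (t + 1) := by
  obtain ⟨n, hn, he⟩ := h
  exact ⟨n + 1, by omega, .cas0 hs he⟩

theorem run_cas1 {i : ℕ} {pe p0 p1 : Prog} {s s' : St} {t : ℕ} {l : List Bool}
    (hs : s i = true :: l) (h : Run p1 s s' t) : Run (.cas i pe p0 p1) s s' (t + 1) := by
  obtain ⟨n, hn, he⟩ := h
  exact ⟨n + 1, by omega, .cas1 hs he⟩

theorem run_loopE {i : ℕ} {p : Prog} {s : St} (hs : s i = []) : Run (.loop i p) s s 1 :=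
  ⟨1, le_rfl, .loopE hs⟩

theorem run_loopS {i : ℕ} {p : Prog} {s s' s'' : St} {t t' : ℕ} (hs : s i ≠ [])
    (h : Run p s s' t) (h' : Run (.loop i p) s' s'' t') :
    Run (.loop i p) s s'' (t + t' + 1) := by
  obtain ⟨n, hn, he⟩ := h
  obtain ⟨n', hn', he'⟩ := h'
  exact ⟨n + n' + 1, by omega, .loopS hs he he'⟩

/-- one step changes every length by at most one: the total growth is bounded by the time -/
theorem Exec.length_le {p : Prog} {s s' : St} {t : ℕ} (h : Exec p s s' t) (j : ℕ) :
    (s' j).length ≤ (s j).length + t := by
  induction h with
  | skip s => omega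
  | push i b s =>
    by_cases hj : j = i
    · subst hj; simp
    · simp [Function.update_of_ne hj]
  | pop i s =>
    by_cases hj : j = i
    · subst hj; simp; omega
    · simp [Function.update_of_ne hj]
  | seq _ _ ih1 ih2 => omega
  | casE _ _ ih => omega
  | cas0 _ _ ih => omega
  | cas1 _ _ ih => omega
  | loopE _ => omega
  | loopS _ _ _ ih1 ih2 => omega

theorem Run.length_le {p : Prog} {s s' : St} {t : ℕ} (h : Run p s s' t) (j : ℕ) :
    (s' j).length ≤ (s j).length + t := by
  obtain ⟨n, hn, he⟩ := h
  have := he.length_le j
  omega

/-! ### Renaming registers -/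

/-- the program `p` on the registers `n, n + 1, …` -/
def Prog.shift (n : ℕ) : Prog → Prog
  | .skip => .skip
  | .push i b => .push (i + n) b
  | .pop i => .pop (i + n)
  | .seq p q => .seq (p.shift n) (q.shift n)
  | .cas i pe p0 p1 => .cas (i + n) (pe.shift n) (p0.shift n) (p1.shift n)
  | .loop i p => .loop (i + n) (p.shift n)

/-- the registers `< n` of `u` followed by the registers of `s` -/
def cat (n : ℕ) (u s : St) : St := fun i => if i < n then u i else s (i - n)

theorem cat_add (n : ℕ) (u s : St) (i : ℕ) : cat n u s (i + n) = s i := by
  simp [cat]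

theorem cat_update (n : ℕ) (u s : St) (i : ℕ) (x : List Bool) :
    update (cat n u s) (i + n) x = cat n u (update s i x) := by
  funext j
  by_cases h : j < n
  · have : j ≠ i + n := by omega
    simp [Function.update_of_ne this, cat, h]
  · obtain ⟨k, rfl⟩ : ∃ k, j = k + n := ⟨j - n, by omega⟩
    by_cases hk : k = i
    · subst hk
      simp [cat_add]
    · have : k + n ≠ i + n := by omega
      rw [Function.update_of_ne this, cat_add, cat_add, Function.update_of_ne hk]

theorem Exec.shift {p : Prog} {s s' : St} {t : ℕ} (h : Exec p s s' t) (n : ℕ) (u : St) :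
    Exec (p.shift n) (cat n u s) (cat n u s') t := by
  induction h with
  | skip s => exact .skip _
  | push i b s =>
    rw [← cat_update]
    have := Exec.push (i + n) b (cat n u s)
    rwa [cat_add] at this
  | pop i s =>
    rw [← cat_update]
    have := Exec.pop (i + n) (cat n u s)
    rwa [cat_add] at this
  | seq _ _ ih1 ih2 => exact ih1.seq ih2
  | casE hs _ ih => exact .casE (by rw [cat_add, hs]) ih
  | cas0 hs _ ih => exact .cas0 (by rw [cat_add, hs]) ih
  | cas1 hs _ ih => exact .cas1 (by rw [cat_add, hs]) ih
  | loopE hs => exact .loopE (by rw [cat_add, hs])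
  | loopS hs _ _ ih1 ih2 => exact .loopS (by rw [cat_add]; exact hs) ih1 ih2

/-! ### States with finitely many registers -/

/-- the state with registers `L` -/
def mk : List (List Bool) → St
  | [], _ => []
  | a :: _, 0 => a
  | _ :: L, i + 1 => mk L i

theorem ini_eq (x : List Bool) : ini x = mk [x] := by
  funext i
  match i with
  | 0 => rfl
  | (n + 1) => simp [ini, mk]

theorem update_mk {L : List (List Bool)} {i : ℕ} (x : List Bool) (h : i < L.length) :
    update (mk L) i x = mk (L.set i x) := by
  induction L generalizing i with
  | nil => simp at h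
  | cons a L ih =>
    cases i with
    | zero =>
      funext j
      cases j with
      | zero => rfl
      | succ j => simp [mk, List.set_cons_zero]
    | succ i =>
      have h' : i < L.length := by simpa using h
      have := ih h'
      funext j
      cases j with
      | zero => simp [mk, List.set_cons_succ]
      | succ j =>
        have h2 := congrFun this j
        rw [List.set_cons_succ]
        show _ = mk (L.set i x) j
        rw [← h2]
        by_cases hj : j = i
        · subst hj; simp
        · rw [Function.update_of_ne hj, Function.update_of_ne (by omega)]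
          rfl

theorem mk_snoc_nil (L : List (List Bool)) : mk (L ++ [[]]) = mk L := by
  induction L with
  | nil =>
    funext i
    cases i with
    | zero => rfl
    | succ i => rfl
  | cons a L ih =>
    funext i
    cases i with
    | zero => rfl
    | succ i => exact congrFun ih i

theorem cat_mk (L : List (List Bool)) (x : List (List Bool)) :
    cat L.length (mk L) (mk x) = mk (L ++ x) := by
  induction L with
  | nil => funext i; simp [cat]
  | cons a L ih =>
    funext i
    cases i with
    | zero => simp [cat, mk]
    | succ i =>
      have := congrFun ih i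
      simp only [cat] at this
      simp only [cat, List.length_cons, Nat.add_lt_add_iff_right, Nat.add_sub_add_right,
        List.cons_append]
      exact this

theorem Run.shift {p : Prog} {x y : List (List Bool)} {t : ℕ} (h : Run p (mk x) (mk y) t)
    (L : List (List Bool)) : Run (p.shift L.length) (mk (L ++ x)) (mk (L ++ y)) t := by
  obtain ⟨n, hn, he⟩ := h
  refine ⟨n, hn, ?_⟩
  have := he.shift L.length (mk L)
  rwa [cat_mk, cat_mk] at this

/-! ### Moving, copying, clearing -/

/-- move the stack `i` onto the stack `j`, reversing it -/
def mv (i j : ℕ) : Prog :=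
  .loop i (.cas i .skip (.seq (.pop i) (.push j false)) (.seq (.pop i) (.push j true)))

theorem run_mv {i j : ℕ} (hij : i ≠ j) (x : List Bool) : ∀ (s : St), s i = x →
    Run (mv i j) s (update (update s i []) j (x.reverse ++ s j)) (5 * x.length + 1) := by
  induction x with
  | nil =>
    intro s hs
    refine (run_loopE hs).cast rfl ?_ (by simp)
    funext k
    by_cases h1 : k = j
    · subst h1; simp
    · by_cases h2 : k = i
      · subst h2; simp [Function.update_of_ne h1, hs]
      · simp [Function.update_of_ne h1, Function.update_of_ne h2]
  | cons b x ih =>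
    intro s hs
    set s1 : St := update s i x with hs1
    set s2 : St := update s1 j (b :: s1 j) with hs2
    have e1 : s2 i = x := by simp [hs2, hs1, Function.update_of_ne hij]
    have e2 : s1 j = s j := by simp [hs1, Function.update_of_ne hij.symm]
    have r1 : Run (.seq (.pop i) (.push j b)) s s2 3 := by
      refine (Run.seq (run_pop i s) (run_push j b _)).cast rfl ?_ le_rfl
      rw [hs]
      rfl
    have r2 : Run (.cas i .skip (.seq (.pop i) (.push j false)) (.seq (.pop i) (.push j true)))
        s s2 4 := by
      cases b with
      | false => exact run_cas0 hs r1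
      | true => exact run_cas1 hs r1
    have r3 := run_loopS (by rw [hs]; simp) r2 (ih s2 e1)
    refine r3.cast rfl ?_ (by simp; omega)
    funext k
    by_cases h1 : k = j
    · subst h1; simp [hs2, e2]
    · by_cases h2 : k = i
      · subst h2; simp [Function.update_of_ne h1]
      · simp [Function.update_of_ne h1, Function.update_of_ne h2, hs2, hs1]

/-- empty the stack `i` -/
def clr (i : ℕ) : Prog := .loop i (.pop i)

theorem run_clr {i : ℕ} (x : List Bool) : ∀ (s : St), s i = x →
    Run (clr i) s (update s i []) (2 * x.length + 1) := by
  induction x with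
  | nil =>
    intro s hs
    refine (run_loopE hs).cast rfl ?_ (by simp)
    funext k
    by_cases h2 : k = i
    · subst h2; simp [hs]
    · simp [Function.update_of_ne h2]
  | cons b x ih =>
    intro s hs
    have e1 : (update s i (s i).tail) i = x := by simp [hs]
    have r3 := run_loopS (by rw [hs]; simp) (run_pop i s) (ih _ e1)
    refine r3.cast rfl ?_ (by simp; omega)
    simp

/-- move the stack `k` onto both stacks `i` and `j`, reversing it -/
def dup (k i j : ℕ) : Prog :=
  .loop k (.cas k .skip (.seq (.pop k) (.seq (.push i false) (.push j false)))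
    (.seq (.pop k) (.seq (.push i true) (.push j true))))

theorem run_dup {k i j : ℕ} (hki : k ≠ i) (hkj : k ≠ j) (hij : i ≠ j) (x : List Bool) :
    ∀ (s : St), s k = x →
    Run (dup k i j) s (update (update (update s k []) i (x.reverse ++ s i)) j
      (x.reverse ++ s j)) (7 * x.length + 1) := by
  induction x with
  | nil =>
    intro s hs
    refine (run_loopE hs).cast rfl ?_ (by simp)
    funext m
    by_cases h1 : m = j
    · subst h1; simp
    · by_cases h2 : m = i
      · subst h2; simp [Function.update_of_ne h1]
      · by_cases h3 : m = k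
        · subst h3; simp [Function.update_of_ne h1, Function.update_of_ne h2, hs]
        · simp [Function.update_of_ne h1, Function.update_of_ne h2, Function.update_of_ne h3]
  | cons b x ih =>
    intro s hs
    set s1 : St := update s k x with hs1
    set s2 : St := update s1 i (b :: s i) with hs2
    set s3 : St := update s2 j (b :: s j) with hs3
    have e1 : s3 k = x := by
      simp [hs3, hs2, hs1, Function.update_of_ne hki, Function.update_of_ne hkj]
    have e2 : s1 i = s i := by simp [hs1, Function.update_of_ne hki.symm]
    have e3 : s2 j = s j := by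
      simp [hs2, hs1, Function.update_of_ne hij.symm, Function.update_of_ne hkj.symm]
    have r1 : Run (.seq (.pop k) (.seq (.push i b) (.push j b))) s s3 5 := by
      refine (Run.seq (run_pop k s) (Run.seq (run_push i b _) (run_push j b _))).cast rfl ?_
        le_rfl
      rw [hs]
      simp only [List.tail_cons, ← hs1, e2, ← hs2, e3, ← hs3]
    have r2 : Run (.cas k .skip (.seq (.pop k) (.seq (.push i false) (.push j false)))
        (.seq (.pop k) (.seq (.push i true) (.push j true)))) s s3 6 := by
      cases b with
      | false => exact run_cas0 hs r1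
      | true => exact run_cas1 hs r1
    have r3 := run_loopS (by rw [hs]; simp) r2 (ih s3 e1)
    refine r3.cast rfl ?_ (by simp; omega)
    have f1 : s3 i = b :: s i := by simp [hs3, hs2, Function.update_of_ne hij]
    have f2 : s3 j = b :: s j := by simp [hs3]
    rw [f1, f2]
    funext m
    by_cases h1 : m = j
    · subst h1; simp
    · by_cases h2 : m = i
      · subst h2; simp [Function.update_of_ne h1]
      · by_cases h3 : m = k
        · subst h3; simp [Function.update_of_ne h1, Function.update_of_ne h2]
        · simp [Function.update_of_ne h1, Function.update_of_ne h2, Function.update_of_ne h3,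
            hs3, hs2, hs1]

/-! ### Trees -/

/-- binary trees: the universal data type -/
inductive T where
  | nil : T
  | node (a b : T) : T
  deriving DecidableEq

/-- the preorder code -/
def T.bits : T → List Bool
  | .nil => [false]
  | .node a b => true :: (a.bits ++ b.bits)

theorem T.bits_ne_nil (a : T) : a.bits ≠ [] := by
  cases a <;> simp [T.bits]

theorem T.bits_append_inj : ∀ (a b : T) (x y : List Bool), a.bits ++ x = b.bits ++ y →
    a = b ∧ x = y := by
  intro a
  induction a with
  | nil =>
    intro b x y h
    cases b with
    | nil => simpa [T.bits] using h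
    | node c d => simp [T.bits] at h
  | node a1 a2 ih1 ih2 =>
    intro b x y h
    cases b with
    | nil => simp [T.bits] at h
    | node c d =>
      simp only [T.bits, List.cons_append, List.append_assoc, List.cons.injEq, true_and] at h
      obtain ⟨h1, h2⟩ := ih1 _ _ _ h
      obtain ⟨h3, h4⟩ := ih2 _ _ _ h2
      exact ⟨by rw [h1, h3], h4⟩

theorem T.bits_injective : Function.Injective T.bits := by
  intro a b h
  exact (T.bits_append_inj a b [] [] (by simpa using h)).1

/-- the body of the parsing loop -/
def parseB (i j c : ℕ) : Prog :=
  .cas i .skip (.seq (.pop i) (.seq (.push j false) (.pop c)))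
    (.seq (.pop i) (.seq (.push j true) (.push c true)))

/-- move the code of one tree from the stack `i` onto `j` (reversed), using the counter `c` -/
def parse (i j c : ℕ) : Prog := .seq (.push c true) (.loop c (parseB i j c))

/-- the state `s` with the stacks `i, j, c` replaced -/
def st3 (s : St) (i j c : ℕ) (r w cs : List Bool) : St :=
  update (update (update s i r) j w) c cs

theorem run_parse_aux {i j c : ℕ} (hij : i ≠ j) (hic : i ≠ c) (hjc : j ≠ c) (s : St) (a : T) :
    ∀ (r w cs : List Bool) (s' : St) (t : ℕ),
      Run (.loop c (parseB i j c)) (st3 s i j c r (a.bits.reverse ++ w) cs) s' t →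
      Run (.loop c (parseB i j c)) (st3 s i j c (a.bits ++ r) w (true :: cs)) s'
        (t + 7 * a.bits.length) := by
  have hi : ∀ r w cs, st3 s i j c r w cs i = r := by
    intro r w cs
    simp [st3, Function.update_of_ne hic, Function.update_of_ne hij]
  have hj : ∀ r w cs, st3 s i j c r w cs j = w := by
    intro r w cs
    simp [st3, Function.update_of_ne hjc]
  have hc : ∀ r w cs, st3 s i j c r w cs c = cs := by
    intro r w cs
    simp [st3]
  have ui : ∀ r w cs r', update (st3 s i j c r w cs) i r' = st3 s i j c r' w cs := by
    intro r w cs r'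
    funext m
    by_cases h1 : m = i
    · subst h1; simp [hi]
    · rw [Function.update_of_ne h1]
      unfold st3
      by_cases h2 : m = c
      · subst h2; simp
      · rw [Function.update_of_ne h2, Function.update_of_ne h2]
        by_cases h3 : m = j
        · subst h3; simp
        · rw [Function.update_of_ne h3, Function.update_of_ne h3, Function.update_of_ne h1,
            Function.update_of_ne h1]
  have uj : ∀ r w cs w', update (st3 s i j c r w cs) j w' = st3 s i j c r w' cs := by
    intro r w cs r'
    funext m
    by_cases h1 : m = j
    · subst h1; simp [hj]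
    · rw [Function.update_of_ne h1]
      unfold st3
      by_cases h2 : m = c
      · subst h2; simp
      · rw [Function.update_of_ne h2, Function.update_of_ne h2, Function.update_of_ne h1,
          Function.update_of_ne h1]
  have uc : ∀ r w cs cs', update (st3 s i j c r w cs) c cs' = st3 s i j c r w cs' := by
    intro r w cs r'
    unfold st3
    simp
  induction a with
  | nil =>
    intro r w cs s' t h
    have r1 : Run (parseB i j c) (st3 s i j c (T.nil.bits ++ r) w (true :: cs))
        (st3 s i j c r (T.nil.bits.reverse ++ w) cs) 6 := by
      refine run_cas0 (l := r) (by rw [hi]; rfl) ?_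
      refine (Run.seq (run_pop i _) (Run.seq (run_push j false _) (run_pop c _))).cast rfl ?_
        le_rfl
      rw [hi, ui, hj, uj, hc, uc]
      rfl
    refine (run_loopS (by rw [hc]; simp) r1 h).mono ?_
    simp [T.bits]
    omega
  | node a b iha ihb =>
    intro r w cs s' t h
    have r1 : Run (parseB i j c) (st3 s i j c ((T.node a b).bits ++ r) w (true :: cs))
        (st3 s i j c (a.bits ++ (b.bits ++ r)) (true :: w) (true :: true :: cs)) 6 := by
      refine run_cas1 (l := a.bits ++ (b.bits ++ r)) (by rw [hi]; simp [T.bits]) ?_
      refine (Run.seq (run_pop i _) (Run.seq (run_push j true _) (run_push c true _))).cast rfl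
        ?_ le_rfl
      rw [hi, ui, hj, uj, hc, uc]
      simp [T.bits]
    have r2 := ihb r (a.bits.reverse ++ (true :: w)) cs s' t
      (by simpa [T.bits] using h)
    have r3 := iha (b.bits ++ r) (true :: w) (true :: cs) s' _ r2
    refine (run_loopS (by rw [hc]; simp) r1 r3).mono ?_
    simp [T.bits]
    omega

theorem run_parse {i j c : ℕ} (hij : i ≠ j) (hic : i ≠ c) (hjc : j ≠ c) (s : St) (a : T)
    (r : List Bool) (hi : s i = a.bits ++ r) (hc : s c = []) :
    Run (parse i j c) s (st3 s i j c r (a.bits.reverse ++ s j) []) (7 * a.bits.length + 3) := by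
  have h0 : Run (.loop c (parseB i j c)) (st3 s i j c r (a.bits.reverse ++ s j) [])
      (st3 s i j c r (a.bits.reverse ++ s j) []) 1 := run_loopE (by simp [st3])
  have h1 := run_parse_aux hij hic hjc s a r (s j) [] _ _ h0
  refine (Run.seq (run_push c true s) (h1.cast ?_ rfl le_rfl)).mono (by omega)
  funext m
  unfold st3
  by_cases h2 : m = c
  · subst h2; simp [hc]
  · rw [Function.update_of_ne h2, Function.update_of_ne h2]
    by_cases h3 : m = j
    · subst h3; simp
    · rw [Function.update_of_ne h3]
      by_cases h4 : m = i
      · subst h4; simp [hi]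
      · rw [Function.update_of_ne h4]

end PTime
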