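import Pool.Agent.Work.MP_2f1fa1_lc.CLTM2

/-!
# NP-hardness

`NPHard Yes` : every language in NP reduces to the decision problem `Yes` by a function computed
by one of Mathlib's polynomial time machines.
-/

open Turing

namespace PTime

variable {α β γ : Type} [Code α] [Code β] [Code γ]

/-- from a raw bit string to its code as a list -/
def rawP : Prog := .seq (mv 0 1) (.seq (.push 0 false) (.loop 1 quoteB))

theorem run_rawP (x : List Bool) : Run rawP (mk [x]) (mk [enc x]) (18 * x.length + 6) := by
  have r1 : Run (mv 0 1) (mk [x, []]) (mk [[], x.reverse]) (5 * x.length + 1) :=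
    mv_mk (x := x) (by decide) (by simp) (by simp) rfl (by simp [mk]) le_rfl
  have r2 : Run (.push 0 false) (mk [[], x.reverse]) (mk [enc ([] : List Bool),
      x.reverse]) 1 := push_mk (by simp) rfl
  have r3 := run_quoteL x.reverse []
  rw [List.reverse_reverse, List.append_nil] at r3
  refine (r1.seq (r2.seq r3)).cast (mk_nils [x] 1) (mk_nils [enc x] 1) ?_
  simp only [List.length_reverse]
  omega

/-- polynomial time functions of raw bit strings -/
theorem PT.compileRaw {f : List Bool → β} (h : PT f) :
    Nonempty (TM2ComputableInPolyTime (fun x : List Bool => x) (enc : β → List Bool) f) := by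
  obtain ⟨p, q, hp⟩ := h
  refine PTime.compile _ _ f (.seq rawP p)
    (18 * Polynomial.X + 7 + q.comp (4 * Polynomial.X + 1)) fun x => ?_
  rw [ini_eq, ini_eq]
  refine ((run_rawP x).seq (hp x)).mono ?_
  have h1 : sz x ≤ 4 * x.length + 1 := by
    have := sz_list_le (l := x) (B := 3) fun b _ => sz_bool b
    omega
  have h2 := eval_mono q h1
  simp only at h2
  simp only [Polynomial.eval_add, Polynomial.eval_mul, Polynomial.eval_X,
    Polynomial.eval_ofNat, Polynomial.eval_comp, Polynomial.eval_one]
  omega

/-- the decision problem `Yes` is NP-hard (polynomial time many-one reductions) -/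
def NPHard {ι : Type} [Code ι] (Yes : ι → Prop) : Prop :=
  ∀ L : Set (List Bool), InNP L → ∃ f : List Bool → ι,
    Nonempty (TM2ComputableInPolyTime (fun x : List Bool => x) (enc : ι → List Bool) f) ∧
    ∀ x, x ∈ L ↔ Yes (f x)

/-- a polynomial time reduction from SAT proves NP-hardness -/
theorem npHard_of_sat {ι : Type} [Code ι] {Yes : ι → Prop} {R : CNF → ι} (hR : PT R)
    (h : ∀ φ, Sat φ ↔ Yes (R φ)) : NPHard Yes := by
  intro L hL
  obtain ⟨f, hf, hfL⟩ := cookLevin hL
  exact ⟨fun x => R (f x), (hR.comp hf).compileRaw, fun x => (hfL x).trans (h _)⟩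

/-- a reduction from another NP-hard problem -/
theorem npHard_of_npHard {ι κ : Type} [Code ι] [Code κ] {Yes : ι → Prop} {Yes' : κ → Prop}
    (h0 : ∃ R0 : CNF → ι, PT R0 ∧ ∀ φ, Sat φ ↔ Yes (R0 φ)) {R : ι → κ} (hR : PT R)
    (h : ∀ i, Yes i ↔ Yes' (R i)) : NPHard Yes' := by
  obtain ⟨R0, hR0, h0⟩ := h0
  exact npHard_of_sat (hR.comp hR0) fun φ => (h0 φ).trans (h _)

/-! ### recoding, integers in binary -/

theorem PT.recode2 {f : α → β} {g : α → γ} (hf : PT f)
    (h : ∀ a, Code.toT (g a) = Code.toT (f a)) : PT g := by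
  obtain ⟨p, q, hp⟩ := hf
  refine ⟨p, q, fun a => ?_⟩
  have : enc (g a) = enc (f a) := by unfold enc; rw [h]
  rw [this]
  exact hp a

theorem bits_inj {m n : ℕ} (h : m.bits = n.bits) : m = n := by
  have h1 : ∀ n : ℕ, n.bits.foldr (fun b k => Nat.bit b k) 0 = n := by
    intro n
    induction n using Nat.binaryRec with
    | zero => simp
    | bit b n ih =>
      by_cases hn : n = 0 ∧ b = false
      · obtain ⟨rfl, rfl⟩ := hn; simp
      · have h1 : Nat.bits (Nat.bit b n) = b :: n.bits :=
          Nat.bits_append_bit n b (fun h => by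
            cases b with
            | true => rfl
            | false => exact absurd ⟨h, rfl⟩ hn)
        rw [h1, List.foldr_cons, ih]
  rw [← h1 m, ← h1 n, h]

/-- integers: sign and binary absolute value -/
instance : Code ℤ := ⟨fun z => Code.toT (decide (z < 0), z.natAbs.bits), by
  intro a b h
  have h' : (decide (a < 0), a.natAbs.bits) = (decide (b < 0), b.natAbs.bits) := Code.inj h
  rw [Prod.mk.injEq] at h'
  have h1 := bits_inj h'.2
  have h2 : (a < 0) = (b < 0) := by simpa using h'.1
  rcases Int.natAbs_eq a with ha | ha <;> rcases Int.natAbs_eq b with hb | hb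
  · rw [ha, hb, h1]
  · have h3 : ¬ a < 0 := by omega
    have h4 : ¬ b < 0 := by rw [← h2]; exact h3
    omega
  · have h3 : ¬ b < 0 := by omega
    have h4 : ¬ a < 0 := by rw [h2]; exact h3
    omega
  · rw [ha, hb, h1]⟩

/-- natural numbers in binary -/
structure BNat where
  val : ℕ
  deriving DecidableEq

instance : Code BNat := ⟨fun n => Code.toT n.val.bits, by
  rintro ⟨a⟩ ⟨b⟩ h
  have : a = b := bits_inj (Code.inj h)
  rw [this]⟩

theorem PT.bnat {n : α → ℕ} (hn : PT n) : PT (fun a => BNat.mk (n a)) :=
  PT.recode2 hn.bits fun _ => rfl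

/-- the difference of two unary numbers, as a binary integer -/
theorem PT.intSub {m n : α → ℕ} (hm : PT m) (hn : PT n) : PT (fun a => (m a : ℤ) - n a) := by
  refine PT.recode2 ((hm.lt hn).pair ((hm.sub hn).add (hn.sub hm)).bits) fun a => ?_
  show Code.toT (decide ((m a : ℤ) - n a < 0), ((m a : ℤ) - n a).natAbs.bits) = _
  congr 2
  · exact decide_eq_decide.2 (by omega)
  · congr 1
    omega

theorem PT.intCast {n : α → ℕ} (hn : PT n) : PT (fun a => (n a : ℤ)) :=
  (PT.intSub hn (PT.const 0)).congr fun a => by simp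

end PTime
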