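import Pool.Agent.Work.MP_2f1fa1_lc.PNP

/-!
# Removing duplicates, membership, the table of a CNF
-/

namespace PTime

variable {α β γ δ σ τ : Type} [Code α] [Code β] [Code γ] [Code δ] [Code σ] [Code τ]

/-- removes duplicates -/
def nub {β : Type} [DecidableEq β] (l : List β) : List β :=
  l.foldl (fun acc b => bif acc.any (fun c => decide (c = b)) then acc else acc ++ [b]) []

theorem nub_aux {β : Type} [DecidableEq β] (l : List β) : ∀ acc : List β, acc.Nodup →
    (l.foldl (fun acc b => bif acc.any (fun c => decide (c = b)) then acc else acc ++ [b])
      acc).Nodup ∧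
    ∀ x, x ∈ l.foldl (fun acc b => bif acc.any (fun c => decide (c = b)) then acc
      else acc ++ [b]) acc ↔ x ∈ acc ∨ x ∈ l := by
  induction l with
  | nil => intro acc h; exact ⟨h, fun x => by simp⟩
  | cons b l ih =>
    intro acc h
    rw [List.foldl_cons]
    by_cases hb : b ∈ acc
    · have e : (bif acc.any (fun c => decide (c = b)) then acc else acc ++ [b]) = acc := by
        have : acc.any (fun c => decide (c = b)) = true := by
          rw [List.any_eq_true]
          exact ⟨b, hb, by simp⟩
        rw [this]; rfl
      rw [e]
      obtain ⟨h1, h2⟩ := ih acc h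
      refine ⟨h1, fun x => ?_⟩
      rw [h2 x, List.mem_cons]
      constructor
      · rintro (h | h)
        · exact Or.inl h
        · exact Or.inr (Or.inr h)
      · rintro (h | rfl | h)
        · exact Or.inl h
        · exact Or.inl hb
        · exact Or.inr h
    · have e : (bif acc.any (fun c => decide (c = b)) then acc else acc ++ [b]) = acc ++ [b] := by
        have : acc.any (fun c => decide (c = b)) = false := by
          rw [List.any_eq_false]
          intro c hc hcb
          rw [decide_eq_true_eq] at hcb
          exact hb (hcb ▸ hc)
        rw [this]; rfl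
      rw [e]
      obtain ⟨h1, h2⟩ := ih (acc ++ [b]) (by
        rw [List.nodup_append]
        refine ⟨h, by simp, ?_⟩
        intro a ha c hc
        rw [List.mem_singleton] at hc
        rintro rfl
        exact hb (hc ▸ ha))
      refine ⟨h1, fun x => ?_⟩
      rw [h2 x, List.mem_append, List.mem_singleton, List.mem_cons, or_assoc]

theorem nodup_nub {β : Type} [DecidableEq β] (l : List β) : (nub l).Nodup :=
  (nub_aux l [] List.nodup_nil).1

theorem mem_nub {β : Type} [DecidableEq β] (l : List β) (x : β) : x ∈ nub l ↔ x ∈ l := by
  rw [nub, (nub_aux l [] List.nodup_nil).2 x]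
  simp

theorem PT.mem [DecidableEq β] {l : α → List β} {b : α → β} (hl : PT l) (hb : PT b) :
    PT (fun a => decide (b a ∈ l a)) := by
  have h := PT.any (p := fun x : α × β => decide (x.2 = b x.1)) hl (PT.eq PT.snd (hb.comp PT.fst))
  refine h.congr fun a => ?_
  rw [Bool.eq_iff_iff, List.any_eq_true, decide_eq_true_eq]
  constructor
  · rintro ⟨x, hx, h⟩
    rw [decide_eq_true_eq] at h
    exact h ▸ hx
  · intro h
    exact ⟨_, h, by simp⟩

theorem PT.nub [DecidableEq β] {l : α → List β} (hl : PT l) : PT (fun a => nub (l a)) := by
  have h := PT.foldl (g := fun x : List β × List β × β =>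
    bif x.2.1.any (fun c => decide (c = x.2.2)) then x.2.1 else x.2.1 ++ [x.2.2])
    (l := fun l : List β => l) (s := fun _ => ([] : List β))
    PT.id (PT.const _) (PT.cond
      (PT.any (p := fun y : (List β × List β × β) × β => decide (y.2 = y.1.2.2))
        (PT.fst.comp PT.snd) (PT.eq PT.snd ((PT.snd.comp PT.snd).comp PT.fst)))
      (PT.fst.comp PT.snd)
      ((PT.fst.comp PT.snd).append ((PT.snd.comp PT.snd).cons (PT.const []))))
    (Polynomial.X + 1) (by
      intro a l' hl'
      have key : ∀ (l' acc : List β), sz (l'.foldl (fun acc b =>
          bif acc.any (fun c => decide (c = b)) then acc else acc ++ [b]) acc) ≤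
          sz acc + sz l' := by
        intro l'
        induction l' with
        | nil => intro acc; simp
        | cons b l' ih =>
          intro acc
          rw [List.foldl_cons]
          refine (ih _).trans ?_
          rw [sz_cons]
          cases acc.any (fun c => decide (c = b)) with
          | true => simp only [cond_true]; omega
          | false =>
            simp only [cond_false]
            have := sz_append acc [b]
            rw [sz_cons, sz_nil] at this
            omega
      have := key l' []
      rw [sz_nil] at this
      have h2 := sz_prefix hl'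
      simp only [Polynomial.eval_add, Polynomial.eval_X, Polynomial.eval_one]
      exact this.trans (by omega))
  exact (h.comp hl).congr fun a => rfl

end PTime
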