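import Pool.Agent.Work.MP_2f1fa1_lc.PMach

/-!
# Polynomial time functions on coded types: closure properties
-/

namespace PTime

open Function (update)

/-- an injective coding by binary trees -/
class Code (α : Type) where
  toT : α → T
  inj : Function.Injective toT

/-- the bit string of a coded object -/
def enc {α : Type} [Code α] (a : α) : List Bool := (Code.toT a).bits

/-- its length -/
def sz {α : Type} [Code α] (a : α) : ℕ := (enc a).length

/-- polynomial time functions -/
def PT {α β : Type} [Code α] [Code β] (f : α → β) : Prop :=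
  ∃ (p : Prog) (q : Polynomial ℕ), ∀ a, Run p (mk [enc a]) (mk [enc (f a)]) (q.eval (sz a))

theorem PT.compile {α β : Type} [Code α] [Code β] {f : α → β} (h : PT f) :
    Nonempty (Turing.TM2ComputableInPolyTime (enc : α → List Bool) (enc : β → List Bool) f) := by
  obtain ⟨p, q, hp⟩ := h
  refine PTime.compile enc enc f p q fun a => ?_
  rw [ini_eq, ini_eq]
  exact hp a

theorem eval_mono (q : Polynomial ℕ) : Monotone fun n : ℕ => q.eval n := by
  intro m n h
  simp only [Polynomial.eval_eq_sum_range]
  exact Finset.sum_le_sum fun i _ => Nat.mul_le_mul_left _ (Nat.pow_le_pow_left h i)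

theorem PT.size {α β : Type} [Code α] [Code β] {f : α → β} (h : PT f) :
    ∃ q : Polynomial ℕ, ∀ a, sz (f a) ≤ q.eval (sz a) := by
  obtain ⟨p, q, hp⟩ := h
  refine ⟨Polynomial.X + q, fun a => ?_⟩
  have := (hp a).length_le 0
  simpa [mk, sz] using this

/-! ### helper lemmas for states -/

theorem mk_nils (L : List (List Bool)) (n : ℕ) : mk (L ++ List.replicate n []) = mk L := by
  induction n with
  | zero => simp
  | succ n ih =>
    rw [List.replicate_succ', ← List.append_assoc, mk_snoc_nil, ih]

theorem Run.sub {p : Prog} {x y : List Bool} {t : ℕ} (h : Run p (mk [x]) (mk [y]) t)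
    (L : List (List Bool)) (m : ℕ) :
    Run (p.shift L.length) (mk (L ++ x :: List.replicate m []))
      (mk (L ++ y :: List.replicate m [])) t := by
  have e : ∀ z : List Bool, mk (L ++ z :: List.replicate m []) = mk (L ++ [z]) := by
    intro z
    have := mk_nils (L ++ [z]) m
    rwa [List.append_assoc] at this
  rw [e x, e y]
  exact h.shift L

theorem mv_mk {L L' : List (List Bool)} {i j : ℕ} {x : List Bool} {t : ℕ} (hij : i ≠ j)
    (hi : i < L.length) (hj : j < L.length) (hx : mk L i = x)
    (hL : L' = (L.set i []).set j (x.reverse ++ mk L j)) (ht : 5 * x.length + 1 ≤ t) :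
    Run (mv i j) (mk L) (mk L') t := by
  refine (run_mv hij x (mk L) hx).cast rfl ?_ ht
  rw [update_mk _ hi, update_mk _ (by simpa using hj), hL]

theorem clr_mk {L L' : List (List Bool)} {i : ℕ} {x : List Bool} {t : ℕ}
    (hi : i < L.length) (hx : mk L i = x)
    (hL : L' = L.set i []) (ht : 2 * x.length + 1 ≤ t) :
    Run (clr i) (mk L) (mk L') t := by
  refine (run_clr x (mk L) hx).cast rfl ?_ ht
  rw [update_mk _ hi, hL]

theorem push_mk {L L' : List (List Bool)} {i : ℕ} {b : Bool} (hi : i < L.length)
    (hL : L' = L.set i (b :: mk L i)) : Run (.push i b) (mk L) (mk L') 1 := by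
  refine (run_push i b (mk L)).cast rfl ?_ le_rfl
  rw [update_mk _ hi, hL]

theorem pop_mk {L L' : List (List Bool)} {i : ℕ} (hi : i < L.length)
    (hL : L' = L.set i (mk L i).tail) : Run (.pop i) (mk L) (mk L') 1 := by
  refine (run_pop i (mk L)).cast rfl ?_ le_rfl
  rw [update_mk _ hi, hL]

theorem dup_mk {L L' : List (List Bool)} {k i j : ℕ} {x : List Bool} {t : ℕ} (hki : k ≠ i)
    (hkj : k ≠ j) (hij : i ≠ j) (hk : k < L.length)
    (hi : i < L.length) (hj : j < L.length) (hx : mk L k = x)
    (hL : L' = ((L.set k []).set i (x.reverse ++ mk L i)).set j (x.reverse ++ mk L j))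
    (ht : 7 * x.length + 1 ≤ t) :
    Run (dup k i j) (mk L) (mk L') t := by
  refine (run_dup hki hkj hij x (mk L) hx).cast rfl ?_ ht
  rw [update_mk _ hk, update_mk _ (by simpa using hi), update_mk _ (by simpa using hj), hL]

theorem parse_mk {L L' : List (List Bool)} {i j c : ℕ} {a : T} {r : List Bool} {t : ℕ}
    (hij : i ≠ j) (hic : i ≠ c) (hjc : j ≠ c) (hi : i < L.length) (hj : j < L.length)
    (hc : c < L.length) (hx : mk L i = a.bits ++ r) (hc0 : mk L c = [])
    (hL : L' = ((L.set i r).set j (a.bits.reverse ++ mk L j)).set c [])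
    (ht : 7 * a.bits.length + 3 ≤ t) : Run (parse i j c) (mk L) (mk L') t := by
  refine (run_parse hij hic hjc (mk L) a r hx hc0).cast rfl ?_ ht
  unfold st3
  rw [update_mk _ hi, update_mk _ (by simpa using hj), update_mk _ (by simpa using hc), hL]

/-! ### identity, composition, constants -/

variable {α β γ δ σ : Type} [Code α] [Code β] [Code γ] [Code δ] [Code σ]

theorem PT.recode {f : α → β} (h : ∀ a, Code.toT (f a) = Code.toT a) : PT f := by
  refine ⟨.skip, 1, fun a => ?_⟩
  have : enc (f a) = enc a := by unfold enc; rw [h]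
  rw [this]
  simpa using run_skip _

theorem PT.id : PT (fun a : α => a) := PT.recode fun _ => rfl

theorem PT.comp {f : α → β} {g : β → γ} (hg : PT g) (hf : PT f) : PT (fun a => g (f a)) := by
  obtain ⟨p, q, hp⟩ := hf
  obtain ⟨p', q', hp'⟩ := hg
  refine ⟨.seq p p', q + q'.comp (Polynomial.X + q) + 1, fun a => ?_⟩
  refine (Run.seq (hp a) (hp' (f a))).mono ?_
  have h1 : sz (f a) ≤ sz a + q.eval (sz a) := by
    have := (hp a).length_le 0
    simpa [mk, sz] using this
  have h2 := eval_mono q' h1
  simp only [Polynomial.eval_add, Polynomial.eval_comp, Polynomial.eval_X, Polynomial.eval_one]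
  simp only at h2
  omega

/-- push all the bits of `l` on the stack `i` -/
def pushAll (i : ℕ) : List Bool → Prog
  | [] => .skip
  | b :: l => .seq (pushAll i l) (.push i b)

theorem run_pushAll (i : ℕ) (l : List Bool) (s : St) :
    Run (pushAll i l) s (update s i (l ++ s i)) (2 * l.length + 1) := by
  induction l with
  | nil => simpa [pushAll] using run_skip s
  | cons b l ih =>
    refine (Run.seq ih (run_push i b _)).cast rfl ?_ (by simp; omega)
    simp

theorem PT.const (c : β) : PT (fun _ : α => c) := by
  refine ⟨.seq (clr 0) (pushAll 0 (enc c)), 2 * Polynomial.X + Polynomial.C (2 * sz c + 3),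
    fun a => ?_⟩
  have h1 : Run (clr 0) (mk [enc a]) (mk [[]]) (2 * sz a + 1) :=
    clr_mk (x := enc a) (by simp) rfl rfl le_rfl
  have h2 := run_pushAll 0 (enc c) (mk [[]])
  rw [update_mk _ (by simp)] at h2
  refine (Run.seq h1 h2).cast rfl ?_ ?_
  · show mk [enc c ++ []] = mk [enc c]
    rw [List.append_nil]
  · simp [sz]
    omega

/-! ### pairs -/

instance : Code Unit := ⟨fun _ => .nil, fun _ _ _ => rfl⟩

instance : Code T := ⟨fun a => a, fun _ _ h => h⟩

instance : Code Bool := ⟨fun b => if b then .node .nil .nil else .nil, by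
  intro a b h
  cases a <;> cases b <;> simp_all⟩

instance : Code (α × β) :=
  ⟨fun x => .node (Code.toT x.1) (Code.toT x.2), by
    rintro ⟨a, b⟩ ⟨c, d⟩ h
    simp only [T.node.injEq] at h
    rw [Code.inj h.1, Code.inj h.2]⟩

/-- the code of a list -/
def listT (f : α → T) : List α → T
  | [] => .nil
  | a :: l => .node (f a) (listT f l)

instance : Code (List α) := ⟨listT Code.toT, by
  intro l
  induction l with
  | nil => intro l' h; cases l' <;> simp_all [listT]
  | cons a l ih =>
    intro l' h
    cases l' with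
    | nil => simp [listT] at h
    | cons b l' =>
      simp only [listT, T.node.injEq] at h
      rw [Code.inj h.1, ih h.2]⟩

/-- natural numbers are coded in unary -/
def natT : ℕ → T
  | 0 => .nil
  | n + 1 => .node .nil (natT n)

instance : Code ℕ := ⟨natT, by
  intro m
  induction m with
  | zero => intro n h; cases n <;> simp_all [natT]
  | succ m ih =>
    intro n h
    cases n with
    | zero => simp [natT] at h
    | succ n =>
      simp only [natT, T.node.injEq, true_and] at h
      rw [ih h]⟩

theorem enc_pair (a : α) (b : β) : enc (a, b) = true :: (enc a ++ enc b) := rfl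

theorem enc_cons (a : α) (l : List α) : enc (a :: l) = true :: (enc a ++ enc l) := rfl

theorem enc_nil : enc ([] : List α) = [false] := rfl

theorem sz_pair (a : α) (b : β) : sz (a, b) = sz a + sz b + 1 := by
  simp [sz, enc_pair]

theorem sz_cons (a : α) (l : List α) : sz (a :: l) = sz a + sz l + 1 := by
  simp [sz, enc_cons]

theorem sz_nil : sz ([] : List α) = 1 := rfl

theorem sz_pos (a : α) : 1 ≤ sz a := by
  unfold sz enc
  exact List.length_pos_iff.2 (T.bits_ne_nil _)

/-- copy the stack `0` to the stack `1` -/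
def cp01 : Prog := .seq (mv 0 3) (dup 3 0 1)

theorem run_cp01 (x : List Bool) : Run cp01 (mk [x, [], [], []]) (mk [x, x, [], []])
    (12 * x.length + 3) := by
  have h1 : Run (mv 0 3) (mk [x, [], [], []]) (mk [[], [], [], x.reverse])
      (5 * x.length + 1) :=
    mv_mk (x := x) (by decide) (by simp) (by simp) rfl (by simp [mk]) le_rfl
  have h2 : Run (dup 3 0 1) (mk [[], [], [], x.reverse]) (mk [x, x, [], []])
      (7 * x.length + 1) :=
    dup_mk (x := x.reverse) (by decide) (by decide) (by decide) (by simp) (by simp) (by simp)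
      rfl (by simp [mk]) (by simp)
  exact (h1.seq h2).mono (by omega)

theorem PT.pair {f : α → β} {g : α → γ} (hf : PT f) (hg : PT g) : PT (fun a => (f a, g a)) := by
  obtain ⟨p, q, hp⟩ := hf
  obtain ⟨p', q', hp'⟩ := hg
  refine ⟨.seq cp01 (.seq (p'.shift 1) (.seq (mv 0 3) (.seq (mv 3 2) (.seq (p.shift 2)
    (.seq (mv 2 0) (.seq (mv 0 1) (.seq (.push 1 true) (.seq (mv 1 2) (mv 2 0))))))))),
    60 * Polynomial.X + 30 * q + 20 * q' + 60, fun a => ?_⟩
  have hn : (enc a).length = sz a := rfl
  have hfa : (enc (f a)).length ≤ sz a + q.eval (sz a) := by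
    have := (hp a).length_le 0
    simpa [mk, sz] using this
  have hga : (enc (g a)).length ≤ sz a + q'.eval (sz a) := by
    have := (hp' a).length_le 0
    simpa [mk, sz] using this
  set x := enc a
  set u := enc (f a)
  set v := enc (g a)
  have r1 := run_cp01 x
  have r2 : Run (p'.shift 1) (mk [x, x, [], []]) (mk [x, v, [], []]) (q'.eval (sz a)) :=
    (hp' a).sub [x] 2
  have r3 : Run (mv 0 3) (mk [x, v, [], []]) (mk [[], v, [], x.reverse]) (5 * x.length + 1) :=
    mv_mk (x := x) (by decide) (by simp) (by simp) rfl (by simp [mk]) le_rfl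
  have r4 : Run (mv 3 2) (mk [[], v, [], x.reverse]) (mk [[], v, x, []]) (5 * x.length + 1) :=
    mv_mk (x := x.reverse) (by decide) (by simp) (by simp) rfl (by simp [mk]) (by simp)
  have r5 : Run (p.shift 2) (mk [[], v, x, []]) (mk [[], v, u, []]) (q.eval (sz a)) :=
    (hp a).sub [[], v] 1
  have r6 : Run (mv 2 0) (mk [[], v, u, []]) (mk [u.reverse, v, [], []]) (5 * u.length + 1) :=
    mv_mk (x := u) (by decide) (by simp) (by simp) rfl (by simp [mk]) le_rfl
  have r7 : Run (mv 0 1) (mk [u.reverse, v, [], []]) (mk [[], u ++ v, [], []])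
      (5 * u.length + 1) :=
    mv_mk (x := u.reverse) (by decide) (by simp) (by simp) rfl (by simp [mk]) (by simp)
  have r8 : Run (.push 1 true) (mk [[], u ++ v, [], []]) (mk [[], true :: (u ++ v), [], []]) 1 :=
    push_mk (by simp) (by simp [mk])
  have r9 : Run (mv 1 2) (mk [[], true :: (u ++ v), [], []])
      (mk [[], [], (true :: (u ++ v)).reverse, []]) (5 * (true :: (u ++ v)).length + 1) :=
    mv_mk (x := true :: (u ++ v)) (by decide) (by simp) (by simp) rfl (by simp [mk]) le_rfl
  have r10 : Run (mv 2 0) (mk [[], [], (true :: (u ++ v)).reverse, []])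
      (mk [true :: (u ++ v), [], [], []]) (5 * (true :: (u ++ v)).length + 1) :=
    mv_mk (x := (true :: (u ++ v)).reverse) (by decide) (by simp) (by simp) rfl
      (by simp [mk]) (by rw [List.length_reverse])
  have := r1.seq (r2.seq (r3.seq (r4.seq (r5.seq (r6.seq (r7.seq (r8.seq (r9.seq r10))))))))
  refine this.cast (mk_nils [x] 3) (mk_nils [true :: (u ++ v)] 3) ?_
  simp only [List.length_cons, List.length_append, Polynomial.eval_add, Polynomial.eval_mul,
    Polynomial.eval_X, Polynomial.eval_ofNat]
  omega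

theorem PT.fst : PT (fun x : α × β => x.1) := by
  refine ⟨.seq (.pop 0) (.seq (parse 0 1 2) (.seq (clr 0) (mv 1 0))),
    20 * Polynomial.X + 20, fun x => ?_⟩
  obtain ⟨a, b⟩ := x
  have hs := sz_pair a b
  have ha : (enc a).length = sz a := rfl
  have hb : (enc b).length = sz b := rfl
  have r1 : Run (.pop 0) (mk [enc (a, b), [], []]) (mk [enc a ++ enc b, [], []]) 1 :=
    pop_mk (by simp) rfl
  have r2 : Run (parse 0 1 2) (mk [enc a ++ enc b, [], []]) (mk [enc b, (enc a).reverse, []])
      (7 * sz a + 3) :=
    parse_mk (a := Code.toT a) (r := enc b) (by decide) (by decide) (by decide) (by simp)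
      (by simp) (by simp) rfl rfl (by simp [mk, enc]) le_rfl
  have r3 : Run (clr 0) (mk [enc b, (enc a).reverse, []]) (mk [[], (enc a).reverse, []])
      (2 * sz b + 1) := clr_mk (x := enc b) (by simp) rfl (by simp) le_rfl
  have r4 : Run (mv 1 0) (mk [[], (enc a).reverse, []]) (mk [enc a, [], []]) (5 * sz a + 1) :=
    mv_mk (x := (enc a).reverse) (by decide) (by simp) (by simp) rfl (by simp [mk])
      (by simp [ha])
  refine (r1.seq (r2.seq (r3.seq r4))).cast (mk_nils [enc (a, b)] 2) (mk_nils [enc a] 2) ?_
  simp only [Polynomial.eval_add, Polynomial.eval_mul, Polynomial.eval_X,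
    Polynomial.eval_ofNat, hs]
  omega

theorem PT.snd : PT (fun x : α × β => x.2) := by
  refine ⟨.seq (.pop 0) (.seq (parse 0 1 2) (clr 1)),
    20 * Polynomial.X + 20, fun x => ?_⟩
  obtain ⟨a, b⟩ := x
  have hs := sz_pair a b
  have ha : (enc a).length = sz a := rfl
  have r1 : Run (.pop 0) (mk [enc (a, b), [], []]) (mk [enc a ++ enc b, [], []]) 1 :=
    pop_mk (by simp) rfl
  have r2 : Run (parse 0 1 2) (mk [enc a ++ enc b, [], []]) (mk [enc b, (enc a).reverse, []])
      (7 * sz a + 3) :=
    parse_mk (a := Code.toT a) (r := enc b) (by decide) (by decide) (by decide) (by simp)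
      (by simp) (by simp) rfl rfl (by simp [mk, enc]) le_rfl
  have r3 : Run (clr 1) (mk [enc b, (enc a).reverse, []]) (mk [enc b, [], []])
      (2 * sz a + 1) :=
    clr_mk (x := (enc a).reverse) (by simp) rfl (by simp) (by simp [ha])
  refine (r1.seq (r2.seq r3)).cast (mk_nils [enc (a, b)] 2) (mk_nils [enc b] 2) ?_
  simp only [Polynomial.eval_add, Polynomial.eval_mul, Polynomial.eval_X,
    Polynomial.eval_ofNat, hs]
  omega

/-! ### conditionals -/

theorem PT.cond {c : α → Bool} {f g : α → β} (hc : PT c) (hf : PT f) (hg : PT g) :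
    PT (fun a => bif c a then f a else g a) := by
  obtain ⟨p, q, hp⟩ := hc
  obtain ⟨p1, q1, hp1⟩ := hf
  obtain ⟨p0, q0, hp0⟩ := hg
  refine ⟨.seq cp01 (.seq (p.shift 1) (.cas 1 .skip (.seq (clr 1) p0) (.seq (clr 1) p1))),
    12 * Polynomial.X + q + q1 + q0 + 20, fun a => ?_⟩
  have hn : (enc a).length = sz a := rfl
  have r1 := run_cp01 (enc a)
  have r2 : Run (p.shift 1) (mk [enc a, enc a, [], []]) (mk [enc a, enc (c a), [], []])
      (q.eval (sz a)) := (hp a).sub [enc a] 2
  have r3 : ∀ y : List Bool, y.length ≤ 3 →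
      Run (clr 1) (mk [enc a, y, [], []]) (mk [enc a]) 7 := by
    intro y hy
    have : Run (clr 1) (mk [enc a, y, [], []]) (mk [enc a, [], [], []]) 7 :=
      clr_mk (x := y) (by simp) rfl (by simp) (by omega)
    exact this.cast rfl (mk_nils [enc a] 3) le_rfl
  cases hca : c a with
  | false =>
    have e : enc (c a) = [false] := by rw [hca]; rfl
    rw [e] at r2
    have r4 := run_cas0 (i := 1) (pe := .skip) (p1 := .seq (clr 1) p1)
      (s := mk [enc a, [false], [], []]) rfl ((r3 [false] (by simp)).seq (hp0 a))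
    refine (r1.seq (r2.seq r4)).cast (mk_nils [enc a] 3) (by simp only [hca, cond_false,
      cond_true]) ?_
    simp only [Polynomial.eval_add, Polynomial.eval_mul, Polynomial.eval_X,
      Polynomial.eval_ofNat]
    omega
  | true =>
    have e : enc (c a) = [true, false, false] := by rw [hca]; rfl
    rw [e] at r2
    have r4 := run_cas1 (i := 1) (pe := .skip) (p0 := .seq (clr 1) p0)
      (s := mk [enc a, [true, false, false], [], []]) rfl
      ((r3 [true, false, false] (by simp)).seq (hp1 a))
    refine (r1.seq (r2.seq r4)).cast (mk_nils [enc a] 3) (by simp only [hca, cond_false,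
      cond_true]) ?_
    simp only [Polynomial.eval_add, Polynomial.eval_mul, Polynomial.eval_X,
      Polynomial.eval_ofNat]
    omega

theorem PT.listCases {l : α → List β} {f : α → γ} {g : α × β × List β → γ} (hl : PT l)
    (hf : PT f) (hg : PT g) :
    PT (fun a => match l a with
      | [] => f a
      | b :: t => g (a, b, t)) := by
  obtain ⟨p, q, hp⟩ := hl
  obtain ⟨p0, q0, hp0⟩ := hf
  obtain ⟨p1, q1, hp1⟩ := hg
  refine ⟨.seq cp01 (.seq (p.shift 1) (.cas 1 .skip (.seq (clr 1) p0)
      (.seq (mv 0 2) (.seq (mv 2 1) (.seq (.push 1 true) (.seq (mv 1 2) (.seq (mv 2 0) p1))))))),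
    60 * Polynomial.X + 20 * q + q0 + q1.comp (2 * Polynomial.X + q + 1) + 50, fun a => ?_⟩
  have hn : (enc a).length = sz a := rfl
  have hla : (enc (l a)).length ≤ sz a + q.eval (sz a) := by
    have := (hp a).length_le 0
    simpa [mk, sz] using this
  have r1 := run_cp01 (enc a)
  have r2 : Run (p.shift 1) (mk [enc a, enc a, [], []]) (mk [enc a, enc (l a), [], []])
      (q.eval (sz a)) := (hp a).sub [enc a] 2
  cases hca : l a with
  | nil =>
    have e : enc (l a) = [false] := by rw [hca]; rfl
    rw [e] at r2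
    have r3 : Run (clr 1) (mk [enc a, [false], [], []]) (mk [enc a, [], [], []]) 7 :=
      clr_mk (x := [false]) (by simp) rfl (by simp) (by simp)
    have r3' := r3.cast rfl (mk_nils [enc a] 3) le_rfl
    have r4 := run_cas0 (i := 1) (pe := .skip)
      (p1 := (.seq (mv 0 2) (.seq (mv 2 1) (.seq (.push 1 true) (.seq (mv 1 2)
        (.seq (mv 2 0) p1))))))
      (s := mk [enc a, [false], [], []]) rfl (r3'.seq (hp0 a))
    refine (r1.seq (r2.seq r4)).cast (mk_nils [enc a] 3) (by simp only [hca, cond_false,
      cond_true]) ?_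
    simp only [Polynomial.eval_add, Polynomial.eval_mul, Polynomial.eval_X,
      Polynomial.eval_ofNat]
    omega
  | cons b t =>
    have e : enc (l a) = enc (b, t) := by rw [hca]; rfl
    rw [e] at r2 hla
    set x := enc a
    set y := enc (b, t) with hy
    have r5 : Run (mv 0 2) (mk [x, y, [], []]) (mk [[], y, x.reverse, []])
        (5 * x.length + 1) :=
      mv_mk (x := x) (by decide) (by simp) (by simp) rfl (by simp [mk]) le_rfl
    have r6 : Run (mv 2 1) (mk [[], y, x.reverse, []]) (mk [[], x ++ y, [], []])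
        (5 * x.length + 1) :=
      mv_mk (x := x.reverse) (by decide) (by simp) (by simp) rfl (by simp [mk]) (by simp)
    have r7 : Run (.push 1 true) (mk [[], x ++ y, [], []])
        (mk [[], true :: (x ++ y), [], []]) 1 := push_mk (by simp) (by simp [mk])
    have r8 : Run (mv 1 2) (mk [[], true :: (x ++ y), [], []])
        (mk [[], [], (true :: (x ++ y)).reverse, []]) (5 * (true :: (x ++ y)).length + 1) :=
      mv_mk (x := true :: (x ++ y)) (by decide) (by simp) (by simp) rfl (by simp [mk]) le_rfl
    have r9 : Run (mv 2 0) (mk [[], [], (true :: (x ++ y)).reverse, []])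
        (mk [true :: (x ++ y), [], [], []]) (5 * (true :: (x ++ y)).length + 1) :=
      mv_mk (x := (true :: (x ++ y)).reverse) (by decide) (by simp) (by simp) rfl
        (by simp [mk]) (by rw [List.length_reverse])
    have r9' := r9.cast rfl (mk_nils [true :: (x ++ y)] 3) le_rfl
    have r10 := hp1 (a, b, t)
    have r4 := run_cas1 (i := 1) (pe := .skip) (p0 := .seq (clr 1) p0)
      (s := mk [x, y, [], []]) (by rw [hy]; rfl)
      (r5.seq (r6.seq (r7.seq (r8.seq (r9'.seq r10)))))
    refine (r1.seq (r2.seq r4)).cast (mk_nils [x] 3) (by simp only [hca]) ?_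
    have h1 : sz (a, b, t) ≤ 2 * sz a + q.eval (sz a) + 1 := by
      rw [sz_pair]
      have : sz (b, t) = y.length := rfl
      omega
    have h2 := eval_mono q1 h1
    simp only at h2
    simp only [List.length_cons, List.length_append, Polynomial.eval_add, Polynomial.eval_mul,
      Polynomial.eval_X, Polynomial.eval_ofNat, Polynomial.eval_comp, Polynomial.eval_one]
    omega

end PTime
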