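import Mathlib

/-!
# Structured stack programs and their compilation to `Turing.FinTM2`

Registers `0, 1, 2, …` hold lists of bits (stacks).  `Exec p s s' t` : the program `p`, started in
the state `s`, halts in the state `s'` after exactly `t` elementary steps.
-/

open Turing StateTransition

namespace PTime

/-- a state: the contents of the stacks `0, 1, 2, …` -/
abbrev St := ℕ → List Bool

/-- structured stack programs -/
inductive Prog where
  /-- do nothing -/
  | skip : Prog
  /-- push the bit `b` on the stack `i` -/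
  | push (i : ℕ) (b : Bool) : Prog
  /-- remove the top of the stack `i` (if any) -/
  | pop (i : ℕ) : Prog
  /-- first `p`, then `q` -/
  | seq (p q : Prog) : Prog
  /-- continue with `pe`, `p0` or `p1` if the stack `i` is empty, has top `0` or has top `1` -/
  | cas (i : ℕ) (pe p0 p1 : Prog) : Prog
  /-- while the stack `i` is not empty do `p` -/
  | loop (i : ℕ) (p : Prog) : Prog
  deriving DecidableEq

open Function (update)

/-- `Exec p s s' t` : `p` started in `s` halts in `s'` after `t` steps -/
inductive Exec : Prog → St → St → ℕ → Prop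
  | skip (s : St) : Exec .skip s s 1
  | push (i : ℕ) (b : Bool) (s : St) : Exec (.push i b) s (update s i (b :: s i)) 1
  | pop (i : ℕ) (s : St) : Exec (.pop i) s (update s i (s i).tail) 1
  | seq {p q : Prog} {s s' s'' : St} {t t' : ℕ} : Exec p s s' t → Exec q s' s'' t' →
      Exec (.seq p q) s s'' (t + t' + 1)
  | casE {i : ℕ} {pe p0 p1 : Prog} {s s' : St} {t : ℕ} : s i = [] → Exec pe s s' t →
      Exec (.cas i pe p0 p1) s s' (t + 1)
  | cas0 {i : ℕ} {pe p0 p1 : Prog} {s s' : St} {t : ℕ} {l : List Bool} : s i = false :: l →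
      Exec p0 s s' t → Exec (.cas i pe p0 p1) s s' (t + 1)
  | cas1 {i : ℕ} {pe p0 p1 : Prog} {s s' : St} {t : ℕ} {l : List Bool} : s i = true :: l →
      Exec p1 s s' t → Exec (.cas i pe p0 p1) s s' (t + 1)
  | loopE {i : ℕ} {p : Prog} {s : St} : s i = [] → Exec (.loop i p) s s 1
  | loopS {i : ℕ} {p : Prog} {s s' s'' : St} {t t' : ℕ} : s i ≠ [] → Exec p s s' t →
      Exec (.loop i p) s' s'' t' → Exec (.loop i p) s s'' (t + t' + 1)

/-- `p` started in `s` halts in `s'` after at most `t` steps -/
def Run (p : Prog) (s s' : St) (t : ℕ) : Prop := ∃ t' ≤ t, Exec p s s' t'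

/-! ### The continuation machine -/

/-- a bound for the registers used -/
def Prog.bd : Prog → ℕ
  | .skip => 0
  | .push i _ => i + 1
  | .pop i => i + 1
  | .seq p q => max p.bd q.bd
  | .cas i pe p0 p1 => max (i + 1) (max pe.bd (max p0.bd p1.bd))
  | .loop i p => max (i + 1) p.bd

/-- the continuations reachable from `p :: c`, before `c` -/
def Prog.conts : Prog → List Prog → Finset (List Prog)
  | .skip, c => {.skip :: c}
  | .push i b, c => {.push i b :: c}
  | .pop i, c => {.pop i :: c}
  | .seq p q, c => insert (.seq p q :: c) (p.conts (q :: c) ∪ q.conts c)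
  | .cas i pe p0 p1, c =>
      insert (.cas i pe p0 p1 :: c) (pe.conts c ∪ (p0.conts c ∪ p1.conts c))
  | .loop i p, c => insert (.loop i p :: c) (p.conts (.loop i p :: c))

theorem Prog.mem_conts (p : Prog) (c : List Prog) : p :: c ∈ p.conts c := by
  cases p <;> simp [Prog.conts]

/-- the set of labels -/
def Prog.labs (p : Prog) : Finset (List Prog) := insert [] (p.conts [])

/-- the label type -/
abbrev Prog.Lab (p : Prog) : Type := {c : List Prog // c ∈ p.labs}

/-- the label of a continuation -/
def Prog.lab (p : Prog) (c : List Prog) : p.Lab :=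
  if h : c ∈ p.labs then ⟨c, h⟩ else ⟨[], by simp [Prog.labs]⟩

theorem Prog.lab_val (p : Prog) {c : List Prog} (h : c ∈ p.labs) : (p.lab c).1 = c := by
  simp [Prog.lab, h]

/-- the stack `i` of the machine -/
def idx (N : ℕ) (i : ℕ) : Fin (N + 1) := if h : i < N + 1 then ⟨i, h⟩ else 0

theorem idx_val {N i : ℕ} (h : i < N + 1) : (idx N i).1 = i := by simp [idx, h]

/-- the statement attached to a continuation -/
def stmt {Λ : Type} (N : ℕ) (lab : List Prog → Λ) :
    List Prog → TM2.Stmt (fun _ : Fin (N + 1) => Bool) Λ (Option Bool)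
  | [] => .load (fun _ => none) .halt
  | .skip :: c => .goto fun _ => lab c
  | .push i b :: c => .push (idx N i) (fun _ => b) (.goto fun _ => lab c)
  | .pop i :: c => .pop (idx N i) (fun s _ => s) (.goto fun _ => lab c)
  | .seq p q :: c => .goto fun _ => lab (p :: q :: c)
  | .cas i pe p0 p1 :: c => .peek (idx N i) (fun _ o => o)
      (.goto fun o => match o with
        | none => lab (pe :: c)
        | some false => lab (p0 :: c)
        | some true => lab (p1 :: c))
  | .loop i p :: c => .peek (idx N i) (fun _ o => o)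
      (.goto fun o => match o with
        | none => lab c
        | some _ => lab (p :: .loop i p :: c))

/-- the statements of the program `p` -/
def Prog.m (p : Prog) (c : p.Lab) : TM2.Stmt (fun _ : Fin (p.bd + 1) => Bool) p.Lab (Option Bool) :=
  stmt p.bd p.lab c.1

/-- the machine of the program `p` -/
def Prog.tm (p : Prog) : FinTM2 where
  K := Fin (p.bd + 1)
  k₀ := 0
  k₁ := 0
  Γ := fun _ => Bool
  Λ := p.Lab
  main := p.lab [p]
  σ := Option Bool
  initialState := none
  m := p.m

/-- configurations of the machine -/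
abbrev Prog.C (p : Prog) : Type := TM2.Cfg (fun _ : Fin (p.bd + 1) => Bool) p.Lab (Option Bool)

/-- configuration of the machine at the continuation `c` -/
def Prog.cfg (p : Prog) (c : List Prog) (v : Option Bool) (s : St) : p.C :=
  ⟨some (p.lab c), v, fun k => s k.1⟩

theorem restr_update {N : ℕ} (s : St) {i : ℕ} (hi : i < N + 1) (x : List Bool) :
    (fun k : Fin (N + 1) => update s i x k.1) =
      update (fun k : Fin (N + 1) => s k.1) (idx N i) x := by
  funext k
  by_cases h : k = idx N i
  · subst h
    simp [idx_val hi]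
  · have : k.1 ≠ i := by
      intro h'
      apply h
      apply Fin.ext
      rw [idx_val hi, h']
    simp [Function.update_of_ne h, Function.update_of_ne this]

/-- one step of the machine -/
theorem step_cfg (p : Prog) {c : List Prog} (hc : c ∈ p.labs) (v : Option Bool) (s : St) :
    TM2.step p.m (p.cfg c v s) =
      some (TM2.stepAux (stmt p.bd p.lab c) v (fun k : Fin (p.bd + 1) => s k.1)) := by
  simp only [TM2.step, Prog.cfg, Prog.m]
  rw [p.lab_val hc]

/-- `n` steps from `a` to `b` -/
def Steps (p : Prog) (n : ℕ) (a b : p.C) : Prop :=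
  (flip bind (TM2.step p.m))^[n] (some a) = some b

theorem Steps.zero (p : Prog) (a : p.C) : Steps p 0 a a := rfl

theorem Steps.one {p : Prog} {a b : p.C} (h : TM2.step p.m a = some b) : Steps p 1 a b := by
  show (flip bind (TM2.step p.m)) (some a) = some b
  simpa [flip] using h

theorem Steps.trans {p : Prog} {m n : ℕ} {a b c : p.C} (h1 : Steps p m a b)
    (h2 : Steps p n b c) : Steps p (m + n) a c := by
  unfold Steps at *
  rw [Nat.add_comm m n, Function.iterate_add_apply, h1, h2]

theorem sim (P : Prog) {q : Prog} {s s' : St} {t : ℕ} (h : Exec q s s' t) :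
    ∀ (c : List Prog) (v : Option Bool), q.conts c ⊆ P.labs → c ∈ P.labs → q.bd ≤ P.bd + 1 →
      ∃ v', Steps P t (P.cfg (q :: c) v s) (P.cfg c v' s') := by
  induction h with
  | skip s =>
    intro c v h1 h2 h3
    refine ⟨v, Steps.one ?_⟩
    rw [step_cfg P (h1 (Prog.mem_conts _ _))]
    rfl
  | push i b s =>
    intro c v h1 h2 h3
    have hi : i < P.bd + 1 := h3
    refine ⟨v, Steps.one ?_⟩
    rw [step_cfg P (h1 (Prog.mem_conts _ _))]
    simp only [stmt, TM2.stepAux, Prog.cfg]
    rw [restr_update s hi, idx_val hi]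
  | pop i s =>
    intro c v h1 h2 h3
    have hi : i < P.bd + 1 := h3
    refine ⟨v, Steps.one ?_⟩
    rw [step_cfg P (h1 (Prog.mem_conts _ _))]
    simp only [stmt, TM2.stepAux, Prog.cfg]
    rw [restr_update s hi, idx_val hi]
  | @seq p q s s' s'' t t' _ _ ih1 ih2 =>
    intro c v h1 h2 h3
    simp only [Prog.conts, Finset.insert_subset_iff, Finset.union_subset_iff] at h1
    simp only [Prog.bd, max_le_iff] at h3
    have hq : q :: c ∈ P.labs := h1.2.2 (Prog.mem_conts _ _)
    obtain ⟨v1, e1⟩ := ih1 (q :: c) v h1.2.1 hq h3.1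
    obtain ⟨v2, e2⟩ := ih2 c v1 h1.2.2 h2 h3.2
    refine ⟨v2, ?_⟩
    have e0 : Steps P 1 (P.cfg (.seq p q :: c) v s) (P.cfg (p :: q :: c) v s) := by
      apply Steps.one
      rw [step_cfg P h1.1]
      rfl
    have := e0.trans (e1.trans e2)
    rwa [show 1 + (t + t') = t + t' + 1 by ring] at this
  | @casE i pe p0 p1 s s' t hs _ ih =>
    intro c v h1 h2 h3
    simp only [Prog.conts, Finset.insert_subset_iff, Finset.union_subset_iff] at h1
    simp only [Prog.bd, max_le_iff] at h3
    obtain ⟨v1, e1⟩ := ih c none h1.2.1 h2 h3.2.1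
    refine ⟨v1, ?_⟩
    have hi : i < P.bd + 1 := h3.1
    have e0 : Steps P 1 (P.cfg (.cas i pe p0 p1 :: c) v s) (P.cfg (pe :: c) none s) := by
      apply Steps.one
      rw [step_cfg P h1.1]
      simp only [stmt, TM2.stepAux, Prog.cfg, idx_val hi, hs, List.head?_nil]
    have := e0.trans e1
    rwa [Nat.add_comm] at this
  | @cas0 i pe p0 p1 s s' t l hs _ ih =>
    intro c v h1 h2 h3
    simp only [Prog.conts, Finset.insert_subset_iff, Finset.union_subset_iff] at h1
    simp only [Prog.bd, max_le_iff] at h3
    obtain ⟨v1, e1⟩ := ih c (some false) h1.2.2.1 h2 h3.2.2.1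
    refine ⟨v1, ?_⟩
    have hi : i < P.bd + 1 := h3.1
    have e0 : Steps P 1 (P.cfg (.cas i pe p0 p1 :: c) v s) (P.cfg (p0 :: c) (some false) s) := by
      apply Steps.one
      rw [step_cfg P h1.1]
      simp only [stmt, TM2.stepAux, Prog.cfg, idx_val hi, hs, List.head?_cons]
    have := e0.trans e1
    rwa [Nat.add_comm] at this
  | @cas1 i pe p0 p1 s s' t l hs _ ih =>
    intro c v h1 h2 h3
    simp only [Prog.conts, Finset.insert_subset_iff, Finset.union_subset_iff] at h1
    simp only [Prog.bd, max_le_iff] at h3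
    obtain ⟨v1, e1⟩ := ih c (some true) h1.2.2.2 h2 h3.2.2.2
    refine ⟨v1, ?_⟩
    have hi : i < P.bd + 1 := h3.1
    have e0 : Steps P 1 (P.cfg (.cas i pe p0 p1 :: c) v s) (P.cfg (p1 :: c) (some true) s) := by
      apply Steps.one
      rw [step_cfg P h1.1]
      simp only [stmt, TM2.stepAux, Prog.cfg, idx_val hi, hs, List.head?_cons]
    have := e0.trans e1
    rwa [Nat.add_comm] at this
  | @loopE i p s hs =>
    intro c v h1 h2 h3
    simp only [Prog.bd, max_le_iff] at h3
    have hi : i < P.bd + 1 := h3.1
    refine ⟨none, Steps.one ?_⟩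
    rw [step_cfg P (h1 (Prog.mem_conts _ _))]
    simp only [stmt, TM2.stepAux, Prog.cfg, idx_val hi, hs, List.head?_nil]
  | @loopS i p s s' s'' t t' hs _ _ ih1 ih2 =>
    intro c v h1 h2 h3
    have h1' := h1
    simp only [Prog.conts, Finset.insert_subset_iff] at h1
    have h3' := h3
    simp only [Prog.bd, max_le_iff] at h3
    have hi : i < P.bd + 1 := h3.1
    obtain ⟨b, l, hl⟩ : ∃ b l, s i = b :: l := by
      cases hsi : s i with
      | nil => exact absurd hsi hs
      | cons b l => exact ⟨b, l, rfl⟩
    obtain ⟨v1, e1⟩ := ih1 (.loop i p :: c) (some b) h1.2 h1.1 h3.2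
    obtain ⟨v2, e2⟩ := ih2 c v1 h1' h2 h3'
    refine ⟨v2, ?_⟩
    have e0 : Steps P 1 (P.cfg (.loop i p :: c) v s)
        (P.cfg (p :: .loop i p :: c) (some b) s) := by
      apply Steps.one
      rw [step_cfg P h1.1]
      simp only [stmt, TM2.stepAux, Prog.cfg, idx_val hi, hl, List.head?_cons]
    have := e0.trans (e1.trans e2)
    rwa [show 1 + (t + t') = t + t' + 1 by ring] at this

/-- the state with `x` on the stack `0` and all other stacks empty -/
def ini (x : List Bool) : St := fun i => if i = 0 then x else []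

theorem final_cfg (p : Prog) (v : Option Bool) (s : St) :
    TM2.step p.m (p.cfg [] v s) = some ⟨none, none, fun k => s k.1⟩ := by
  rw [step_cfg p (Finset.mem_insert_self _ _)]
  simp only [stmt, TM2.stepAux]

theorem run_cfg (p : Prog) {s s' : St} {t : ℕ} (h : Exec p s s' t) :
    Steps p (t + 1) (p.cfg [p] none s) ⟨none, none, fun k => s' k.1⟩ := by
  obtain ⟨v, hv⟩ := sim p h [] none
    (by intro x hx; exact Finset.mem_insert_of_mem hx) (Finset.mem_insert_self _ _)
    (Nat.le_succ _)
  exact hv.trans (Steps.one (final_cfg p v s'))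

theorem initList_eq (p : Prog) (x : List Bool) :
    initList p.tm x = p.cfg [p] none (ini x) := by
  unfold initList Prog.cfg
  congr 1
  funext k
  by_cases hk : k = p.tm.k₀
  · subst hk
    exact (dif_pos rfl).trans (by simp [ini, Prog.tm])
  · refine (dif_neg hk).trans ?_
    have : (k : Fin (p.bd + 1)).1 ≠ 0 := fun h' => hk (Fin.ext h')
    exact (if_neg this).symm

theorem haltList_eq (p : Prog) (x : List Bool) :
    haltList p.tm x = (⟨none, none, fun k => ini x k.1⟩ : p.C) := by
  unfold haltList
  congr 1
  funext k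
  by_cases hk : k = p.tm.k₁
  · subst hk
    exact (dif_pos rfl).trans (by simp [ini, Prog.tm])
  · refine (dif_neg hk).trans ?_
    have : (k : Fin (p.bd + 1)).1 ≠ 0 := fun h' => hk (Fin.ext h')
    exact (if_neg this).symm

/-- compilation of programs to Mathlib's polynomial time machines -/
theorem compile {α β : Type} (ea : α → List Bool) (eb : β → List Bool) (f : α → β)
    (p : Prog) (q : Polynomial ℕ)
    (h : ∀ a, Run p (ini (ea a)) (ini (eb (f a))) (q.eval (ea a).length)) :
    Nonempty (TM2ComputableInPolyTime ea eb f) := by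
  have key : ∀ a, ∃ n ≤ (q + 1).eval (ea a).length,
      (flip bind p.tm.step)^[n] (some (initList p.tm (ea a))) =
        some (haltList p.tm (eb (f a))) := by
    intro a
    obtain ⟨t, ht, he⟩ := h a
    refine ⟨t + 1, by simpa using ht, ?_⟩
    rw [initList_eq, haltList_eq]
    exact run_cfg p he
  choose n hn hs using key
  refine ⟨{ tm := p.tm, inputAlphabet := Equiv.refl Bool, outputAlphabet := Equiv.refl Bool,
            time := q + 1, outputsFun := fun a =>
              { steps := n a
                evals_in_steps := ?_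
                steps_le_m := hn a } }⟩
  have aux : ∀ x y : List Bool, x = ea a → y = eb (f a) →
      (flip bind p.tm.step)^[n a] (some (initList p.tm x)) = some (haltList p.tm y) := by
    intro x y hx hy
    subst hx hy
    exact hs a
  exact aux _ _ (List.map_id _) (List.map_id _)

end PTime
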