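import Pool.Agent.Work.MP_2f1fa1_lc.CLTM2
import Pool.Agent.Work.MP_2f1fa1_lc.PDiv

/-!
# Mathlib's polynomial time machines compute `PT` functions
-/

open Turing StateTransition

namespace PTime

open Function (update)

/-! ### functions on finite types -/

theorem headD_of_all {β : Type} {L : List β} {x d : β} (h1 : ∀ y ∈ L, y = x) (h2 : x ∈ L) :
    L.headD d = x := by
  cases L with
  | nil => simp at h2
  | cons y L => exact h1 y List.mem_cons_self

theorem PT.fin {A β : Type} [Finite A] [Code A] [Code β] (v : A → β) : PT v := by
  classical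
  cases nonempty_fintype A
  rcases isEmpty_or_nonempty A with h | ⟨⟨a0⟩⟩
  · exact ⟨.skip, 0, fun a => (h.false a).elim⟩
  · have h := PT.headD (PT.flatMapC (Finset.univ : Finset A).toList
      (f := fun (g a : A) => bif decide (a = g) then [v g] else [])
      (fun g => PT.cond (PT.eq PT.id (PT.const g)) (PT.const _) (PT.const [])))
      (PT.const (α := A) (v a0))
    refine h.congr fun a => ?_
    apply headD_of_all
    · intro y hy
      rw [List.mem_flatMap] at hy
      obtain ⟨g, _, hy⟩ := hy
      by_cases hg : a = g
      · rw [decide_eq_true hg] at hy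
        subst hg
        simpa using hy
      · rw [decide_eq_false hg] at hy
        simp at hy
    · rw [List.mem_flatMap]
      exact ⟨a, by simp, by simp⟩

/-! ### simulation of a machine with finite control -/

section fm

variable {K A Q : Type} [DecidableEq K] [Fintype K]

/-- index of a stack -/
noncomputable def ki (k : K) : ℕ := (Finset.univ : Finset K).toList.idxOf k

/-- replace an entry -/
def st {β : Type} (l : List β) (i : ℕ) (x : β) : List β := l.take i ++ x :: l.drop (i + 1)

theorem st_map {β : Type} (g : K → β) (k : K) (x : β) :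
    st ((Finset.univ : Finset K).toList.map g) (ki k) x =
      (Finset.univ : Finset K).toList.map (update g k x) := by
  have hk : k ∈ (Finset.univ : Finset K).toList := by simp
  have hlt : ki k < ((Finset.univ : Finset K).toList.map g).length := by
    rw [List.length_map]
    exact List.idxOf_lt_length_of_mem hk
  have h0 : st ((Finset.univ : Finset K).toList.map g) (ki k) x =
      ((Finset.univ : Finset K).toList.map g).set (ki k) x := by
    rw [List.set_eq_take_append_cons_drop, if_pos hlt]
    rfl
  rw [h0]
  refine List.ext_getElem (by simp) fun j h1 h2 => ?_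
  rw [List.getElem_set, List.getElem_map, List.getElem_map]
  by_cases hj : ki k = j
  · rw [if_pos hj]
    have : (Finset.univ : Finset K).toList[j]'(by simpa using h2) = k := by
      subst hj
      exact List.getElem_idxOf _
    rw [this, Function.update_self]
  · rw [if_neg hj, Function.update_of_ne]
    intro h
    apply hj
    rw [ki, ← h]
    exact (Finset.nodup_toList _).idxOf_getElem j _

theorem getD_map_ki {β : Type} (g : K → β) (k : K) (d : β) :
    ((Finset.univ : Finset K).toList.map g).getD (ki k) d = g k := by
  have hk : k ∈ (Finset.univ : Finset K).toList := by simp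
  have hlt : ki k < ((Finset.univ : Finset K).toList.map g).length := by
    rw [List.length_map]
    exact List.idxOf_lt_length_of_mem hk
  rw [List.getD_eq_getElem _ _ hlt, List.getElem_map]
  congr 1
  exact List.getElem_idxOf _

open Classical in
/-- the index of an element -/
noncomputable def cidx {X : Type} (L : List X) (x : X) : ℕ := L.idxOf x

theorem cidx_le {X : Type} (L : List X) (x : X) : cidx L x ≤ L.length := by
  classical
  exact List.idxOf_le_length

theorem getD_map_idxOf {X β : Type} (L : List X) (g : X → β) (q : X) (hq : q ∈ L) (d : β) :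
    (L.map g).getD (cidx L q) d = g q := by
  classical
  unfold cidx
  have hlt : L.idxOf q < (L.map g).length := by
    rw [List.length_map]
    exact List.idxOf_lt_length_of_mem hq
  rw [List.getD_eq_getElem _ _ hlt, List.getElem_map]
  congr 1
  exact List.getElem_idxOf _

/-- the code of a configuration -/
noncomputable def FM.rep (M : FM K A Q) (c : Q × (K → List A)) : ℕ × List (List ℕ) :=
  (cidx M.Ql c.1, (Finset.univ : Finset K).toList.map fun k => (c.2 k).map fun a => cidx M.Al a)

/-- the effect of an action on codes -/
noncomputable def FM.br (M : FM K A Q) (S : List (List ℕ)) : Act K A Q → ℕ × List (List ℕ)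
  | .push k a q' => (cidx M.Ql q', st S (ki k) (cidx M.Al a :: S.getD (ki k) []))
  | .pop k f => ((M.Ol.map fun o => cidx M.Ql (f o)).getD
      (((S.getD (ki k) []).map fun i => i + 1).headD 0) 0, st S (ki k) (S.getD (ki k) []).tail)
  | .goto q' => (cidx M.Ql q', S)

/-- one step on codes -/
noncomputable def FM.sstep (M : FM K A Q) (s : ℕ × List (List ℕ)) : ℕ × List (List ℕ) :=
  (M.Ql.map fun q => M.br s.2 (M.act q)).getD s.1 (0, [])

theorem sstep_rep (M : FM K A Q) {c : Q × (K → List A)} (h : M.Good c) :
    M.sstep (M.rep c) = M.rep (M.step c) := by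
  classical
  obtain ⟨q, S⟩ := c
  obtain ⟨h1, h2⟩ := h
  have e0 : M.sstep (M.rep (q, S)) = M.br ((Finset.univ : Finset K).toList.map
      fun k => (S k).map fun a => cidx M.Al a) (M.act q) := by
    unfold FM.sstep FM.rep
    exact getD_map_idxOf M.Ql _ q h1 _
  rw [e0]
  unfold FM.step
  simp only
  cases ha : M.act q with
  | push k a q' =>
    simp only [FM.br, FM.rep]
    rw [getD_map_ki, st_map]
    congr 2
    funext k'
    by_cases hk : k' = k
    · subst hk; simp
    · simp [Function.update_of_ne hk]
  | pop k f =>
    simp only [FM.br, FM.rep]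
    rw [getD_map_ki, st_map]
    refine Prod.ext ?_ ?_
    · simp only
      cases hS : S k with
      | nil => simp [FM.Ol]
      | cons a l =>
        have ha' : a ∈ M.Al := h2 k a (by simp [hS])
        have := getD_map_idxOf M.Al (fun a => cidx M.Ql (f (some a))) a ha' 0
        simp only [List.map_cons, List.headD_cons, FM.Ol, List.head?_cons, List.map_map]
        rw [List.getD_cons_succ]
        exact this
    · simp only
      congr 1
      funext k'
      by_cases hk : k' = k
      · subst hk; simp [List.map_tail]
      · simp [Function.update_of_ne hk]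
  | goto q' => simp only [FM.br, FM.rep]

theorem sstep_iter (M : FM K A Q) {c : Q × (K → List A)} (h : M.Good c) (n : ℕ) :
    M.sstep^[n] (M.rep c) = M.rep (M.step^[n] c) := by
  induction n with
  | zero => rfl
  | succ n ih =>
    rw [Function.iterate_succ_apply', Function.iterate_succ_apply', ih, sstep_rep M (h.iter n)]

variable {α β : Type} [Code α] [Code β]

theorem PT.st {l : α → List β} {x : α → β} (i : ℕ) (hl : PT l) (hx : PT x) :
    PT (fun a => st (l a) i (x a)) :=
  (PT.take hl (PT.const i)).append (hx.cons (PT.drop hl (PT.const (i + 1))))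

theorem pt_br (M : FM K A Q) (act : Act K A Q) {S : α → List (List ℕ)} (hS : PT S) :
    PT (fun a => M.br (S a) act) := by
  classical
  cases act with
  | push k b q' =>
    exact (PT.const _).pair (PT.st _ hS ((PT.const _).cons (PT.getD hS (PT.const _)
      (PT.const []))))
  | pop k f =>
    have h1 : PT (fun a => (S a).getD (ki k) []) := PT.getD hS (PT.const _) (PT.const [])
    exact (PT.getD (PT.const _) (PT.headD (PT.map (g := fun x : α × ℕ => x.2 + 1) h1 PT.snd.succ)
      (PT.const 0)) (PT.const 0)).pair (PT.st _ hS h1.tail)
  | goto q' => exact (PT.const _).pair hS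

theorem pt_sstep (M : FM K A Q) : PT (fun s : ℕ × List (List ℕ) => M.sstep s) :=
  PT.getD (PT.mapC M.Ql fun q => pt_br M (M.act q) PT.snd) PT.fst (PT.const _)

theorem PT.sim (M : FM K A Q) {s : α → Q × (K → List A)} {n : α → ℕ}
    (hs : PT (fun a => M.rep (s a))) (hg : ∀ a, M.Good (s a)) (hn : PT n) :
    PT (fun a => M.rep (M.step^[n a] (s a))) := by
  classical
  obtain ⟨qs, hqs⟩ := hs.size
  obtain ⟨qn, hqn⟩ := hn.size
  have h := PT.iterate (g := fun x : α × ℕ × List (List ℕ) => M.sstep x.2) hn hs
    ((pt_sstep M).comp PT.snd)
    (Polynomial.C (Fintype.card K) * ((qs + qn) * Polynomial.C (2 * M.Al.length + 2) + 2) +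
      Polynomial.C (2 * M.Ql.length + 3)) (by
      intro a k hk
      show sz (M.sstep^[k] (M.rep (s a))) ≤ _
      rw [sstep_iter M (hg a)]
      have e1 : ∀ kk, ((M.step^[k] (s a)).2 kk).length ≤ qs.eval (sz a) + qn.eval (sz a) := by
        intro kk
        have h1 := iter_length M (s a) kk k
        have h2 : ((s a).2 kk).length ≤ sz (M.rep (s a)) := by
          have h3 := length_le_sz (((s a).2 kk).map fun a => cidx M.Al a)
          rw [List.length_map] at h3
          refine h3.trans ?_
          have h4 : (((s a).2 kk).map fun a => cidx M.Al a) ∈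
              (Finset.univ : Finset K).toList.map fun k => ((s a).2 k).map
                fun a => cidx M.Al a := List.mem_map.2 ⟨kk, by simp, rfl⟩
          refine (sz_mem h4).trans ?_
          show _ ≤ sz (_, _)
          rw [sz_pair]
          omega
        have h5 := hqs a
        have h6 := hqn a
        rw [sz_nat] at h6
        omega
      show sz (_, _) ≤ _
      rw [sz_pair, sz_nat]
      have h1 : cidx M.Ql (M.step^[k] (s a)).1 ≤ M.Ql.length := cidx_le _ _
      have h2 : sz ((Finset.univ : Finset K).toList.map fun k' =>
          ((M.step^[k] (s a)).2 k').map fun a => cidx M.Al a) ≤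
          Fintype.card K * ((qs.eval (sz a) + qn.eval (sz a)) * (2 * M.Al.length + 2) + 2) + 1 := by
        refine (sz_list_le (B := (qs.eval (sz a) + qn.eval (sz a)) * (2 * M.Al.length + 2) + 1)
          ?_).trans ?_
        · intro b hb
          obtain ⟨k', _, rfl⟩ := List.mem_map.1 hb
          refine (sz_list_le (B := 2 * M.Al.length + 1) ?_).trans ?_
          · intro x hx
            obtain ⟨y, _, rfl⟩ := List.mem_map.1 hx
            rw [sz_nat]
            have : cidx M.Al y ≤ M.Al.length := cidx_le _ _
            omega
          · rw [List.length_map]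
            have := Nat.mul_le_mul_right (2 * M.Al.length + 2) (e1 k')
            rw [show 2 * M.Al.length + 1 + 1 = 2 * M.Al.length + 2 from rfl]
            omega
        · rw [List.length_map, Finset.length_toList, Finset.card_univ]
      simp only [Polynomial.eval_add, Polynomial.eval_mul, Polynomial.eval_C,
        Polynomial.eval_ofNat]
      omega)
  refine h.congr fun a => ?_
  show M.sstep^[n a] (M.rep (s a)) = _
  exact sstep_iter M (hg a) _

end fm

/-! ### Mathlib's machines -/

/-- A function computed by a polynomial time machine of Mathlib is a `PT` function, for every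
input encoding which is itself a `PT` function. -/
theorem PT.ofTM2 {α β A B : Type} [Code α] [Code A] [Code B] [Inhabited B] {ea : α → List A}
    {eb : β → List B} {f : α → β} (h : TM2ComputableInPolyTime ea eb f) (hea : PT ea) :
    PT (fun a => eb (f a)) := by
  classical
  let tm := h.tm
  have := tm.kFin
  have := tm.ΛFin
  have := tm.σFin
  have := tm.Γk₀Fin
  have hfA : Finite A := Finite.of_equiv _ h.inputAlphabet
  let M : FM tm.K (Σ k, tm.Γ k) (Ctl tm.K tm.Γ tm.Λ tm.σ) := toFM tm.m tm.k₀
  have hM : M.act = cact tm.m := rfl
  let D : ℕ := ∑ l : tm.Λ, dep (tm.m l)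
  have hD : ∀ l, dep (tm.m l) ≤ D := fun l =>
    Finset.single_le_sum (f := fun l => dep (tm.m l)) (fun _ _ => Nat.zero_le _)
      (Finset.mem_univ l)
  let s : α → Ctl tm.K tm.Γ tm.Λ tm.σ × (tm.K → List (Σ k, tm.Γ k)) := fun a =>
    ctlOf tm.m (initList tm (List.map h.inputAlphabet.invFun (ea a)))
  have hstk : ∀ a k, (s a).2 k = if k = tm.k₀ then
      (ea a).map (fun x => (⟨tm.k₀, h.inputAlphabet.invFun x⟩ : Σ k, tm.Γ k)) else [] := by
    intro a k
    show ((initList tm (List.map h.inputAlphabet.invFun (ea a))).stk k).map (Sigma.mk k) = _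
    rw [initList_stk]
    by_cases hk : k = tm.k₀
    · subst hk
      rw [dif_pos rfl, if_pos rfl]
      simp [Function.comp_def]
    · rw [dif_neg hk, if_neg hk]
      rfl
  have hgood : ∀ a, M.Good (s a) := by
    intro a
    refine ⟨?_, fun k b hb => ?_⟩
    · exact List.mem_append_left _ (List.mem_flatMap.2 ⟨_, List.mem_flatMap.2
          ⟨tm.main, by simp, self_mem_subs _⟩, List.mem_map.2 ⟨_, by simp, rfl⟩⟩)
    · rw [hstk] at hb
      split_ifs at hb with hk
      · obtain ⟨x, _, rfl⟩ := List.mem_map.1 hb
        exact List.mem_append_left _ (List.mem_map.2 ⟨_, by simp, rfl⟩)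
      · simp at hb
  have hs : PT (fun a => M.rep (s a)) := by
    have h1 : PT (fun a => (cidx M.Ql (Ctl.run (tm.m tm.main) tm.initialState :
        Ctl tm.K tm.Γ tm.Λ tm.σ), (Finset.univ : Finset tm.K).toList.map fun k =>
          if k = tm.k₀ then (ea a).map (fun x => cidx M.Al
            (⟨tm.k₀, h.inputAlphabet.invFun x⟩ : Σ k, tm.Γ k)) else [])) := by
      refine (PT.const _).pair (PT.mapC _ fun k => ?_)
      by_cases hk : k = tm.k₀
      · simp only [if_pos hk]
        exact PT.map (g := fun y : α × A => cidx M.Al
          (⟨tm.k₀, h.inputAlphabet.invFun y.2⟩ : Σ k, tm.Γ k)) hea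
          ((PT.fin fun x : A => cidx M.Al
            (⟨tm.k₀, h.inputAlphabet.invFun x⟩ : Σ k, tm.Γ k)).comp PT.snd)
      · simp only [if_neg hk]
        exact PT.const []
    refine h1.congr fun a => ?_
    refine Prod.ext rfl ?_
    refine List.map_congr_left fun k _ => ?_
    show _ = ((s a).2 k).map fun a => cidx M.Al a
    rw [hstk]
    split_ifs with hk
    · rw [List.map_map]
      rfl
    · rfl
  let n : α → ℕ := fun a => D * h.time.eval (ea a).length
  have hn : PT n := (PT.const D).mul (PT.polyEval h.time hea.length)
  have hfin : ∀ a, M.step^[n a] (s a) =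
      (.halt, conv (haltList tm (List.map h.outputAlphabet.invFun (eb (f a)))).stk) := by
    intro a
    have E := h.outputsFun a
    obtain ⟨j, hj, e⟩ := macro_steps tm.m M hM D hD E.steps _ _ E.evals_in_steps
    have h1 : n a = (n a - j) + j := by
      have : D * E.steps ≤ n a := Nat.mul_le_mul_left _ E.steps_le_m
      omega
    rw [h1, Function.iterate_add_apply]
    have e' : M.step^[j] (s a) =
        (.halt, conv (haltList tm (List.map h.outputAlphabet.invFun (eb (f a)))).stk) := e
    rw [e']
    exact halt_iter tm.m M hM _ _
  have hsim := PT.sim M hs hgood hn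
  let tab : List B := M.Al.map fun a => ((dec tm.k₁ a).map h.outputAlphabet).getD default
  have hout : PT (fun a => ((M.rep (M.step^[n a] (s a))).2.getD (ki tm.k₁) []).map
      fun i => tab.getD i default) :=
    PT.map (g := fun x : α × ℕ => tab.getD x.2 default)
      (PT.getD (PT.snd' hsim) (PT.const _) (PT.const []))
      (PT.getD (PT.const tab) PT.snd (PT.const default))
  refine hout.congr fun a => ?_
  have hg := (hgood a).iter (n a)
  rw [hfin a] at hg ⊢
  show (((Finset.univ : Finset tm.K).toList.map _).getD (ki tm.k₁) []).map _ = _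
  rw [getD_map_ki]
  show ((((haltList tm (List.map h.outputAlphabet.invFun (eb (f a)))).stk tm.k₁).map
    (Sigma.mk tm.k₁)).map fun a => cidx M.Al a).map (fun i => tab.getD i default) = _
  rw [haltList_stk, List.map_map, List.map_map, List.map_map]
  have hid : ∀ b ∈ eb (f a), tab.getD (cidx M.Al
      (⟨tm.k₁, h.outputAlphabet.invFun b⟩ : Σ k, tm.Γ k)) default = b := by
    intro b hb
    have hmem : (⟨tm.k₁, h.outputAlphabet.invFun b⟩ : Σ k, tm.Γ k) ∈ M.Al := by
      refine hg.2 tm.k₁ _ ?_
      show _ ∈ ((haltList tm (List.map h.outputAlphabet.invFun (eb (f a)))).stk tm.k₁).map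
        (Sigma.mk tm.k₁)
      rw [haltList_stk]
      exact List.mem_map.2 ⟨_, List.mem_map.2 ⟨b, hb, rfl⟩, rfl⟩
    have h1 := getD_map_idxOf M.Al (fun a => ((dec tm.k₁ a).map h.outputAlphabet).getD default)
      _ hmem default
    refine h1.trans ?_
    rw [dec_mk]
    simp
  conv_rhs => rw [← List.map_id (eb (f a))]
  exact List.map_congr_left fun b hb => hid b hb

end PTime
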