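import Pool.Agent.Work.MP_2f1fa1_lc.PDiv

/-!
# The table of a CNF, the monotone version
-/

namespace PTime

/-- names of the variables (the empty name is always included) -/
def names (φ : CNF) : List (List Bool) := nub ([] :: φ.flatMap fun C => C.map fun l => l.2)

/-- the clauses (a tautology is always included) -/
def clauses (φ : CNF) : CNF := [(true, []), (false, [])] :: φ

/-- number of variables -/
def nV (φ : CNF) : ℕ := (names φ).length

/-- number of clauses -/
def nC (φ : CNF) : ℕ := (clauses φ).length

/-- `occ φ r j`: literal `r` (`2 i` is the variable number `i`, `2 i + 1` its negation) occurs in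
clause `j` -/
def occ (φ : CNF) (r j : ℕ) : Bool :=
  decide ((decide (r % 2 = 0), (names φ).getD (r / 2) []) ∈ (clauses φ).getD j [])

theorem nodup_names (φ : CNF) : (names φ).Nodup := nodup_nub _

theorem nil_mem_names (φ : CNF) : [] ∈ names φ := by
  rw [names, mem_nub]
  exact List.mem_cons_self

theorem nV_pos (φ : CNF) : 1 ≤ nV φ := List.length_pos_of_mem (nil_mem_names φ)

theorem nC_pos (φ : CNF) : 1 ≤ nC φ := by simp [nC, clauses]

theorem mem_names {φ : CNF} {C : List (Bool × List Bool)} (hC : C ∈ clauses φ)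
    {l : Bool × List Bool} (hl : l ∈ C) : l.2 ∈ names φ := by
  rw [clauses, List.mem_cons] at hC
  rcases hC with rfl | hC
  · have : l.2 = [] := by
      rcases List.mem_cons.1 hl with rfl | hl
      · rfl
      · rw [List.mem_singleton] at hl
        rw [hl]
    rw [this]
    exact nil_mem_names φ
  · rw [names, mem_nub, List.mem_cons, List.mem_flatMap]
    exact Or.inr ⟨C, hC, List.mem_map.2 ⟨l, hl, rfl⟩⟩

theorem sat_clauses (φ : CNF) : Sat φ ↔ Sat (clauses φ) := by
  constructor
  · rintro ⟨v, hv⟩
    refine ⟨v, fun C hC => ?_⟩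
    rw [clauses, List.mem_cons] at hC
    rcases hC with rfl | hC
    · cases h : v []
      · exact ⟨(false, []), by simp, h⟩
      · exact ⟨(true, []), by simp, h⟩
    · exact hv C hC
  · rintro ⟨v, hv⟩
    exact ⟨v, fun C hC => hv C (List.mem_cons_of_mem _ hC)⟩

/-- satisfiability of a table -/
def SatTab (n m : ℕ) (c : ℕ → ℕ → Bool) : Prop :=
  ∃ x : ℕ → Bool, ∀ j < m, ∃ r < 2 * n, c r j = true ∧ x (r / 2) = decide (r % 2 = 0)

theorem sat_iff_table (φ : CNF) : Sat φ ↔ SatTab (nV φ) (nC φ) (occ φ) := by
  rw [sat_clauses]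
  constructor
  · rintro ⟨v, hv⟩
    refine ⟨fun i => v ((names φ).getD i []), fun j hj => ?_⟩
    have hmem : (clauses φ).getD j [] ∈ clauses φ := by
      rw [List.getD_eq_getElem _ _ hj]
      exact List.getElem_mem _
    obtain ⟨⟨b, n⟩, hl, hvl⟩ := hv _ hmem
    obtain ⟨i, hi, hin⟩ := List.getElem_of_mem (mem_names hmem hl)
    have hin' : (names φ).getD i [] = n := by rw [List.getD_eq_getElem _ _ hi]; exact hin
    cases b
    · refine ⟨2 * i + 1, ?_, ?_, ?_⟩
      · show _ < 2 * (names φ).length
        omega
      · have e1 : (2 * i + 1) / 2 = i := by omega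
        have e2 : ¬ (2 * i + 1) % 2 = 0 := by omega
        rw [occ, e1, hin', decide_eq_true_eq, decide_eq_false e2]
        exact hl
      · have e1 : (2 * i + 1) / 2 = i := by omega
        have e2 : ¬ (2 * i + 1) % 2 = 0 := by omega
        rw [decide_eq_false e2]
        show v ((names φ).getD ((2 * i + 1) / 2) []) = false
        rw [e1, hin']
        exact hvl
    · refine ⟨2 * i, ?_, ?_, ?_⟩
      · show _ < 2 * (names φ).length
        omega
      · have e1 : (2 * i) / 2 = i := by omega
        have e2 : (2 * i) % 2 = 0 := by omega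
        rw [occ, e1, hin', decide_eq_true_eq, decide_eq_true e2]
        exact hl
      · have e1 : (2 * i) / 2 = i := by omega
        have e2 : (2 * i) % 2 = 0 := by omega
        rw [decide_eq_true e2]
        show v ((names φ).getD ((2 * i) / 2) []) = true
        rw [e1, hin']
        exact hvl
  · rintro ⟨x, hx⟩
    refine ⟨fun nm => x ((names φ).idxOf nm), fun C hC => ?_⟩
    obtain ⟨j, hj, hjC⟩ := List.getElem_of_mem hC
    obtain ⟨r, hr, hocc, hxr⟩ := hx j hj
    rw [occ, decide_eq_true_eq, List.getD_eq_getElem _ _ hj, hjC] at hocc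
    refine ⟨_, hocc, ?_⟩
    have hr2 : r / 2 < (names φ).length := by
      have : r < 2 * (names φ).length := hr
      omega
    show x ((names φ).idxOf ((names φ).getD (r / 2) [])) = _
    rw [List.getD_eq_getElem _ _ hr2, (nodup_names φ).idxOf_getElem]
    exact hxr

theorem PT.names' : PT names :=
  PT.nub ((PT.const ([] : List Bool)).cons
    (PT.flatMap (g := fun x : CNF × List (Bool × List Bool) => x.2.map fun l => l.2) PT.id
      (PT.map (g := fun x : (CNF × List (Bool × List Bool)) × Bool × List Bool => x.2.2) PT.snd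
        (PT.snd.comp PT.snd))))

theorem PT.clauses' : PT clauses := (PT.const _).cons PT.id

theorem PT.nV' : PT nV := PT.names'.length

theorem PT.nC' : PT nC := PT.clauses'.length

theorem PT.occ' {α : Type} [Code α] {φ : α → CNF} {r j : α → ℕ} (hφ : PT φ) (hr : PT r)
    (hj : PT j) : PT (fun a => occ (φ a) (r a) (j a)) :=
  (PT.mem (PT.getD (PT.clauses'.comp hφ) hj (PT.const []))
    ((PT.natEq (hr.mod (PT.const 2)) (PT.const 0)).pair
      (PT.getD (PT.names'.comp hφ) (hr.div (PT.const 2)) (PT.const [])))).congr fun a =>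
    decide_eq_decide.2 Iff.rfl

/-! ### the monotone version: variables = literals -/

/-- number of variables of the monotone formula -/
def mn (φ : CNF) : ℕ := 2 * nV φ

/-- number of positive clauses -/
def mkp (φ : CNF) : ℕ := nC φ + nV φ

/-- number of clauses -/
def mm (φ : CNF) : ℕ := nC φ + nV φ + nV φ

/-- variable `s` occurs in clause `k` -/
def mmem (φ : CNF) (s k : ℕ) : Bool :=
  if k < nC φ then occ φ s k
  else if k < nC φ + nV φ then decide (s / 2 = k - nC φ)
  else decide (s / 2 = k - (nC φ + nV φ))

/-- monotone satisfiability: clauses `k < kp` are positive, the others negative -/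
def MonoSat (n m kp : ℕ) (mem : ℕ → ℕ → Bool) : Prop :=
  ∃ x : ℕ → Bool, (∀ k < kp, ∃ s < n, mem s k = true ∧ x s = true) ∧
    ∀ k, kp ≤ k → k < m → ∃ s < n, mem s k = true ∧ x s = false

theorem sat_iff_mono (φ : CNF) : Sat φ ↔ MonoSat (mn φ) (mm φ) (mkp φ) (mmem φ) := by
  rw [sat_iff_table]
  constructor
  · rintro ⟨x, hx⟩
    refine ⟨fun r => decide (x (r / 2) = decide (r % 2 = 0)), fun k hk => ?_, fun k hk hk2 => ?_⟩
    · by_cases h : k < nC φ
      · obtain ⟨r, hr, h1, h2⟩ := hx k h
        exact ⟨r, hr, by rw [mmem, if_pos h]; exact h1, by simp [h2]⟩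
      · have hk' : k < nC φ + nV φ := hk
        cases hxk : x (k - nC φ)
        · refine ⟨2 * (k - nC φ) + 1, ?_, ?_, ?_⟩
          · show _ < 2 * nV φ
            omega
          · rw [mmem, if_neg h, if_pos hk', decide_eq_true_eq]
            omega
          · have e1 : (2 * (k - nC φ) + 1) / 2 = k - nC φ := by omega
            have e2 : ¬ (2 * (k - nC φ) + 1) % 2 = 0 := by omega
            simp only [e1, hxk, decide_eq_false e2, decide_true]
        · refine ⟨2 * (k - nC φ), ?_, ?_, ?_⟩
          · show _ < 2 * nV φ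
            omega
          · rw [mmem, if_neg h, if_pos hk', decide_eq_true_eq]
            omega
          · have e1 : (2 * (k - nC φ)) / 2 = k - nC φ := by omega
            have e2 : (2 * (k - nC φ)) % 2 = 0 := by omega
            simp only [e1, hxk, decide_eq_true e2, decide_true]
    · have h : ¬ k < nC φ := by
        have : nC φ + nV φ ≤ k := hk
        omega
      have h' : ¬ k < nC φ + nV φ := by
        have : nC φ + nV φ ≤ k := hk
        omega
      have hk3 : k < nC φ + nV φ + nV φ := hk2
      cases hxk : x (k - (nC φ + nV φ))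
      · refine ⟨2 * (k - (nC φ + nV φ)), ?_, ?_, ?_⟩
        · show _ < 2 * nV φ
          omega
        · rw [mmem, if_neg h, if_neg h', decide_eq_true_eq]
          omega
        · have e1 : (2 * (k - (nC φ + nV φ))) / 2 = k - (nC φ + nV φ) := by omega
          have e2 : (2 * (k - (nC φ + nV φ))) % 2 = 0 := by omega
          simp only [e1, hxk, decide_eq_true e2]
          decide
      · refine ⟨2 * (k - (nC φ + nV φ)) + 1, ?_, ?_, ?_⟩
        · show _ < 2 * nV φ
          omega
        · rw [mmem, if_neg h, if_neg h', decide_eq_true_eq]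
          omega
        · have e1 : (2 * (k - (nC φ + nV φ)) + 1) / 2 = k - (nC φ + nV φ) := by omega
          have e2 : ¬ (2 * (k - (nC φ + nV φ)) + 1) % 2 = 0 := by omega
          simp only [e1, hxk, decide_eq_false e2]
          decide
  · rintro ⟨y, hy1, hy2⟩
    refine ⟨fun i => y (2 * i), fun j hj => ?_⟩
    obtain ⟨r, hr, h1, h2⟩ := hy1 j (by show j < nC φ + nV φ; omega)
    rw [mmem, if_pos hj] at h1
    refine ⟨r, hr, h1, ?_⟩
    have hr' : r < 2 * nV φ := hr
    by_cases hp : r % 2 = 0
    · have e : 2 * (r / 2) = r := by omega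
      simp only [e, h2, decide_eq_true hp]
    · have e : 2 * (r / 2) + 1 = r := by omega
      rw [decide_eq_false hp]
      -- the negative clause of the variable
      obtain ⟨s, hs, h3, h4⟩ := hy2 (nC φ + nV φ + r / 2) (by show nC φ + nV φ ≤ _; omega)
        (by show _ < nC φ + nV φ + nV φ; omega)
      rw [mmem, if_neg (by omega), if_neg (by omega), decide_eq_true_eq] at h3
      have hs2 : s = 2 * (r / 2) ∨ s = r := by omega
      rcases hs2 with rfl | rfl
      · exact h4
      · rw [h2] at h4
        exact absurd h4 (by simp)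

theorem PT.mn' : PT mn := PT.mul (PT.const 2) PT.nV'

theorem PT.mkp' : PT mkp := PT.nC'.add PT.nV'

theorem PT.mm' : PT mm := (PT.nC'.add PT.nV').add PT.nV'

theorem PT.mmem' {α : Type} [Code α] {φ : α → CNF} {s k : α → ℕ} (hφ : PT φ) (hs : PT s)
    (hk : PT k) : PT (fun a => mmem (φ a) (s a) (k a)) := by
  unfold mmem
  exact PT.ite (hk.lt (PT.nC'.comp hφ)) (PT.occ' hφ hs hk)
    (PT.ite (hk.lt ((PT.nC'.comp hφ).add (PT.nV'.comp hφ)))
      (PT.natEq (hs.div (PT.const 2)) (hk.sub (PT.nC'.comp hφ)))
      (PT.natEq (hs.div (PT.const 2)) (hk.sub ((PT.nC'.comp hφ).add (PT.nV'.comp hφ)))))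

end PTime
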